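import Mathlib

set_option autoImplicit false

/-!
# Rotations of Gaussian measures
-/

namespace Pool.Agent.Lib.MP_ec2ab1_pr_h25b

open MeasureTheory ProbabilityTheory
open scoped NNReal ENNReal

/-- standard normal law -/
noncomputable abbrev ga : Measure ℝ := gaussianReal 0 1
/-- normal law of variance `1/2` -/
noncomputable abbrev et : Measure ℝ := gaussianReal 0 (1 / 2)
/-- normal law of variance `2` -/
noncomputable abbrev GG : Measure ℝ := gaussianReal 0 2

theorem et_eq : et = ga.map (fun x => (Real.sqrt 2)⁻¹ * x) := by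
  have h : (1 / 2 : ℝ≥0) = NNReal.mk ((Real.sqrt 2)⁻¹ ^ 2) (sq_nonneg _) * 1 := by
    apply NNReal.eq
    simp [Real.sq_sqrt]
  rw [gaussianReal_map_const_mul, mul_zero]
  change gaussianReal 0 (1 / 2) = _
  rw [h]

theorem GG_eq : GG = ga.map (fun x => Real.sqrt 2 * x) := by
  rw [gaussianReal_map_const_mul, mul_zero]
  simp only [Real.sq_sqrt (show (0 : ℝ) ≤ 2 by norm_num), mul_one]
  congr 1

/-- rotation by 45 degrees -/
theorem rot_ga : (ga.prod ga).map (fun p : ℝ × ℝ =>
    ((Real.sqrt 2)⁻¹ * p.1 + (Real.sqrt 2)⁻¹ * p.2, (Real.sqrt 2)⁻¹ * p.1 - (Real.sqrt 2)⁻¹ * p.2))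
    = ga.prod ga := by
  have h0 : (ga)[id] = 0 := by
    simp [integral_id_gaussianReal]
  have h := IsGaussian.map_rotation_eq_self h0 (-(Real.pi / 4))
  have hsw : (ga.prod ga).map Prod.swap = ga.prod ga := Measure.prod_swap
  have hs : Real.sqrt 2 / 2 = (Real.sqrt 2)⁻¹ := by
    rw [div_eq_iff (by norm_num), eq_comm, inv_mul_eq_iff_eq_mul₀ (by positivity)]
    rw [Real.mul_self_sqrt (by norm_num)]
  conv_rhs => rw [← hsw, ← h]
  rw [Measure.map_map measurable_swap (by fun_prop)]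
  congr 1
  funext p
  simp only [Function.comp, ContinuousLinearMap.rotation_apply, Real.cos_neg, Real.sin_neg,
    Real.cos_pi_div_four, Real.sin_pi_div_four, smul_eq_mul, Prod.swap_prod_mk, hs]
  ext
  · simp
  · simp only []
    ring

/-- sum and difference of two independent normal variables of variance `1/2` -/
theorem map_et : (et.prod et).map (fun p : ℝ × ℝ => (p.1 + p.2, p.1 - p.2)) = ga.prod ga := by
  conv_rhs => rw [← rot_ga]
  have h1 : Measurable (fun x : ℝ => (Real.sqrt 2)⁻¹ * x) := by fun_prop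
  rw [et_eq, Measure.map_prod_map _ _ h1 h1, Measure.map_map (by fun_prop) (by fun_prop)]
  rfl

theorem map_GG : (GG.prod et).map (fun p : ℝ × ℝ => (p.1 / 2 + p.2, p.1 / 2 - p.2)) =
    ga.prod ga := by
  conv_rhs => rw [← rot_ga]
  have h1 : Measurable (fun x : ℝ => (Real.sqrt 2)⁻¹ * x) := by fun_prop
  have h2 : Measurable (fun x : ℝ => Real.sqrt 2 * x) := by fun_prop
  rw [et_eq, GG_eq, Measure.map_prod_map _ _ h2 h1, Measure.map_map (by fun_prop) (by fun_prop)]
  congr 1
  funext p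
  have hs : Real.sqrt 2 / 2 = (Real.sqrt 2)⁻¹ := by
    rw [div_eq_iff (by norm_num), eq_comm, inv_mul_eq_iff_eq_mul₀ (by positivity)]
    rw [Real.mul_self_sqrt (by norm_num)]
  simp only [Function.comp, Prod.map]
  rw [← hs]
  ext
  · simp only []
    ring
  · simp only []
    ring

/-- the inverse of `map_et` -/
theorem map_half : (ga.prod ga).map (fun p : ℝ × ℝ => ((p.1 + p.2) / 2, (p.1 - p.2) / 2)) =
    et.prod et := by
  rw [← map_et, Measure.map_map (by fun_prop) (by fun_prop)]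
  have : ((fun p : ℝ × ℝ => ((p.1 + p.2) / 2, (p.1 - p.2) / 2)) ∘
      (fun p : ℝ × ℝ => (p.1 + p.2, p.1 - p.2))) = id := by
    funext p
    ext
    · simp only [Function.comp, id]
      ring
    · simp only [Function.comp, id]
      ring
  rw [this, Measure.map_id]

theorem et_symm : et.map (fun x => -x) = et := by
  rw [gaussianReal_map_neg, neg_zero]

theorem ga_symm : ga.map (fun x => -x) = ga := by
  rw [gaussianReal_map_neg, neg_zero]

theorem mp_rearr (μ : Measure ℝ) [IsProbabilityMeasure μ] :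
    MeasurePreserving (fun p : (ℝ × ℝ) × (ℝ × ℝ) => ((p.1.1, p.2.2), (p.1.2, p.2.1)))
      ((μ.prod μ).prod (μ.prod μ)) ((μ.prod μ).prod (μ.prod μ)) := by
  have h1 := measurePreserving_prodAssoc μ μ (μ.prod μ)
  have h2 : MeasurePreserving (Prod.swap ∘ MeasurableEquiv.prodAssoc.symm)
      (μ.prod (μ.prod μ)) (μ.prod (μ.prod μ)) :=
    Measure.measurePreserving_swap.comp
      ((measurePreserving_prodAssoc μ μ μ).symm MeasurableEquiv.prodAssoc)
  have h3 := (MeasurePreserving.id μ).prod h2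
  have h4 := (measurePreserving_prodAssoc μ μ (μ.prod μ)).symm MeasurableEquiv.prodAssoc
  exact h4.comp (h3.comp h1)

/-- the change of variables `((s,t),(ξ,ξ')) ↦ ((τ,δ),(e,e'))` -/
noncomputable def psi (p : (ℝ × ℝ) × (ℝ × ℝ)) : (ℝ × ℝ) × (ℝ × ℝ) :=
  ((p.1.1 / 2 + p.1.2, p.2.1 - p.2.2),
    (((p.1.1 / 2 - p.1.2) + (p.2.1 + p.2.2)) / 2, ((p.1.1 / 2 - p.1.2) - (p.2.1 + p.2.2)) / 2))

theorem mp_psi : MeasurePreserving psi ((GG.prod et).prod (et.prod et))
    ((ga.prod ga).prod (et.prod et)) := by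
  have h1 : MeasurePreserving (fun p : ℝ × ℝ => (p.1 / 2 + p.2, p.1 / 2 - p.2)) (GG.prod et)
      (ga.prod ga) := ⟨by fun_prop, map_GG⟩
  have h2 : MeasurePreserving (fun p : ℝ × ℝ => (p.1 + p.2, p.1 - p.2)) (et.prod et)
      (ga.prod ga) := ⟨by fun_prop, map_et⟩
  have h3 : MeasurePreserving (fun p : ℝ × ℝ => ((p.1 + p.2) / 2, (p.1 - p.2) / 2)) (ga.prod ga)
      (et.prod et) := ⟨by fun_prop, map_half⟩
  exact ((MeasurePreserving.id (ga.prod ga)).prod h3).comp ((mp_rearr ga).comp (h1.prod h2))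

end Pool.Agent.Lib.MP_ec2ab1_pr_h25b
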