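import Mathlib
import Pool.Agent.Lib.MP_ec2ab1_pr_h25b.Rot

set_option autoImplicit false

/-!
# The quadratic inequality with weights
-/

namespace Pool.Agent.Lib.MP_ec2ab1_pr_h25b

open MeasureTheory ProbabilityTheory

/-- `E q(s/2 + ξ)`, `ξ ~ N(0, 1/2)` -/
noncomputable def bf (q : ℝ → ℝ) (s : ℝ) : ℝ := ∫ x, q (s / 2 + x) ∂et

/-- `E q(s/2 + ξ) q(s/2 - ξ)` -/
noncomputable def kf (q : ℝ → ℝ) (s : ℝ) : ℝ := ∫ x, q (s / 2 + x) * q (s / 2 - x) ∂et

theorem integrable_bdd {α : Type*} [MeasurableSpace α] {μ : Measure α} [IsFiniteMeasure μ]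
    {f : α → ℝ} (hf : Measurable f) {C : ℝ} (hC : ∀ x, |f x| ≤ C) : Integrable f μ :=
  Integrable.of_bound hf.aestronglyMeasurable C (Filter.Eventually.of_forall hC)

theorem bf_neg {q : ℝ → ℝ} (hq : Measurable q) (s : ℝ) : ∫ x, q (s / 2 - x) ∂et = bf q s := by
  unfold bf
  conv_rhs => rw [← et_symm]
  have h : Measurable (fun x => q (s / 2 + x)) := by fun_prop
  rw [integral_map (by fun_prop) h.aestronglyMeasurable]
  rfl

theorem measurable_bf {q : ℝ → ℝ} (hq : Measurable q) : Measurable (bf q) := by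
  unfold bf
  have h : Measurable (fun p : ℝ × ℝ => q (p.1 / 2 + p.2)) := by fun_prop
  exact (h.stronglyMeasurable.integral_prod_right').measurable

theorem measurable_kf {q : ℝ → ℝ} (hq : Measurable q) : Measurable (kf q) := by
  unfold kf
  have h : Measurable (fun p : ℝ × ℝ => q (p.1 / 2 + p.2) * q (p.1 / 2 - p.2)) := by fun_prop
  exact (h.stronglyMeasurable.integral_prod_right').measurable

theorem abs_integral_le_bdd {α : Type*} [MeasurableSpace α] {μ : Measure α}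
    [IsProbabilityMeasure μ] {f : α → ℝ} {C : ℝ} (hC : ∀ x, |f x| ≤ C) : |∫ x, f x ∂μ| ≤ C := by
  have h := norm_integral_le_of_norm_le_const (μ := μ) (f := f) (C := C)
    (Filter.Eventually.of_forall hC)
  simpa using h

theorem abs_bf_le {q : ℝ → ℝ} {C : ℝ} (hC : ∀ x, |q x| ≤ C) (s : ℝ) : |bf q s| ≤ C :=
  abs_integral_le_bdd fun _ => hC _

theorem abs_kf_le {q : ℝ → ℝ} {C : ℝ} (hC : ∀ x, |q x| ≤ C) (s : ℝ) : |kf q s| ≤ C * C := by
  apply abs_integral_le_bdd
  intro x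
  rw [abs_mul]
  exact mul_le_mul (hC _) (hC _) (abs_nonneg _) ((abs_nonneg _).trans (hC 0))

private theorem lin4 {μ : Measure ℝ} [IsProbabilityMeasure μ] {f g h : ℝ → ℝ}
    (hf : Integrable f μ) (hg : Integrable g μ) (hh : Integrable h μ) (c1 c2 c3 c4 : ℝ) :
    ∫ x, (f x * c1 + g x * c2 + h x * c3 + c4) ∂μ =
      (∫ x, f x ∂μ) * c1 + (∫ x, g x ∂μ) * c2 + (∫ x, h x ∂μ) * c3 + c4 := by
  have h1 : Integrable (fun x => f x * c1) μ := hf.mul_const c1
  have h2 : Integrable (fun x => g x * c2) μ := hg.mul_const c2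
  have h3 : Integrable (fun x => h x * c3) μ := hh.mul_const c3
  have h12 : Integrable (fun x => f x * c1 + g x * c2) μ := h1.add h2
  have h123 : Integrable (fun x => f x * c1 + g x * c2 + h x * c3) μ := h12.add h3
  have e1 : ∫ x, (f x * c1 + g x * c2 + h x * c3 + c4) ∂μ =
      ∫ x, (f x * c1 + g x * c2 + h x * c3) ∂μ + ∫ _, c4 ∂μ :=
    integral_add h123 (integrable_const c4)
  have e2 : ∫ x, (f x * c1 + g x * c2 + h x * c3) ∂μ =
      ∫ x, (f x * c1 + g x * c2) ∂μ + ∫ x, h x * c3 ∂μ := integral_add h12 h3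
  have e3 : ∫ x, (f x * c1 + g x * c2) ∂μ = ∫ x, f x * c1 ∂μ + ∫ x, g x * c2 ∂μ :=
    integral_add h1 h2
  rw [e1, e2, e3, integral_mul_const, integral_mul_const, integral_mul_const]
  simp

/-- the function integrated over four independent normal variables -/
noncomputable def ker (q w : ℝ → ℝ) (A B E : ℝ) (p : (ℝ × ℝ) × (ℝ × ℝ)) : ℝ :=
  w p.1.1 * (A * ((q (p.1.1 / 2 + p.2.1 + p.1.2 / 2) + q (p.1.1 / 2 + p.2.1 - p.1.2 / 2)) *
      (q (p.1.1 / 2 + p.2.2 + p.1.2 / 2) + q (p.1.1 / 2 + p.2.2 - p.1.2 / 2))) +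
    B * ((q (p.1.1 / 2 + p.2.1 + p.1.2 / 2) + q (p.1.1 / 2 + p.2.1 - p.1.2 / 2)) *
        (q (p.1.1 / 2 + p.2.2 + p.1.2 / 2) * q (p.1.1 / 2 + p.2.2 - p.1.2 / 2)) +
      (q (p.1.1 / 2 + p.2.1 + p.1.2 / 2) * q (p.1.1 / 2 + p.2.1 - p.1.2 / 2)) *
        (q (p.1.1 / 2 + p.2.2 + p.1.2 / 2) + q (p.1.1 / 2 + p.2.2 - p.1.2 / 2))) +
    E * ((q (p.1.1 / 2 + p.2.1 + p.1.2 / 2) * q (p.1.1 / 2 + p.2.1 - p.1.2 / 2)) *
      (q (p.1.1 / 2 + p.2.2 + p.1.2 / 2) * q (p.1.1 / 2 + p.2.2 - p.1.2 / 2))))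

theorem measurable_ker {q w : ℝ → ℝ} (hq : Measurable q) (hw : Measurable w) (A B E : ℝ) :
    Measurable (ker q w A B E) := by
  unfold ker
  fun_prop

theorem ker_bdd {q w : ℝ → ℝ} {C D : ℝ} (hC : ∀ x, |q x| ≤ C) (hD : ∀ x, |w x| ≤ D)
    (A B E : ℝ) (p : (ℝ × ℝ) × (ℝ × ℝ)) :
    |ker q w A B E p| ≤ D * (|A| * ((C + C) * (C + C)) + |B| * ((C + C) * (C * C) +
      (C * C) * (C + C)) + |E| * ((C * C) * (C * C))) := by
  have hC0 : 0 ≤ C := (abs_nonneg _).trans (hC 0)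
  have hD0 : 0 ≤ D := (abs_nonneg _).trans (hD 0)
  have hadd : ∀ x y, |q x + q y| ≤ C + C := fun x y =>
    (abs_add_le _ _).trans (add_le_add (hC x) (hC y))
  have hmul : ∀ x y, |q x * q y| ≤ C * C := fun x y => by
    rw [abs_mul]
    exact mul_le_mul (hC x) (hC y) (abs_nonneg _) hC0
  have hm : ∀ {a b c d : ℝ}, |a| ≤ c → |b| ≤ d → 0 ≤ c → |a * b| ≤ c * d := by
    intro a b c d h1 h2 h3
    rw [abs_mul]
    exact mul_le_mul h1 h2 (abs_nonneg _) h3
  unfold ker
  refine hm (hD _) ?_ hD0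
  refine (abs_add_le _ _).trans (add_le_add ((abs_add_le _ _).trans (add_le_add ?_ ?_)) ?_)
  · rw [abs_mul]
    exact mul_le_mul_of_nonneg_left (hm (hadd _ _) (hadd _ _) (by positivity)) (abs_nonneg _)
  · rw [abs_mul]
    refine mul_le_mul_of_nonneg_left ((abs_add_le _ _).trans (add_le_add ?_ ?_)) (abs_nonneg _)
    · exact hm (hadd _ _) (hmul _ _) (by positivity)
    · exact hm (hmul _ _) (hadd _ _) (by positivity)
  · rw [abs_mul]
    exact mul_le_mul_of_nonneg_left (hm (hmul _ _) (hmul _ _) (by positivity)) (abs_nonneg _)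

private theorem quad_form_nonneg {A B E : ℝ} (hA : 0 ≤ A) (hE : 0 ≤ E) (hB : B ^ 2 ≤ A * E)
    (x y : ℝ) : 0 ≤ A * (x * x) + B * (x * y + y * x) + E * (y * y) := by
  rcases hA.eq_or_lt with h0 | h0
  · have hB0 : B = 0 := by
      rw [← h0, zero_mul] at hB
      exact pow_eq_zero_iff (two_ne_zero) |>.1 (le_antisymm hB (sq_nonneg B))
    rw [← h0, hB0]
    nlinarith [mul_nonneg hE (mul_self_nonneg y)]
  · have h : 0 ≤ A * (A * (x * x) + B * (x * y + y * x) + E * (y * y)) := by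
      have e : A * (A * (x * x) + B * (x * y + y * x) + E * (y * y)) =
          (A * x + B * y) ^ 2 + (A * E - B ^ 2) * y ^ 2 := by ring
      rw [e]
      have : 0 ≤ A * E - B ^ 2 := sub_nonneg.2 hB
      positivity
    exact nonneg_of_mul_nonneg_right h h0

/-- positivity of the fourfold integral -/
theorem ker_int_nonneg {q w : ℝ → ℝ} (hq : Measurable q) (hw : Measurable w) {C D : ℝ}
    (hC : ∀ x, |q x| ≤ C) (hD : ∀ x, |w x| ≤ D) (hw0 : ∀ x, 0 ≤ w x) {A B E : ℝ}
    (hA : 0 ≤ A) (hE : 0 ≤ E) (hB : B ^ 2 ≤ A * E) :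
    0 ≤ ∫ p, ker q w A B E p ∂((ga.prod ga).prod (et.prod et)) := by
  rw [integral_prod _ (integrable_bdd (measurable_ker hq hw A B E) (ker_bdd hC hD A B E))]
  refine integral_nonneg fun r => ?_
  -- fixed `(τ, δ)`
  set S : ℝ → ℝ := fun e => q (r.1 / 2 + e + r.2 / 2) + q (r.1 / 2 + e - r.2 / 2) with hS
  set R : ℝ → ℝ := fun e => q (r.1 / 2 + e + r.2 / 2) * q (r.1 / 2 + e - r.2 / 2) with hR
  have hSm : Measurable S := by fun_prop
  have hRm : Measurable R := by fun_prop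
  have hC0 : 0 ≤ C := (abs_nonneg _).trans (hC 0)
  have hSb : ∀ e, |S e| ≤ C + C := fun e => (abs_add_le _ _).trans (add_le_add (hC _) (hC _))
  have hRb : ∀ e, |R e| ≤ C * C := fun e => by
    rw [hR, abs_mul]
    exact mul_le_mul (hC _) (hC _) (abs_nonneg _) hC0
  have hSi : Integrable S et := integrable_bdd hSm hSb
  have hRi : Integrable R et := integrable_bdd hRm hRb
  have e1 : ∀ z : ℝ × ℝ, ker q w A B E (r, z) = w r.1 * A * (S z.1 * S z.2) +
      w r.1 * B * (S z.1 * R z.2) + w r.1 * B * (R z.1 * S z.2) + w r.1 * E * (R z.1 * R z.2) := by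
    intro z
    simp only [ker, hS, hR]
    ring
  have i1 : Integrable (fun z : ℝ × ℝ => S z.1 * S z.2) (et.prod et) := hSi.mul_prod hSi
  have i2 : Integrable (fun z : ℝ × ℝ => S z.1 * R z.2) (et.prod et) := hSi.mul_prod hRi
  have i3 : Integrable (fun z : ℝ × ℝ => R z.1 * S z.2) (et.prod et) := hRi.mul_prod hSi
  have i4 : Integrable (fun z : ℝ × ℝ => R z.1 * R z.2) (et.prod et) := hRi.mul_prod hRi
  have e2 : ∫ z, ker q w A B E (r, z) ∂(et.prod et) =
      w r.1 * A * ((∫ x, S x ∂et) * ∫ x, S x ∂et) + w r.1 * B * ((∫ x, S x ∂et) * ∫ x, R x ∂et) +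
      w r.1 * B * ((∫ x, R x ∂et) * ∫ x, S x ∂et) +
      w r.1 * E * ((∫ x, R x ∂et) * ∫ x, R x ∂et) := by
    simp_rw [e1]
    have j1 : Integrable (fun z : ℝ × ℝ => w r.1 * A * (S z.1 * S z.2)) (et.prod et) :=
      i1.const_mul _
    have j2 : Integrable (fun z : ℝ × ℝ => w r.1 * B * (S z.1 * R z.2)) (et.prod et) :=
      i2.const_mul _
    have j3 : Integrable (fun z : ℝ × ℝ => w r.1 * B * (R z.1 * S z.2)) (et.prod et) :=
      i3.const_mul _
    have j4 : Integrable (fun z : ℝ × ℝ => w r.1 * E * (R z.1 * R z.2)) (et.prod et) :=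
      i4.const_mul _
    have j12 : Integrable (fun z : ℝ × ℝ => w r.1 * A * (S z.1 * S z.2) +
      w r.1 * B * (S z.1 * R z.2)) (et.prod et) := j1.add j2
    have j123 : Integrable (fun z : ℝ × ℝ => w r.1 * A * (S z.1 * S z.2) +
      w r.1 * B * (S z.1 * R z.2) + w r.1 * B * (R z.1 * S z.2)) (et.prod et) := j12.add j3
    rw [integral_add j123 j4, integral_add j12 j3, integral_add j1 j2, integral_const_mul,
      integral_const_mul, integral_const_mul, integral_const_mul, integral_prod_mul,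
      integral_prod_mul, integral_prod_mul, integral_prod_mul]
  change 0 ≤ ∫ z, ker q w A B E (r, z) ∂(et.prod et)
  rw [e2]
  have h := mul_nonneg (hw0 r.1)
    (quad_form_nonneg hA hE hB (∫ x, S x ∂et) (∫ x, R x ∂et))
  linarith

/-- **The weighted quadratic inequality.** -/
theorem key {q w : ℝ → ℝ} (hq : Measurable q) (hw : Measurable w) {C D : ℝ}
    (hC : ∀ x, |q x| ≤ C) (hD : ∀ x, |w x| ≤ D) (hw0 : ∀ x, 0 ≤ w x) {A B E : ℝ}
    (hA : 0 ≤ A) (hE : 0 ≤ E) (hB : B ^ 2 ≤ A * E) :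
    0 ≤ ∫ s, bf w s * (A * (2 * bf q s ^ 2 + 2 * kf q s) + 4 * B * bf q s * kf q s +
      E * kf q s ^ 2) ∂GG := by
  have h0 := ker_int_nonneg hq hw hC hD hw0 hA hE hB
  have hm := measurable_ker hq hw A B E
  rw [← mp_psi.map_eq, integral_map mp_psi.measurable.aemeasurable hm.aestronglyMeasurable] at h0
  have hcm : Measurable (fun x => ker q w A B E (psi x)) := hm.comp mp_psi.measurable
  rw [integral_prod _ (integrable_bdd hcm fun x => ker_bdd hC hD A B E (psi x))] at h0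
  have hC0 : 0 ≤ C := (abs_nonneg _).trans (hC 0)
  -- the inner integral
  have hin : ∀ r : ℝ × ℝ, ∫ z, ker q w A B E (psi (r, z)) ∂(et.prod et) =
      w (r.1 / 2 + r.2) * (A * (2 * bf q r.1 ^ 2 + 2 * kf q r.1) + 4 * B * bf q r.1 * kf q r.1 +
      E * kf q r.1 ^ 2) := by
    intro r
    set a : ℝ → ℝ := fun x => q (r.1 / 2 + x) with ha
    set c : ℝ → ℝ := fun x => q (r.1 / 2 - x) with hc
    set W : ℝ := w (r.1 / 2 + r.2) with hW
    have ham : Measurable a := by fun_prop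
    have hcm' : Measurable c := by fun_prop
    have hai : Integrable a et := integrable_bdd ham fun x => hC _
    have hci : Integrable c et := integrable_bdd hcm' fun x => hC _
    have haci : Integrable (fun x => a x * c x) et := by
      refine integrable_bdd (ham.mul hcm') (C := C * C) fun x => ?_
      rw [abs_mul]
      exact mul_le_mul (hC _) (hC _) (abs_nonneg _) hC0
    have e1 : ∀ z : ℝ × ℝ, ker q w A B E (psi (r, z)) =
        a z.2 * (W * (A * c z.1 + B * (a z.1 * c z.1))) +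
        c z.2 * (W * (A * a z.1 + B * (a z.1 * c z.1))) +
        a z.2 * c z.2 * (W * (A + B * (a z.1 + c z.1) + E * (a z.1 * c z.1))) +
        W * A * (a z.1 * c z.1) := by
      intro z
      have x1 : (r.1 / 2 + r.2) / 2 + (r.1 / 2 - r.2 + (z.1 + z.2)) / 2 + (z.1 - z.2) / 2 =
          r.1 / 2 + z.1 := by ring
      have x2 : (r.1 / 2 + r.2) / 2 + (r.1 / 2 - r.2 + (z.1 + z.2)) / 2 - (z.1 - z.2) / 2 =
          r.1 / 2 + z.2 := by ring
      have x3 : (r.1 / 2 + r.2) / 2 + (r.1 / 2 - r.2 - (z.1 + z.2)) / 2 + (z.1 - z.2) / 2 =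
          r.1 / 2 - z.2 := by ring
      have x4 : (r.1 / 2 + r.2) / 2 + (r.1 / 2 - r.2 - (z.1 + z.2)) / 2 - (z.1 - z.2) / 2 =
          r.1 / 2 - z.1 := by ring
      simp only [ker, psi, x1, x2, x3, x4, ha, hc, hW]
      ring
    have hzi : Integrable (fun z => ker q w A B E (psi (r, z))) (et.prod et) :=
      integrable_bdd (hcm.comp measurable_prodMk_left) fun z => ker_bdd hC hD A B E (psi (r, z))
    rw [integral_prod _ hzi]
    have e2 : ∀ x, ∫ y, ker q w A B E (psi (r, (x, y))) ∂et =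
        a x * (W * (A * bf q r.1 + B * kf q r.1)) + c x * (W * (A * bf q r.1 + B * kf q r.1)) +
        a x * c x * (W * (2 * B * bf q r.1 + E * kf q r.1 + A)) + W * A * kf q r.1 := by
      intro x
      simp_rw [e1]
      rw [lin4 hai hci haci]
      have hb1 : ∫ y, a y ∂et = bf q r.1 := rfl
      have hb2 : ∫ y, c y ∂et = bf q r.1 := bf_neg hq r.1
      have hb3 : ∫ y, a y * c y ∂et = kf q r.1 := rfl
      rw [hb1, hb2, hb3]
      ring
    simp_rw [e2]
    rw [lin4 hai hci haci]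
    have hb1 : ∫ y, a y ∂et = bf q r.1 := rfl
    have hb2 : ∫ y, c y ∂et = bf q r.1 := bf_neg hq r.1
    have hb3 : ∫ y, a y * c y ∂et = kf q r.1 := rfl
    rw [hb1, hb2, hb3]
    ring
  simp_rw [hin] at h0
  -- integrate over `t`
  set g : ℝ → ℝ := fun s => A * (2 * bf q s ^ 2 + 2 * kf q s) + 4 * B * bf q s * kf q s +
    E * kf q s ^ 2 with hg
  have hbm := measurable_bf hq
  have hkm := measurable_kf hq
  have hgm : Measurable g := by fun_prop
  have hgb : ∀ s, |g s| ≤ |A| * (2 * (C * C) + 2 * (C * C)) + 4 * |B| * C * (C * C) +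
      |E| * ((C * C) * (C * C)) := by
    intro s
    have hb := abs_bf_le hC s
    have hk := abs_kf_le hC s
    have hb2 : |bf q s ^ 2| ≤ C * C := by
      rw [pow_two, abs_mul]
      exact mul_le_mul hb hb (abs_nonneg _) hC0
    have hk2 : |kf q s ^ 2| ≤ (C * C) * (C * C) := by
      rw [pow_two, abs_mul]
      exact mul_le_mul hk hk (abs_nonneg _) (by positivity)
    refine (abs_add_le _ _).trans (add_le_add ((abs_add_le _ _).trans (add_le_add ?_ ?_)) ?_)
    · rw [abs_mul]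
      refine mul_le_mul_of_nonneg_left ((abs_add_le _ _).trans (add_le_add ?_ ?_)) (abs_nonneg _)
      · rw [abs_mul, abs_two]
        exact mul_le_mul_of_nonneg_left hb2 (by norm_num)
      · rw [abs_mul, abs_two]
        exact mul_le_mul_of_nonneg_left hk (by norm_num)
    · rw [abs_mul, abs_mul, abs_mul]
      have h4 : |(4 : ℝ)| = 4 := abs_of_pos (by norm_num)
      rw [h4]
      exact mul_le_mul (mul_le_mul_of_nonneg_left hb (by positivity)) hk (abs_nonneg _)
        (by positivity)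
    · rw [abs_mul]
      exact mul_le_mul_of_nonneg_left hk2 (abs_nonneg _)
  have hwg : Integrable (fun r : ℝ × ℝ => w (r.1 / 2 + r.2) * g r.1) (GG.prod et) := by
    refine integrable_bdd (by fun_prop) (C := D * (|A| * (2 * (C * C) + 2 * (C * C)) +
      4 * |B| * C * (C * C) + |E| * ((C * C) * (C * C)))) fun r => ?_
    rw [abs_mul]
    exact mul_le_mul (hD _) (hgb _) (abs_nonneg _) ((abs_nonneg _).trans (hD 0))
  have h1 : ∫ r : ℝ × ℝ, w (r.1 / 2 + r.2) * g r.1 ∂(GG.prod et) =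
      ∫ s, bf w s * g s ∂GG := by
    rw [integral_prod _ hwg]
    refine integral_congr_ae (Filter.Eventually.of_forall fun s => ?_)
    exact integral_mul_const (g s) _
  rw [← h1]
  exact h0

end Pool.Agent.Lib.MP_ec2ab1_pr_h25b
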