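import Mathlib
import Pool.Agent.Lib.MP_ec2ab1_pr_h25b.Key

set_option autoImplicit false

/-!
# From the pointwise inequality to the inequality of the relative entropies
-/

namespace Pool.Agent.Lib.MP_ec2ab1_pr_h25b

open MeasureTheory ProbabilityTheory

section

variable {p : ℝ → ℝ} {M : ℝ}

private theorem abs_p_le (h0 : ∀ x, 0 ≤ p x) (hpM : ∀ x, p x ≤ M) (x : ℝ) : |p x| ≤ M :=
  abs_le.2 ⟨by linarith [h0 x, hpM x, (h0 x).trans (hpM x)], hpM x⟩

private theorem abs_q_le (h0 : ∀ x, 0 ≤ p x) (hpM : ∀ x, p x ≤ M) (x : ℝ) :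
    |p x - 1| ≤ M + 1 :=
  abs_le.2 ⟨by linarith [h0 x, hpM x, (h0 x).trans (hpM x)], by linarith [hpM x]⟩

theorem bf_sub_one (hp : Measurable p) (h0 : ∀ x, 0 ≤ p x) (hpM : ∀ x, p x ≤ M) (s : ℝ) :
    bf (fun x => p x - 1) s = bf p s - 1 := by
  unfold bf
  have hm : Measurable (fun x => p (s / 2 + x)) := by fun_prop
  have hi : Integrable (fun x => p (s / 2 + x)) et :=
    integrable_bdd hm fun x => abs_p_le h0 hpM _
  rw [integral_sub hi (integrable_const _)]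
  simp

theorem bf_compl (hp : Measurable p) (h0 : ∀ x, 0 ≤ p x) (hpM : ∀ x, p x ≤ M) (s : ℝ) :
    bf (fun x => M - p x) s = M - bf p s := by
  unfold bf
  have hm : Measurable (fun x => p (s / 2 + x)) := by fun_prop
  have hi : Integrable (fun x => p (s / 2 + x)) et :=
    integrable_bdd hm fun x => abs_p_le h0 hpM _
  rw [integral_sub (integrable_const _) hi]
  simp

private theorem intp (hp : Measurable p) (h0 : ∀ x, 0 ≤ p x) (hpM : ∀ x, p x ≤ M) (s : ℝ) :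
    Integrable (fun x => p (s / 2 + x)) et ∧ Integrable (fun x => p (s / 2 - x)) et ∧
      Integrable (fun x => p (s / 2 + x) * p (s / 2 - x)) et := by
  have hm : Measurable (fun x => p (s / 2 + x)) := by fun_prop
  have hm' : Measurable (fun x => p (s / 2 - x)) := by fun_prop
  refine ⟨integrable_bdd hm fun x => abs_p_le h0 hpM _,
    integrable_bdd hm' fun x => abs_p_le h0 hpM _,
    integrable_bdd (hm.mul hm') (C := M * M) fun x => ?_⟩
  rw [abs_mul]
  exact mul_le_mul (abs_p_le h0 hpM _) (abs_p_le h0 hpM _) (abs_nonneg _)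
    ((h0 0).trans (hpM 0))

theorem kf_sub_one (hp : Measurable p) (h0 : ∀ x, 0 ≤ p x) (hpM : ∀ x, p x ≤ M) (s : ℝ) :
    kf (fun x => p x - 1) s = kf p s - 2 * bf p s + 1 := by
  obtain ⟨i1, i2, i3⟩ := intp hp h0 hpM s
  have hb := bf_neg hp s
  unfold kf
  have e : ∀ x, (p (s / 2 + x) - 1) * (p (s / 2 - x) - 1) =
      p (s / 2 + x) * p (s / 2 - x) - (p (s / 2 + x) + p (s / 2 - x)) + 1 := fun x => by ring
  simp_rw [e]
  have i4 : Integrable (fun x => p (s / 2 + x) + p (s / 2 - x)) et := i1.add i2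
  have i5 : Integrable (fun x => p (s / 2 + x) * p (s / 2 - x) -
    (p (s / 2 + x) + p (s / 2 - x))) et := i3.sub i4
  rw [integral_add i5 (integrable_const _), integral_sub i3 i4, integral_add i1 i2, hb]
  simp only [integral_const, probReal_univ, smul_eq_mul, mul_one]
  unfold bf
  ring

theorem bf_nonneg (h0 : ∀ x, 0 ≤ p x) (s : ℝ) : 0 ≤ bf p s := integral_nonneg fun _ => h0 _

theorem kf_nonneg (h0 : ∀ x, 0 ≤ p x) (s : ℝ) : 0 ≤ kf p s :=
  integral_nonneg fun _ => mul_nonneg (h0 _) (h0 _)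

theorem bf_le (hp : Measurable p) (h0 : ∀ x, 0 ≤ p x) (hpM : ∀ x, p x ≤ M) (s : ℝ) :
    bf p s ≤ M := by
  have h : 0 ≤ bf (fun x => M - p x) s := bf_nonneg (fun x => sub_nonneg.2 (hpM x)) s
  rw [bf_compl hp h0 hpM] at h
  linarith

theorem kf_le (hp : Measurable p) (h0 : ∀ x, 0 ≤ p x) (hpM : ∀ x, p x ≤ M) (s : ℝ) :
    kf p s ≤ M * bf p s := by
  obtain ⟨i1, i2, i3⟩ := intp hp h0 hpM s
  have hb := bf_neg hp s
  rw [← hb, ← integral_const_mul]
  unfold kf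
  exact integral_mono i3 (i2.const_mul M) fun x => mul_le_mul_of_nonneg_right (hpM _) (h0 _)

theorem kf_ge (hp : Measurable p) (h0 : ∀ x, 0 ≤ p x) (hpM : ∀ x, p x ≤ M) (s : ℝ) :
    2 * M * bf p s - M ^ 2 ≤ kf p s := by
  obtain ⟨i1, i2, i3⟩ := intp hp h0 hpM s
  have hb := bf_neg hp s
  have h : 0 ≤ ∫ x, (M - p (s / 2 + x)) * (M - p (s / 2 - x)) ∂et :=
    integral_nonneg fun x => mul_nonneg (sub_nonneg.2 (hpM _)) (sub_nonneg.2 (hpM _))
  have e : ∀ x, (M - p (s / 2 + x)) * (M - p (s / 2 - x)) =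
      p (s / 2 + x) * p (s / 2 - x) - M * (p (s / 2 + x) + p (s / 2 - x)) + M ^ 2 :=
    fun x => by ring
  simp_rw [e] at h
  have i4 : Integrable (fun x => M * (p (s / 2 + x) + p (s / 2 - x))) et := (i1.add i2).const_mul M
  have i5 : Integrable (fun x => p (s / 2 + x) * p (s / 2 - x) -
    M * (p (s / 2 + x) + p (s / 2 - x))) et := i3.sub i4
  rw [integral_add i5 (integrable_const _), integral_sub i3 i4, integral_const_mul,
    integral_add i1 i2, hb] at h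
  simp only [integral_const, probReal_univ, smul_eq_mul, mul_one, one_mul] at h
  have h1 : ∫ x, p (s / 2 + x) ∂et = bf p s := rfl
  have h2 : ∫ x, p (s / 2 + x) * p (s / 2 - x) ∂et = kf p s := rfl
  rw [h1, h2] at h
  linarith

/-- `∫ k dG = (∫ q dγ)²` -/
theorem int_kf {q : ℝ → ℝ} (hq : Measurable q) {C : ℝ} (hC : ∀ x, |q x| ≤ C) :
    ∫ s, kf q s ∂GG = (∫ x, q x ∂ga) * ∫ x, q x ∂ga := by
  have hC0 : 0 ≤ C := (abs_nonneg _).trans (hC 0)
  have hm : Measurable (fun r : ℝ × ℝ => q (r.1 / 2 + r.2) * q (r.1 / 2 - r.2)) := by fun_prop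
  have hi : Integrable (fun r : ℝ × ℝ => q (r.1 / 2 + r.2) * q (r.1 / 2 - r.2)) (GG.prod et) := by
    refine integrable_bdd hm (C := C * C) fun r => ?_
    rw [abs_mul]
    exact mul_le_mul (hC _) (hC _) (abs_nonneg _) hC0
  have h1 := integral_prod _ hi
  have hm2 : Measurable (fun z : ℝ × ℝ => q z.1 * q z.2) := by fun_prop
  have h2 : ∫ r : ℝ × ℝ, q (r.1 / 2 + r.2) * q (r.1 / 2 - r.2) ∂(GG.prod et) =
      ∫ z : ℝ × ℝ, q z.1 * q z.2 ∂(ga.prod ga) := by
    rw [← map_GG, integral_map (by fun_prop) hm2.aestronglyMeasurable]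
  rw [h2, integral_prod_mul] at h1
  rw [h1]
  rfl

/-- `∫ b dG = ∫ q dγ` -/
theorem int_bf {q : ℝ → ℝ} (hq : Measurable q) {C : ℝ} (hC : ∀ x, |q x| ≤ C) :
    ∫ s, bf q s ∂GG = ∫ x, q x ∂ga := by
  have hm : Measurable (fun r : ℝ × ℝ => q (r.1 / 2 + r.2)) := by fun_prop
  have hi : Integrable (fun r : ℝ × ℝ => q (r.1 / 2 + r.2)) (GG.prod et) :=
    integrable_bdd hm fun r => hC _
  have h1 := integral_prod _ hi
  have hm2 : Measurable (fun z : ℝ × ℝ => q z.1) := by fun_prop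
  have h2 : ∫ r : ℝ × ℝ, q (r.1 / 2 + r.2) ∂(GG.prod et) =
      ∫ z : ℝ × ℝ, q z.1 ∂(ga.prod ga) := by
    rw [← map_GG, integral_map (by fun_prop) hm2.aestronglyMeasurable]
  have hi2 : Integrable (fun z : ℝ × ℝ => q z.1) (ga.prod ga) :=
    integrable_bdd hm2 fun r => hC _
  have h3 := integral_prod _ hi2
  rw [h2, h3] at h1
  simp only [integral_const, probReal_univ, smul_eq_mul, one_mul] at h1
  rw [h1]
  rfl

theorem fe_bdd (K : ℝ) : ∃ L, ∀ x, 0 ≤ x → x ≤ K → |x * Real.log x - x + 1| ≤ L := by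
  have hc : Continuous (fun x : ℝ => x * Real.log x - x + 1) :=
    (Real.continuous_mul_log.sub continuous_id).add continuous_const
  obtain ⟨L, hL⟩ := (isCompact_Icc (a := (0 : ℝ)) (b := K)).exists_bound_of_continuousOn
    hc.continuousOn
  exact ⟨L, fun x h0 hK => hL x ⟨h0, hK⟩⟩

theorem measurable_fe : Measurable (fun x : ℝ => x * Real.log x - x + 1) :=
  ((Real.continuous_mul_log.sub continuous_id).add continuous_const).measurable

/-- **The comparison of the relative entropies**, from a pointwise inequality. -/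
theorem fe_ineq (hp : Measurable p) (hM : 0 < M) (h0 : ∀ x, 0 ≤ p x) (hpM : ∀ x, p x ≤ M)
    (h1 : ∫ x, p x ∂ga = 1) {a0 b0 c0 a1 b1 c1 : ℝ} (ha0 : 0 ≤ a0) (hc0 : 0 ≤ c0)
    (hb0 : b0 ^ 2 ≤ a0 * c0) (ha1 : 0 ≤ a1) (hc1 : 0 ≤ c1) (hb1 : b1 ^ 2 ≤ a1 * c1)
    (hPW : ∀ u v : ℝ, 0 ≤ v → v ≤ M → 0 ≤ u → 2 * M * v - M ^ 2 ≤ u → u ≤ M * v →
      2 * (((M - v) * a0 + v * a1) / M) * (v - 1) ^ 2 + (2 * ((a1 - a0) / M) +
        4 * (((M - v) * b0 + v * b1) / M)) * (v - 1) * (u - 2 * v + 1) +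
        (((M - v) * c0 + v * c1) / M) * (u - 2 * v + 1) ^ 2 ≤
        (u * Real.log u - u + 1) - (v * Real.log v - v + 1)) :
    Integrable (fun s => kf p s * Real.log (kf p s) - kf p s + 1) GG ∧
    Integrable (fun s => bf p s * Real.log (bf p s) - bf p s + 1) GG ∧
    ∫ s, (bf p s * Real.log (bf p s) - bf p s + 1) ∂GG ≤
      ∫ s, (kf p s * Real.log (kf p s) - kf p s + 1) ∂GG := by
  have hbm := measurable_bf hp
  have hkm := measurable_kf hp
  obtain ⟨L1, hL1⟩ := fe_bdd M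
  obtain ⟨L2, hL2⟩ := fe_bdd (M * M)
  have hkb : ∀ s, kf p s ≤ M * M := fun s =>
    (kf_le hp h0 hpM s).trans (mul_le_mul_of_nonneg_left (bf_le hp h0 hpM s) hM.le)
  have I1 : Integrable (fun s => kf p s * Real.log (kf p s) - kf p s + 1) GG :=
    integrable_bdd (measurable_fe.comp hkm) fun s => hL2 _ (kf_nonneg h0 s) (hkb s)
  have I2 : Integrable (fun s => bf p s * Real.log (bf p s) - bf p s + 1) GG :=
    integrable_bdd (measurable_fe.comp hbm) fun s => hL1 _ (bf_nonneg h0 s) (bf_le hp h0 hpM s)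
  refine ⟨I1, I2, ?_⟩
  -- the two quadratic inequalities
  have hq : Measurable (fun x => p x - 1) := by fun_prop
  have hw : Measurable (fun x => M - p x) := by fun_prop
  have hqb : ∀ x, |p x - 1| ≤ M + 1 := abs_q_le h0 hpM
  have hpb : ∀ x, |p x| ≤ M := abs_p_le h0 hpM
  have hwb : ∀ x, |M - p x| ≤ M := fun x =>
    abs_le.2 ⟨by linarith [hpM x], by linarith [h0 x]⟩
  have K1 := key hq hp hqb hpb h0 ha1 hc1 hb1
  have K0 := key hq hw hqb hwb (fun x => sub_nonneg.2 (hpM x)) ha0 hc0 hb0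
  simp only [bf_sub_one hp h0 hpM, kf_sub_one hp h0 hpM, bf_compl hp h0 hpM] at K0 K1
  -- the integral of `k` vanishes
  have K2 : ∫ s, (kf p s - 2 * bf p s + 1) ∂GG = 0 := by
    have h := int_kf hq hqb
    have h2 : ∫ x, (p x - 1) ∂ga = 0 := by
      rw [integral_sub (integrable_bdd hp hpb) (integrable_const _), h1]
      simp
    simp only [kf_sub_one hp h0 hpM] at h
    rw [h, h2, mul_zero]
  -- boundedness of polynomials in `b`, `k`
  have bnd : ∀ F : ℝ × ℝ → ℝ, Continuous F → Integrable (fun s => F (bf p s, kf p s)) GG := by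
    intro F hF
    obtain ⟨L, hL⟩ := ((isCompact_Icc (a := (0 : ℝ)) (b := M)).prod
      (isCompact_Icc (a := (0 : ℝ)) (b := M * M))).exists_bound_of_continuousOn hF.continuousOn
    refine integrable_bdd (hF.measurable.comp (hbm.prodMk hkm)) fun s => hL (bf p s, kf p s) ?_
    exact ⟨⟨bf_nonneg h0 s, bf_le hp h0 hpM s⟩, ⟨kf_nonneg h0 s, hkb s⟩⟩
  have J1 := bnd (fun z => z.1 * (a1 * (2 * (z.1 - 1) ^ 2 + 2 * (z.2 - 2 * z.1 + 1)) +
    4 * b1 * (z.1 - 1) * (z.2 - 2 * z.1 + 1) + c1 * (z.2 - 2 * z.1 + 1) ^ 2)) (by fun_prop)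
  have J0 := bnd (fun z => (M - z.1) * (a0 * (2 * (z.1 - 1) ^ 2 + 2 * (z.2 - 2 * z.1 + 1)) +
    4 * b0 * (z.1 - 1) * (z.2 - 2 * z.1 + 1) + c0 * (z.2 - 2 * z.1 + 1) ^ 2)) (by fun_prop)
  have J2 := bnd (fun z => z.2 - 2 * z.1 + 1) (by fun_prop)
  have J3 := bnd (fun z => 2 * (((M - z.1) * a0 + z.1 * a1) / M) * (z.1 - 1) ^ 2 +
    (2 * ((a1 - a0) / M) + 4 * (((M - z.1) * b0 + z.1 * b1) / M)) * (z.1 - 1) *
      (z.2 - 2 * z.1 + 1) + (((M - z.1) * c0 + z.1 * c1) / M) * (z.2 - 2 * z.1 + 1) ^ 2)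
    (by fun_prop)
  simp only at J0 J1 J2 J3
  have S1 : ∫ s, (2 * (((M - bf p s) * a0 + bf p s * a1) / M) * (bf p s - 1) ^ 2 +
    (2 * ((a1 - a0) / M) + 4 * (((M - bf p s) * b0 + bf p s * b1) / M)) * (bf p s - 1) *
      (kf p s - 2 * bf p s + 1) + (((M - bf p s) * c0 + bf p s * c1) / M) *
      (kf p s - 2 * bf p s + 1) ^ 2) ∂GG ≤
      ∫ s, ((kf p s * Real.log (kf p s) - kf p s + 1) -
        (bf p s * Real.log (bf p s) - bf p s + 1)) ∂GG := by
    refine integral_mono J3 (I1.sub I2) fun s => ?_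
    exact hPW (kf p s) (bf p s) (bf_nonneg h0 s) (bf_le hp h0 hpM s) (kf_nonneg h0 s)
      (kf_ge hp h0 hpM s) (kf_le hp h0 hpM s)
  rw [integral_sub I1 I2] at S1
  -- the integral of the quadratic expression is nonnegative
  have S2 : (∫ s, (2 * (((M - bf p s) * a0 + bf p s * a1) / M) * (bf p s - 1) ^ 2 +
    (2 * ((a1 - a0) / M) + 4 * (((M - bf p s) * b0 + bf p s * b1) / M)) * (bf p s - 1) *
      (kf p s - 2 * bf p s + 1) + (((M - bf p s) * c0 + bf p s * c1) / M) *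
      (kf p s - 2 * bf p s + 1) ^ 2) ∂GG) * M +
      (2 * ((M - 1) * a0 + a1)) * ∫ s, (kf p s - 2 * bf p s + 1) ∂GG =
      (∫ s, (bf p s * (a1 * (2 * (bf p s - 1) ^ 2 + 2 * (kf p s - 2 * bf p s + 1)) +
        4 * b1 * (bf p s - 1) * (kf p s - 2 * bf p s + 1) +
        c1 * (kf p s - 2 * bf p s + 1) ^ 2)) ∂GG) +
      ∫ s, ((M - bf p s) * (a0 * (2 * (bf p s - 1) ^ 2 + 2 * (kf p s - 2 * bf p s + 1)) +
        4 * b0 * (bf p s - 1) * (kf p s - 2 * bf p s + 1) +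
        c0 * (kf p s - 2 * bf p s + 1) ^ 2)) ∂GG := by
    rw [← integral_add J1 J0, ← integral_mul_const, ← integral_const_mul,
      ← integral_add (J3.mul_const M) (J2.const_mul _)]
    refine integral_congr_ae (Filter.Eventually.of_forall fun s => ?_)
    beta_reduce
    field_simp
    ring
  rw [K2, mul_zero, add_zero] at S2
  have S3 := add_nonneg K1 K0
  have S4 : 0 ≤ (∫ s, (2 * (((M - bf p s) * a0 + bf p s * a1) / M) * (bf p s - 1) ^ 2 +
    (2 * ((a1 - a0) / M) + 4 * (((M - bf p s) * b0 + bf p s * b1) / M)) * (bf p s - 1) *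
      (kf p s - 2 * bf p s + 1) + (((M - bf p s) * c0 + bf p s * c1) / M) *
      (kf p s - 2 * bf p s + 1) ^ 2) ∂GG) * M := by
    rw [S2]
    exact S3
  have S5 := nonneg_of_mul_nonneg_left S4 hM
  linarith

end

end Pool.Agent.Lib.MP_ec2ab1_pr_h25b
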