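import Mathlib
import Pool.Agent.Lib.MP_ec2ab1_pr_h25b.Quad

set_option autoImplicit false

/-!
# Densities and entropies
-/

namespace Pool.Agent.Lib.MP_ec2ab1_pr_h25b

open MeasureTheory ProbabilityTheory
open scoped ENNReal NNReal

/-- density (with respect to `N(0,2)`) of the sum of two independent variables with
densities `p`, `r` with respect to `N(0,1)` -/
theorem conv_density {p r : ℝ → ℝ} (hp : Measurable p) (hr : Measurable r) {M : ℝ}
    (h0 : ∀ x, 0 ≤ p x) (hpM : ∀ x, p x ≤ M) (h0' : ∀ x, 0 ≤ r x) (hrM : ∀ x, r x ≤ M) :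
    ((ga.withDensity (fun x => ENNReal.ofReal (p x))).prod
      (ga.withDensity (fun x => ENNReal.ofReal (r x)))).map (fun z : ℝ × ℝ => z.1 + z.2) =
      GG.withDensity (fun s => ENNReal.ofReal (∫ x, p (s / 2 + x) * r (s / 2 - x) ∂et)) := by
  rw [prod_withDensity (by fun_prop) (by fun_prop)]
  ext A hA
  have hadd : Measurable (fun z : ℝ × ℝ => z.1 + z.2) := by fun_prop
  have hpre : MeasurableSet ((fun z : ℝ × ℝ => z.1 + z.2) ⁻¹' A) := hadd hA
  rw [Measure.map_apply hadd hA, withDensity_apply _ hpre, withDensity_apply _ hA,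
    ← lintegral_indicator hpre, ← lintegral_indicator hA]
  have hF : Measurable (fun z : ℝ × ℝ => ENNReal.ofReal (p z.1) * ENNReal.ofReal (r z.2)) := by
    fun_prop
  have hind := hF.indicator hpre
  rw [← map_GG, lintegral_map hind (by fun_prop)]
  have hmap : Measurable (fun z : ℝ × ℝ => (z.1 / 2 + z.2, z.1 / 2 - z.2)) := by fun_prop
  have hcomp : Measurable (fun z : ℝ × ℝ => Set.indicator ((fun z : ℝ × ℝ => z.1 + z.2) ⁻¹' A)
      (fun z : ℝ × ℝ => ENNReal.ofReal (p z.1) * ENNReal.ofReal (r z.2))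
      (z.1 / 2 + z.2, z.1 / 2 - z.2)) := hind.comp hmap
  rw [lintegral_prod _ hcomp.aemeasurable]
  refine lintegral_congr fun s => ?_
  by_cases hs : s ∈ A
  · rw [Set.indicator_of_mem hs]
    have hM0 : 0 ≤ M := (h0 0).trans (hpM 0)
    have hm : Measurable (fun x => p (s / 2 + x) * r (s / 2 - x)) := by fun_prop
    have hi : Integrable (fun x => p (s / 2 + x) * r (s / 2 - x)) et := by
      refine integrable_bdd hm (C := M * M) fun x => ?_
      rw [abs_mul, abs_of_nonneg (h0 _), abs_of_nonneg (h0' _)]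
      exact mul_le_mul (hpM _) (hrM _) (h0' _) hM0
    rw [ofReal_integral_eq_lintegral_ofReal hi
      (Filter.Eventually.of_forall fun x => mul_nonneg (h0 _) (h0' _))]
    refine lintegral_congr fun x => ?_
    have hmem : (s / 2 + x, s / 2 - x) ∈ (fun z : ℝ × ℝ => z.1 + z.2) ⁻¹' A := by
      have e : s / 2 + x + (s / 2 - x) = s := by ring
      simpa [Set.mem_preimage, e] using hs
    change Set.indicator _ _ (s / 2 + x, s / 2 - x) = _
    rw [Set.indicator_of_mem hmem, ENNReal.ofReal_mul (h0 _)]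
  · rw [Set.indicator_of_notMem hs]
    refine (lintegral_congr (g := fun _ => 0) fun x => ?_).trans lintegral_zero
    have hmem : (s / 2 + x, s / 2 - x) ∉ (fun z : ℝ × ℝ => z.1 + z.2) ⁻¹' A := by
      have e : s / 2 + x + (s / 2 - x) = s := by ring
      simpa [Set.mem_preimage, e] using hs
    change Set.indicator _ _ (s / 2 + x, s / 2 - x) = _
    rw [Set.indicator_of_notMem hmem]

/-- second moment of a sum of two independent centred variables of variance one -/
theorem second_moment {μ ν : Measure ℝ} [IsProbabilityMeasure μ] [IsProbabilityMeasure ν]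
    (hμ : MemLp (fun x : ℝ => x) 2 μ) (hν : MemLp (fun x : ℝ => x) 2 ν)
    (m1 : ∫ x, x ∂μ = 0) (m2 : ∫ x, x ^ 2 ∂μ = 1) (n2 : ∫ x, x ^ 2 ∂ν = 1) :
    ∫ s, s ^ 2 ∂((μ.prod ν).map (fun z : ℝ × ℝ => z.1 + z.2)) = 2 := by
  have hadd : Measurable (fun z : ℝ × ℝ => z.1 + z.2) := by fun_prop
  have hsq : Measurable (fun s : ℝ => s ^ 2) := by fun_prop
  rw [integral_map hadd.aemeasurable hsq.aestronglyMeasurable]
  have iμ1 : Integrable (fun x : ℝ => x) μ := hμ.integrable (by norm_num)
  have iν1 : Integrable (fun x : ℝ => x) ν := hν.integrable (by norm_num)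
  have iμ2 : Integrable (fun x : ℝ => x ^ 2) μ := hμ.integrable_sq
  have iν2 : Integrable (fun x : ℝ => x ^ 2) ν := hν.integrable_sq
  have e : ∀ z : ℝ × ℝ, (z.1 + z.2) ^ 2 = z.1 ^ 2 * 1 + (2 * (z.1 * z.2) + 1 * z.2 ^ 2) :=
    fun z => by ring
  simp_rw [e]
  have j1 : Integrable (fun z : ℝ × ℝ => z.1 ^ 2 * 1) (μ.prod ν) :=
    iμ2.mul_prod (integrable_const (1 : ℝ))
  have j2 : Integrable (fun z : ℝ × ℝ => 2 * (z.1 * z.2)) (μ.prod ν) :=
    (iμ1.mul_prod iν1).const_mul 2
  have j3 : Integrable (fun z : ℝ × ℝ => 1 * z.2 ^ 2) (μ.prod ν) :=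
    (integrable_const (1 : ℝ)).mul_prod iν2
  have j23 : Integrable (fun z : ℝ × ℝ => 2 * (z.1 * z.2) + 1 * z.2 ^ 2) (μ.prod ν) := j2.add j3
  rw [integral_add j1 j23, integral_add j2 j3, integral_const_mul]
  have k1 := integral_prod_mul (μ := μ) (ν := ν) (fun x : ℝ => x ^ 2) (fun _ : ℝ => (1 : ℝ))
  have k2 := integral_prod_mul (μ := μ) (ν := ν) (fun x : ℝ => x) (fun x : ℝ => x)
  have k3 := integral_prod_mul (μ := μ) (ν := ν) (fun _ : ℝ => (1 : ℝ)) (fun x : ℝ => x ^ 2)
  rw [k1, k2, k3, m1, m2, n2]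
  simp
  norm_num

/-- the entropy of a law with bounded density with respect to `N(0,2)` and second moment two -/
theorem ent_GG {u : ℝ → ℝ} (hu : Measurable u) {K : ℝ} (h0 : ∀ s, 0 ≤ u s)
    (hK : ∀ s, u s ≤ K) (h1 : ∫ s, u s ∂GG = 1)
    (h2 : ∫ s, s ^ 2 ∂(GG.withDensity (fun s => ENNReal.ofReal (u s))) = 2) :
    Integrable (fun s => (gaussianPDFReal 0 2 s * u s) *
      Real.log (gaussianPDFReal 0 2 s * u s)) volume ∧
    ∫ s, (gaussianPDFReal 0 2 s * u s) * Real.log (gaussianPDFReal 0 2 s * u s) =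
      ∫ s, (u s * Real.log (u s) - u s + 1) ∂GG -
        (Real.log (Real.sqrt (2 * Real.pi * 2)) + 1 / 2) := by
  have hpos : 0 < Real.sqrt (2 * Real.pi * 2) := Real.sqrt_pos.2 (by positivity)
  -- pointwise identity
  have hid : ∀ s, gaussianPDFReal 0 2 s * ((u s * Real.log (u s) - u s + 1) +
      (u s * (1 - Real.log (Real.sqrt (2 * Real.pi * 2))) - 1) - (1 / 4) * (u s * s ^ 2)) =
      (gaussianPDFReal 0 2 s * u s) * Real.log (gaussianPDFReal 0 2 s * u s) := by
    intro s
    rcases (h0 s).eq_or_lt with h | h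
    · rw [← h]
      simp
    · have hg : 0 < gaussianPDFReal 0 2 s := gaussianPDFReal_pos _ _ _ (by norm_num)
      rw [Real.log_mul hg.ne' h.ne']
      have hlog : Real.log (gaussianPDFReal 0 2 s) =
          -Real.log (Real.sqrt (2 * Real.pi * 2)) - s ^ 2 / 4 := by
        unfold gaussianPDFReal
        rw [Real.log_mul (by simpa using hpos.ne') (Real.exp_pos _).ne', Real.log_exp,
          Real.log_inv]
        simp
        ring
      rw [hlog]
      ring
  -- integrability with respect to `GG`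
  have hub : ∀ s, |u s| ≤ K := fun s => by
    rw [abs_of_nonneg (h0 s)]
    exact hK s
  obtain ⟨L, hL⟩ := fe_bdd K
  have i1 : Integrable (fun s => u s * Real.log (u s) - u s + 1) GG :=
    integrable_bdd (measurable_fe.comp hu) fun s => hL _ (h0 s) (hK s)
  have iu : Integrable u GG := integrable_bdd hu hub
  have i2 : Integrable (fun s => u s * (1 - Real.log (Real.sqrt (2 * Real.pi * 2))) - 1) GG :=
    (iu.mul_const _).sub (integrable_const _)
  have isq : Integrable (fun s : ℝ => s ^ 2) GG := (memLp_id_gaussianReal 2).integrable_sq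
  have i3 : Integrable (fun s => u s * s ^ 2) GG := by
    refine (isq.const_mul K).mono' (by fun_prop) (Filter.Eventually.of_forall fun s => ?_)
    rw [Real.norm_eq_abs, abs_mul, abs_of_nonneg (sq_nonneg s)]
    exact mul_le_mul_of_nonneg_right (hub s) (sq_nonneg s)
  have i4 : Integrable (fun s => (1 / 4) * (u s * s ^ 2)) GG := i3.const_mul _
  have i12 : Integrable (fun s => (u s * Real.log (u s) - u s + 1) +
      (u s * (1 - Real.log (Real.sqrt (2 * Real.pi * 2))) - 1)) GG := i1.add i2
  have i124 : Integrable (fun s => (u s * Real.log (u s) - u s + 1) +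
      (u s * (1 - Real.log (Real.sqrt (2 * Real.pi * 2))) - 1) - (1 / 4) * (u s * s ^ 2)) GG :=
    i12.sub i4
  constructor
  · have h := i124
    change Integrable _ (gaussianReal 0 2) at h
    rw [gaussianReal_of_var_ne_zero 0 (by norm_num : (2 : ℝ≥0) ≠ 0),
      integrable_withDensity_iff_integrable_smul' (measurable_gaussianPDF _ _)
      (Filter.Eventually.of_forall fun _ => gaussianPDF_lt_top)] at h
    refine h.congr (Filter.Eventually.of_forall fun s => ?_)
    simp only [toReal_gaussianPDF, smul_eq_mul]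
    exact hid s
  · have h := integral_gaussianReal_eq_integral_smul (μ := 0) (v := 2)
      (f := fun s => (u s * Real.log (u s) - u s + 1) +
      (u s * (1 - Real.log (Real.sqrt (2 * Real.pi * 2))) - 1) - (1 / 4) * (u s * s ^ 2))
      (by norm_num)
    simp only [smul_eq_mul] at h
    have h' : ∫ s, (gaussianPDFReal 0 2 s * u s) * Real.log (gaussianPDFReal 0 2 s * u s) =
        ∫ s, gaussianPDFReal 0 2 s * ((u s * Real.log (u s) - u s + 1) +
      (u s * (1 - Real.log (Real.sqrt (2 * Real.pi * 2))) - 1) - (1 / 4) * (u s * s ^ 2)) :=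
      integral_congr_ae (Filter.Eventually.of_forall fun s => (hid s).symm)
    rw [h', ← h]
    have hm2 : ∫ s, u s * s ^ 2 ∂GG = 2 := by
      rw [integral_withDensity_eq_integral_toReal_smul (by fun_prop)
        (Filter.Eventually.of_forall fun _ => ENNReal.ofReal_lt_top)] at h2
      rw [← h2]
      refine integral_congr_ae (Filter.Eventually.of_forall fun s => ?_)
      simp only [smul_eq_mul, ENNReal.toReal_ofReal (h0 s)]
    have e1 : ∫ s, (u s * (1 - Real.log (Real.sqrt (2 * Real.pi * 2))) - 1) ∂GG =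
        -Real.log (Real.sqrt (2 * Real.pi * 2)) := by
      rw [integral_sub (iu.mul_const _) (integrable_const _), integral_mul_const, h1]
      simp
    rw [integral_sub i12 i4, integral_add i1 i2, e1, integral_const_mul, hm2]
    ring

/-- entropy of a translate -/
theorem ent_shift {ν : Measure ℝ} {F : ℝ → ℝ} (hF : Measurable F) (h0 : ∀ s, 0 ≤ F s)
    (c : ℝ) (hν : ν = (volume.withDensity (fun s => ENNReal.ofReal (F s))).map (fun s => s + c))
    (hi : Integrable (fun s => F s * Real.log (F s)) volume) :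
    ν ≪ volume ∧ Integrable (fun x => (ν.rnDeriv volume x).toReal *
      Real.log (ν.rnDeriv volume x).toReal) volume ∧
    ∫ x, (ν.rnDeriv volume x).toReal * Real.log (ν.rnDeriv volume x).toReal =
      ∫ s, F s * Real.log (F s) := by
  have hd : ν = volume.withDensity (fun s => ENNReal.ofReal (F (s - c))) := by
    rw [hν]
    ext A hA
    have hadd : Measurable (fun s : ℝ => s + c) := by fun_prop
    rw [Measure.map_apply hadd hA, withDensity_apply _ (hadd hA), withDensity_apply _ hA,
      ← lintegral_indicator (hadd hA), ← lintegral_indicator hA,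
      ← lintegral_add_right_eq_self (A.indicator fun a => ENNReal.ofReal (F (a - c))) c]
    refine lintegral_congr fun s => ?_
    by_cases hs : s + c ∈ A
    · rw [Set.indicator_of_mem hs, Set.indicator_of_mem (show s ∈ (fun s => s + c) ⁻¹' A from hs),
        add_sub_cancel_right]
    · rw [Set.indicator_of_notMem hs,
        Set.indicator_of_notMem (show s ∉ (fun s => s + c) ⁻¹' A from hs)]
  have hFc : Measurable (fun s => ENNReal.ofReal (F (s - c))) := by fun_prop
  have hr : ν.rnDeriv volume =ᵐ[volume] fun s => ENNReal.ofReal (F (s - c)) := by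
    rw [hd]
    exact Measure.rnDeriv_withDensity _ hFc
  have hc : (fun x => (ν.rnDeriv volume x).toReal * Real.log (ν.rnDeriv volume x).toReal)
      =ᵐ[volume] fun x => F (x - c) * Real.log (F (x - c)) := by
    filter_upwards [hr] with x hx
    rw [hx, ENNReal.toReal_ofReal (h0 _)]
  refine ⟨?_, ?_, ?_⟩
  · rw [hd]
    exact withDensity_absolutelyContinuous _ _
  · exact (hi.comp_sub_right c).congr hc.symm
  · rw [integral_congr_ae hc]
    exact integral_sub_right_eq_self (fun x => F x * Real.log (F x)) c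

end Pool.Agent.Lib.MP_ec2ab1_pr_h25b
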