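import Mathlib
import Pool.Agent.Lib.MP_ec2ab1_pr_h25b.Ent

set_option autoImplicit false

/-!
# The entropy inequality, from a pointwise inequality
-/

namespace Pool.Agent.Lib.MP_ec2ab1_pr_h25b

open MeasureTheory ProbabilityTheory
open scoped ENNReal NNReal

/-- a law dominated by `M` times the standard normal law has a density between `0` and `M` -/
theorem exists_density {μ : Measure ℝ} [IsProbabilityMeasure μ] {M : ℝ} (hM : 0 < M)
    (h : μ ≤ ENNReal.ofReal M • ga) :
    ∃ p : ℝ → ℝ, Measurable p ∧ (∀ x, 0 ≤ p x) ∧ (∀ x, p x ≤ M) ∧ ∫ x, p x ∂ga = 1 ∧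
      μ = ga.withDensity (fun x => ENNReal.ofReal (p x)) := by
  have hac : μ ≪ ga := Measure.absolutelyContinuous_of_le_smul h
  have hwd := Measure.withDensity_rnDeriv_eq _ _ hac
  have hle : μ.rnDeriv ga ≤ᵐ[ga] fun _ => ENNReal.ofReal M := by
    refine ae_le_of_forall_setLIntegral_le_of_sigmaFinite (Measure.measurable_rnDeriv _ _)
      fun s hs _ => ?_
    rw [setLIntegral_const, ← withDensity_apply _ hs, hwd]
    exact h s
  refine ⟨fun x => min (μ.rnDeriv ga x).toReal M,
    (Measure.measurable_rnDeriv _ _).ennreal_toReal.min measurable_const,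
    fun x => le_min ENNReal.toReal_nonneg hM.le, fun x => min_le_right _ _, ?_, ?_⟩
  swap
  · rw [← hwd]
    refine withDensity_congr_ae ?_
    filter_upwards [hle] with x hx
    have hfin : μ.rnDeriv ga x ≠ ∞ := (hx.trans_lt ENNReal.ofReal_lt_top).ne
    have hx' : (μ.rnDeriv ga x).toReal ≤ M := ENNReal.toReal_le_of_le_ofReal hM.le hx
    rw [hwd, min_eq_left hx', ENNReal.ofReal_toReal hfin]
  · have h1 : ∫ x, min (μ.rnDeriv ga x).toReal M ∂ga = ∫ x, (μ.rnDeriv ga x).toReal ∂ga := by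
      refine integral_congr_ae ?_
      filter_upwards [hle] with x hx
      exact min_eq_left (ENNReal.toReal_le_of_le_ofReal hM.le hx)
    rw [h1, Measure.integral_toReal_rnDeriv hac]
    simp

theorem GG_withDensity {u : ℝ → ℝ} (hu : Measurable u) :
    GG.withDensity (fun s => ENNReal.ofReal (u s)) =
      volume.withDensity (fun s => ENNReal.ofReal (gaussianPDFReal 0 2 s * u s)) := by
  change (gaussianReal 0 2).withDensity _ = _
  rw [gaussianReal_of_var_ne_zero 0 (by norm_num : (2 : ℝ≥0) ≠ 0),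
    ← withDensity_mul _ (measurable_gaussianPDF _ _) hu.ennreal_ofReal]
  congr 1
  funext s
  rw [Pi.mul_apply, gaussianPDF, ENNReal.ofReal_mul (gaussianPDFReal_nonneg _ _ _)]

theorem conv_shift (μ ν : Measure ℝ) [IsProbabilityMeasure μ] [IsProbabilityMeasure ν] (m n : ℝ) :
    (μ.prod ν).map (fun z : ℝ × ℝ => z.1 + z.2) =
      (((μ.map (fun x => x - m)).prod (ν.map (fun x => x - n))).map
        (fun z : ℝ × ℝ => z.1 + z.2)).map (fun s => s + (m + n)) := by
  rw [Measure.map_prod_map _ _ (by fun_prop) (by fun_prop), Measure.map_map (by fun_prop)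
    (by fun_prop), Measure.map_map (by fun_prop) (by fun_prop)]
  congr 1
  funext z
  simp only [Function.comp, Prod.map]
  ring

theorem main_of_pointwise {M : ℝ} (hM : 0 < M) {a0 b0 c0 a1 b1 c1 : ℝ} (ha0 : 0 ≤ a0)
    (hc0 : 0 ≤ c0) (hb0 : b0 ^ 2 ≤ a0 * c0) (ha1 : 0 ≤ a1) (hc1 : 0 ≤ c1)
    (hb1 : b1 ^ 2 ≤ a1 * c1)
    (hPW : ∀ u v : ℝ, 0 ≤ v → v ≤ M → 0 ≤ u → 2 * M * v - M ^ 2 ≤ u → u ≤ M * v →
      2 * (((M - v) * a0 + v * a1) / M) * (v - 1) ^ 2 + (2 * ((a1 - a0) / M) +
        4 * (((M - v) * b0 + v * b1) / M)) * (v - 1) * (u - 2 * v + 1) +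
        (((M - v) * c0 + v * c1) / M) * (u - 2 * v + 1) ^ 2 ≤
        (u * Real.log u - u + 1) - (v * Real.log v - v + 1))
    (μ : Measure ℝ) [IsProbabilityMeasure μ] (hμ : MemLp (fun x : ℝ => x) 2 μ)
    (hvar : variance (fun x : ℝ => x) μ = 1)
    (hdom : μ.map (fun x => x - ∫ y, y ∂μ) ≤ ENNReal.ofReal M • gaussianReal 0 1) :
    (μ.prod μ).map (fun p : ℝ × ℝ => p.1 + p.2) ≪ volume ∧
    Integrable (fun x : ℝ =>
        (((μ.prod μ).map (fun p : ℝ × ℝ => p.1 + p.2)).rnDeriv volume x).toReal *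
          Real.log ((((μ.prod μ).map (fun p : ℝ × ℝ => p.1 + p.2)).rnDeriv volume x).toReal))
        volume ∧
    Integrable (fun x : ℝ =>
        (((μ.prod (gaussianReal 0 1)).map (fun p : ℝ × ℝ => p.1 + p.2)).rnDeriv volume x).toReal *
          Real.log ((((μ.prod (gaussianReal 0 1)).map
            (fun p : ℝ × ℝ => p.1 + p.2)).rnDeriv volume x).toReal))
        volume ∧
    -∫ x : ℝ,
        (((μ.prod μ).map (fun p : ℝ × ℝ => p.1 + p.2)).rnDeriv volume x).toReal *
          Real.log ((((μ.prod μ).map (fun p : ℝ × ℝ => p.1 + p.2)).rnDeriv volume x).toReal)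
      ≤
    -∫ x : ℝ,
        (((μ.prod (gaussianReal 0 1)).map (fun p : ℝ × ℝ => p.1 + p.2)).rnDeriv volume x).toReal *
          Real.log ((((μ.prod (gaussianReal 0 1)).map
            (fun p : ℝ × ℝ => p.1 + p.2)).rnDeriv volume x).toReal) := by
  set m : ℝ := ∫ y, y ∂μ with hm
  have hsub : Measurable (fun x : ℝ => x - m) := by fun_prop
  have : IsProbabilityMeasure (μ.map (fun x => x - m)) :=
    Measure.isProbabilityMeasure_map hsub.aemeasurable
  obtain ⟨p, hp, h0, hpM, h1, hd⟩ := exists_density hM hdom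
  -- `1 ≤ M`
  have hM1 : 1 ≤ M := by
    have h := integral_mono (μ := ga) (integrable_bdd hp fun x =>
      abs_le.2 ⟨by linarith [h0 x, hM], hpM x⟩) (integrable_const M) hpM
    rw [h1] at h
    simpa using h
  -- moments
  have hi1 : Integrable (fun x : ℝ => x) μ := hμ.integrable (by norm_num)
  have L0 : MemLp (fun x : ℝ => x) 2 (μ.map (fun x => x - m)) := by
    rw [memLp_map_measure_iff (by fun_prop) hsub.aemeasurable]
    exact hμ.sub (memLp_const m)
  have m1 : ∫ x, x ∂(μ.map (fun x => x - m)) = 0 := by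
    rw [integral_map hsub.aemeasurable (by fun_prop), integral_sub hi1 (integrable_const _), ← hm]
    simp
  have m2 : ∫ x, x ^ 2 ∂(μ.map (fun x => x - m)) = 1 := by
    rw [integral_map hsub.aemeasurable (by fun_prop)]
    rw [variance_eq_integral (by fun_prop)] at hvar
    exact hvar
  have Lg : MemLp (fun x : ℝ => x) 2 ga := memLp_id_gaussianReal 2
  have g2 : ∫ x, x ^ 2 ∂ga = 1 := by
    have h := variance_id_gaussianReal (μ := 0) (v := 1)
    rw [variance_eq_integral (by fun_prop)] at h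
    simpa [integral_id_gaussianReal] using h
  -- the two densities
  have hk : ((μ.map (fun x => x - m)).prod (μ.map (fun x => x - m))).map
      (fun z : ℝ × ℝ => z.1 + z.2) = GG.withDensity (fun s => ENNReal.ofReal (kf p s)) := by
    rw [hd]
    exact conv_density hp hp h0 hpM h0 hpM
  have hb : ((μ.map (fun x => x - m)).prod ga).map (fun z : ℝ × ℝ => z.1 + z.2) =
      GG.withDensity (fun s => ENNReal.ofReal (bf p s)) := by
    have hone : ga = ga.withDensity (fun _ => ENNReal.ofReal 1) := by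
      rw [ENNReal.ofReal_one]
      exact withDensity_one.symm
    rw [hd]
    conv_lhs => rw [show (ga.withDensity (fun x => ENNReal.ofReal (p x))).prod ga =
      (ga.withDensity (fun x => ENNReal.ofReal (p x))).prod
        (ga.withDensity (fun _ => ENNReal.ofReal 1)) by rw [← hone]]
    rw [conv_density hp measurable_const h0 hpM (fun _ => zero_le_one) (fun _ => hM1)]
    simp only [mul_one]
    rfl
  have hpb : ∀ x, |p x| ≤ M := fun x => abs_le.2 ⟨by linarith [h0 x, hM], hpM x⟩
  have hkm := measurable_kf hp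
  have hbm := measurable_bf hp
  have hkb : ∀ s, kf p s ≤ M * M := fun s =>
    (kf_le hp h0 hpM s).trans (mul_le_mul_of_nonneg_left (bf_le hp h0 hpM s) hM.le)
  have E1 := ent_GG hkm (kf_nonneg h0) hkb (by rw [int_kf hp hpb, h1, mul_one])
    (by rw [← hk]; exact second_moment L0 L0 m1 m2 m2)
  have E2 := ent_GG hbm (bf_nonneg h0) (bf_le hp h0 hpM) (by rw [int_bf hp hpb, h1])
    (by rw [← hb]; exact second_moment L0 Lg m1 m2 g2)
  have hgk : Measurable (fun s => gaussianPDFReal 0 2 s * kf p s) := by fun_prop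
  have hgb : Measurable (fun s => gaussianPDFReal 0 2 s * bf p s) := by fun_prop
  have T1 := ent_shift (ν := (μ.prod μ).map (fun p : ℝ × ℝ => p.1 + p.2)) hgk
    (fun s => mul_nonneg (gaussianPDFReal_nonneg _ _ _) (kf_nonneg h0 s)) (m + m)
    (by rw [conv_shift μ μ m m, hk, GG_withDensity hkm]) E1.1
  have hg0 : ga.map (fun x => x - 0) = ga := by
    simp
  have T2 := ent_shift (ν := (μ.prod (gaussianReal 0 1)).map (fun p : ℝ × ℝ => p.1 + p.2)) hgb
    (fun s => mul_nonneg (gaussianPDFReal_nonneg _ _ _) (bf_nonneg h0 s)) (m + 0)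
    (by rw [conv_shift μ (gaussianReal 0 1) m 0, hg0, hb, GG_withDensity hbm]) E2.1
  refine ⟨T1.1, T1.2.1, T2.2.1, ?_⟩
  rw [T1.2.2, T2.2.2, E1.2, E2.2]
  have F := (fe_ineq hp hM h0 hpM h1 ha0 hc0 hb0 ha1 hc1 hb1 hPW).2.2
  linarith

end Pool.Agent.Lib.MP_ec2ab1_pr_h25b
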