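import Mathlib

set_option autoImplicit false

/-!
# The pointwise inequality for `M = 13/4`

For `0 ≤ v ≤ 13/4`, `max 0 (2 M v - M ^ 2) ≤ u ≤ M v`, with `φ x = x log x - x + 1`,
`b = v - 1`, `k = u - 2 v + 1`: a quadratic form in `(b, k)` with coefficients affine in `v` is at most
`φ u - φ v`. The region is cut into cells; on each cell `φ u` is bounded from below and `φ v` from
above by a rational function, and the resulting polynomial has nonnegative Bernstein coefficients.
-/

namespace Pool.Agent.Lib.MP_ec2ab1_pr_h25b.PW3

open Real Set

/-- `x log x - x + 1` -/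
noncomputable def fe (x : ℝ) : ℝ := x * Real.log x - x + 1

private theorem nonneg_of_sign {f f' : ℝ → ℝ} (h : ∀ x, 0 < x → HasDerivAt f (f' x) x)
    (h1 : f 1 = 0) (hs : ∀ x, 1 < x → 0 ≤ f' x) (hs2 : ∀ x, 0 < x → x < 1 → f' x ≤ 0) {x : ℝ}
    (hx : 0 < x) : 0 ≤ f x := by
  rcases le_total 1 x with hx1 | hx1
  · have hmono : MonotoneOn f (Ici 1) := by
      apply monotoneOn_of_deriv_nonneg (convex_Ici 1)
      · intro y hy
        exact (h y (lt_of_lt_of_le one_pos hy)).continuousAt.continuousWithinAt
      · intro y hy
        rw [interior_Ici] at hy
        exact (h y (lt_trans one_pos hy)).differentiableAt.differentiableWithinAt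
      · intro y hy
        rw [interior_Ici] at hy
        rw [(h y (lt_trans one_pos hy)).deriv]
        exact hs y hy
    have := hmono (self_mem_Ici) hx1 hx1
    rwa [h1] at this
  · have hanti : AntitoneOn f (Ioc 0 1) := by
      apply antitoneOn_of_deriv_nonpos (convex_Ioc 0 1)
      · intro y hy
        exact (h y hy.1).continuousAt.continuousWithinAt
      · intro y hy
        rw [interior_Ioc] at hy
        exact (h y hy.1).differentiableAt.differentiableWithinAt
      · intro y hy
        rw [interior_Ioc] at hy
        rw [(h y hy.1).deriv]
        exact hs2 y hy.1 hy.2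
    have := hanti ⟨hx, hx1⟩ ⟨one_pos, le_rfl⟩ hx1
    rwa [h1] at this

/-- lower bound for the logarithm -/
private theorem log_lower {x : ℝ} (hx : 0 < x) :
    (x - 1) * (10 * x ^ 2 + 19 * x + 1) / (3 * x * (x ^ 2 + 6 * x + 3)) ≤ Real.log x := by
  have key := nonneg_of_sign
    (f := fun x => Real.log x - (x - 1) * (10 * x ^ 2 + 19 * x + 1) / (3 * x * (x ^ 2 + 6 * x + 3)))
    (f' := fun x => (x - 1) ^ 5 / (x ^ 2 * (x ^ 2 + 6 * x + 3) ^ 2)) ?_ ?_ ?_ ?_ hx
  · linarith
  · intro y hy
    have h1 := Real.hasDerivAt_log hy.ne'
    have h2 : HasDerivAt (fun x : ℝ => (x - 1) * (10 * x ^ 2 + 19 * x + 1))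
        (1 * (10 * y ^ 2 + 19 * y + 1) + (y - 1) * (10 * (2 * y) + 19)) y := by
      have ha : HasDerivAt (fun x : ℝ => x - 1) 1 y := (hasDerivAt_id y).sub_const 1
      have hb : HasDerivAt (fun x : ℝ => 10 * x ^ 2 + 19 * x + 1) (10 * (2 * y) + 19) y := by
        have := (((hasDerivAt_pow 2 y).const_mul 10).add ((hasDerivAt_id y).const_mul 19)).add_const 1
        simpa using this
      exact ha.mul hb
    have h3 : HasDerivAt (fun x : ℝ => 3 * x * (x ^ 2 + 6 * x + 3))
        (3 * (y ^ 2 + 6 * y + 3) + (3 * y) * (2 * y + 6)) y := by
      have ha : HasDerivAt (fun x : ℝ => 3 * x) 3 y := by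
        simpa using (hasDerivAt_id y).const_mul 3
      have hb : HasDerivAt (fun x : ℝ => x ^ 2 + 6 * x + 3) (2 * y + 6) y := by
        have := ((hasDerivAt_pow 2 y).add ((hasDerivAt_id y).const_mul 6)).add_const 3
        simpa using this
      exact ha.mul hb
    have hpos : 0 < y ^ 2 + 6 * y + 3 := by positivity
    have h4 := h1.sub (h2.div h3 (by positivity))
    refine h4.congr_deriv ?_
    have hy0 : y ≠ 0 := hy.ne'
    have hp0 : y ^ 2 + 6 * y + 3 ≠ 0 := hpos.ne'
    field_simp
    ring
  · norm_num
  · intro y hy
    have : 0 < y - 1 := by linarith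
    positivity
  · intro y hy0 hy1
    have h1 : (y - 1) ^ 5 ≤ 0 := Odd.pow_nonpos (by decide) (by linarith)
    exact div_nonpos_of_nonpos_of_nonneg h1 (by positivity)

/-- lower bound for `fe` -/
private theorem fe_lower {x : ℝ} (hx : 0 ≤ x) :
    (x - 1) ^ 2 * ((7 * x + 8) / (3 * (x ^ 2 + 6 * x + 3))) ≤ fe x := by
  rcases hx.eq_or_lt with h0 | hx
  · rw [← h0]
    norm_num [fe]
  · have h1 := mul_le_mul_of_nonneg_left (log_lower hx) hx.le
    have hp : 0 < x ^ 2 + 6 * x + 3 := by positivity
    have h2 : x * ((x - 1) * (10 * x ^ 2 + 19 * x + 1) / (3 * x * (x ^ 2 + 6 * x + 3))) =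
        (x - 1) ^ 2 * ((7 * x + 8) / (3 * (x ^ 2 + 6 * x + 3))) + x - 1 := by
      field_simp
      ring
    rw [h2] at h1
    unfold fe
    linarith

/-- `x ↦ (7x+8)/(3(x²+6x+3))` is decreasing -/
private theorem lfun_anti {x y : ℝ} (hx : 0 ≤ x) (hxy : x ≤ y) :
    (7 * y + 8) / (3 * (y ^ 2 + 6 * y + 3)) ≤ (7 * x + 8) / (3 * (x ^ 2 + 6 * x + 3)) := by
  have hy : 0 ≤ y := hx.trans hxy
  rw [div_le_div_iff₀ (by positivity) (by positivity)]
  nlinarith [mul_nonneg hx hy, mul_nonneg (sub_nonneg.2 hxy) hx, mul_nonneg (sub_nonneg.2 hxy) hy,
    mul_nonneg (sub_nonneg.2 hxy) (mul_nonneg hx hy)]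

private theorem fe_upper_hi {v : ℝ} (hv : 1 ≤ v) :
    fe v ≤ (v - 1) ^ 2 * ((v + 5) / (6 * (v + 1))) := by
  have h0 : 0 < v := by linarith
  -- an increasing function vanishing at `1`
  have hmono : MonotoneOn (fun x : ℝ => (x - 1) * (x ^ 2 + 10 * x + 1) / (6 * x * (x + 1))
      - Real.log x) (Ici 1) := by
    have hd : ∀ y : ℝ, 0 < y → HasDerivAt (fun x : ℝ => (x - 1) * (x ^ 2 + 10 * x + 1) /
        (6 * x * (x + 1)) - Real.log x) ((y - 1) ^ 4 / (6 * y ^ 2 * (y + 1) ^ 2)) y := by
      intro y hy
      have h1 := Real.hasDerivAt_log hy.ne'
      have h2 : HasDerivAt (fun x : ℝ => (x - 1) * (x ^ 2 + 10 * x + 1))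
          (1 * (y ^ 2 + 10 * y + 1) + (y - 1) * (2 * y + 10)) y := by
        have ha : HasDerivAt (fun x : ℝ => x - 1) 1 y := (hasDerivAt_id y).sub_const 1
        have hb : HasDerivAt (fun x : ℝ => x ^ 2 + 10 * x + 1) (2 * y + 10) y := by
          have := ((hasDerivAt_pow 2 y).add ((hasDerivAt_id y).const_mul 10)).add_const 1
          simpa using this
        exact ha.mul hb
      have h3 : HasDerivAt (fun x : ℝ => 6 * x * (x + 1)) (6 * (y + 1) + (6 * y) * 1) y := by
        have ha : HasDerivAt (fun x : ℝ => 6 * x) 6 y := by
          simpa using (hasDerivAt_id y).const_mul 6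
        have hb : HasDerivAt (fun x : ℝ => x + 1) 1 y := (hasDerivAt_id y).add_const 1
        exact ha.mul hb
      have h4 := (h2.div h3 (by positivity)).sub h1
      refine h4.congr_deriv ?_
      have hy0 : y ≠ 0 := hy.ne'
      have hp0 : y + 1 ≠ 0 := by positivity
      field_simp
      ring
    apply monotoneOn_of_deriv_nonneg (convex_Ici 1)
    · intro y hy
      exact (hd y (lt_of_lt_of_le one_pos hy)).continuousAt.continuousWithinAt
    · intro y hy
      rw [interior_Ici] at hy
      exact (hd y (lt_trans one_pos hy)).differentiableAt.differentiableWithinAt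
    · intro y hy
      rw [interior_Ici] at hy
      have hy' : 0 < y := lt_trans one_pos hy
      rw [(hd y hy').deriv]
      positivity
  have h1 := hmono self_mem_Ici hv hv
  simp only [sub_self, zero_mul, zero_div, Real.log_one] at h1
  have h2 : Real.log v ≤ (v - 1) * (v ^ 2 + 10 * v + 1) / (6 * v * (v + 1)) := by linarith
  have h3 := mul_le_mul_of_nonneg_left h2 h0.le
  have h4 : v * ((v - 1) * (v ^ 2 + 10 * v + 1) / (6 * v * (v + 1))) =
      (v - 1) ^ 2 * ((v + 5) / (6 * (v + 1))) + v - 1 := by
    field_simp
    ring
  rw [h4] at h3
  unfold fe
  linarith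

private theorem fe_upper_lo {v : ℝ} (hv0 : 0 < v) (hv : v ≤ 1) :
    fe v ≤ (v - 1) ^ 2 * ((11 * v + 1) / (6 * v * (v + 3))) := by
  have hanti : AntitoneOn (fun x : ℝ => (x - 1) * (17 * x ^ 2 + 8 * x - 1) /
      (6 * x ^ 2 * (x + 3)) - Real.log x) (Ioc 0 1) := by
    have hd : ∀ y : ℝ, 0 < y → HasDerivAt (fun x : ℝ => (x - 1) * (17 * x ^ 2 + 8 * x - 1) /
        (6 * x ^ 2 * (x + 3)) - Real.log x) (-((y - 1) ^ 4 / (y ^ 3 * (y + 3) ^ 2))) y := by
      intro y hy
      have h1 := Real.hasDerivAt_log hy.ne'
      have h2 : HasDerivAt (fun x : ℝ => (x - 1) * (17 * x ^ 2 + 8 * x - 1))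
          (1 * (17 * y ^ 2 + 8 * y - 1) + (y - 1) * (17 * (2 * y) + 8)) y := by
        have ha : HasDerivAt (fun x : ℝ => x - 1) 1 y := (hasDerivAt_id y).sub_const 1
        have hb : HasDerivAt (fun x : ℝ => 17 * x ^ 2 + 8 * x - 1) (17 * (2 * y) + 8) y := by
          have := (((hasDerivAt_pow 2 y).const_mul 17).add
            ((hasDerivAt_id y).const_mul 8)).sub_const 1
          simpa using this
        exact ha.mul hb
      have h3 : HasDerivAt (fun x : ℝ => 6 * x ^ 2 * (x + 3))
          (6 * (2 * y) * (y + 3) + (6 * y ^ 2) * 1) y := by
        have ha : HasDerivAt (fun x : ℝ => 6 * x ^ 2) (6 * (2 * y)) y := by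
          simpa using (hasDerivAt_pow 2 y).const_mul 6
        have hb : HasDerivAt (fun x : ℝ => x + 3) 1 y := (hasDerivAt_id y).add_const 3
        exact ha.mul hb
      have h4 := (h2.div h3 (by positivity)).sub h1
      refine h4.congr_deriv ?_
      have hy0 : y ≠ 0 := hy.ne'
      have hp0 : y + 3 ≠ 0 := by positivity
      field_simp
      ring
    apply antitoneOn_of_deriv_nonpos (convex_Ioc 0 1)
    · intro y hy
      exact (hd y hy.1).continuousAt.continuousWithinAt
    · intro y hy
      rw [interior_Ioc] at hy
      exact (hd y hy.1).differentiableAt.differentiableWithinAt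
    · intro y hy
      rw [interior_Ioc] at hy
      have hy' : 0 < y := hy.1
      rw [(hd y hy').deriv]
      have : 0 ≤ (y - 1) ^ 4 / (y ^ 3 * (y + 3) ^ 2) := by positivity
      linarith
  have h1 := hanti ⟨hv0, hv⟩ ⟨one_pos, le_rfl⟩ hv
  simp only [sub_self, zero_mul, zero_div, Real.log_one] at h1
  have h2 : Real.log v ≤ (v - 1) * (17 * v ^ 2 + 8 * v - 1) / (6 * v ^ 2 * (v + 3)) := by
    linarith
  have h3 := mul_le_mul_of_nonneg_left h2 hv0.le
  have h4 : v * ((v - 1) * (17 * v ^ 2 + 8 * v - 1) / (6 * v ^ 2 * (v + 3))) =
      (v - 1) ^ 2 * ((11 * v + 1) / (6 * v * (v + 3))) + v - 1 := by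
    field_simp
    ring
  rw [h4] at h3
  unfold fe
  linarith


/-- the quadratic form of the certificate -/
private noncomputable def pf (u v : ℝ) : ℝ :=
  2 * (813 / 2500 + 1043 / 32500 * v) * (v - 1) ^ 2 + (2 * (1043 / 32500) + 4 * (829 / 2500 + (-1811 / 32500) * v)) * (v - 1) * (u - 2 * v + 1) +
    (1691 / 5000 + (-1427 / 16250) * v) * (u - 2 * v + 1) ^ 2

private theorem combine {Fu Fv N D Nv Dv P : ℝ} (hD : 0 < D) (hDv : 0 < Dv) (hA : N ≤ D * Fu)
    (hB : Dv * Fv ≤ Nv) (hT : 0 ≤ N * Dv - D * (Nv + Dv * P)) : P ≤ Fu - Fv := by
  have h1 : N * Dv ≤ D * Fu * Dv := mul_le_mul_of_nonneg_right hA hDv.le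
  have h2 : D * (Dv * Fv) ≤ D * Nv := mul_le_mul_of_nonneg_left hB hD.le
  have h3 : (D * Dv) * P ≤ (D * Dv) * (Fu - Fv) := by nlinarith
  exact le_of_mul_le_mul_left h3 (mul_pos hD hDv)

private theorem fe_scale {c x : ℝ} (hc : 0 < c) (hx : 0 ≤ x) :
    fe x = x * Real.log c + 1 - c + c * fe (x / c) := by
  rcases hx.eq_or_lt with h0 | hx
  · rw [← h0]
    norm_num [fe]
  · unfold fe
    rw [Real.log_div hx.ne' hc.ne']
    field_simp
    ring

private theorem low_gen {c x l : ℝ} (hc : 0 < c) (hl : l ≤ Real.log c) (hx : 0 ≤ x) :
    (3 * (x ^ 2 + 6 * c * x + 3 * c ^ 2)) * (x * l + 1 - c) + (x - c) ^ 2 * (7 * x + 8 * c) ≤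
      (3 * (x ^ 2 + 6 * c * x + 3 * c ^ 2)) * fe x := by
  have hy : 0 ≤ x / c := div_nonneg hx hc.le
  have h1 := fe_lower hy
  have hD : 0 < 3 * (x ^ 2 + 6 * c * x + 3 * c ^ 2) := by positivity
  have h2 : x * l ≤ x * Real.log c := mul_le_mul_of_nonneg_left hl hx
  have h3 : (x - c) ^ 2 * (7 * x + 8 * c) = (3 * (x ^ 2 + 6 * c * x + 3 * c ^ 2)) *
      (c * ((x / c - 1) ^ 2 * ((7 * (x / c) + 8) / (3 * ((x / c) ^ 2 + 6 * (x / c) + 3))))) := by
    have hq : 0 < (x / c) ^ 2 + 6 * (x / c) + 3 := by positivity
    have e : x ^ 2 + 6 * c * x + 3 * c ^ 2 = c ^ 2 * ((x / c) ^ 2 + 6 * (x / c) + 3) := by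
      field_simp
    rw [e]
    have e2 : (x - c) ^ 2 * (7 * x + 8 * c) = c ^ 3 * ((x / c - 1) ^ 2 * (7 * (x / c) + 8)) := by
      field_simp
    rw [e2]
    generalize x / c = y at hq
    have hq0 : y ^ 2 + 6 * y + 3 ≠ 0 := hq.ne'
    have hc0 : c ≠ 0 := hc.ne'
    rw [div_eq_mul_inv]
    have e3 : (3 * (y ^ 2 + 6 * y + 3)) * (3 * (y ^ 2 + 6 * y + 3))⁻¹ = 1 :=
      mul_inv_cancel₀ (by positivity)
    linear_combination (-(c ^ 3 * (y - 1) ^ 2 * (7 * y + 8))) * e3
  rw [h3, fe_scale hc hx, ← mul_add]
  apply mul_le_mul_of_nonneg_left _ hD.le
  have h4 := mul_le_mul_of_nonneg_left h1 hc.le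
  linarith

private theorem up_hi_gen {c x l : ℝ} (hc : 0 < c) (hl : Real.log c ≤ l) (hx : c ≤ x) :
    (6 * c * (x + c)) * fe x ≤ (6 * c * (x + c)) * (x * l + 1 - c) +
      (x - c) ^ 2 * (x + 5 * c) := by
  have hx0 : 0 < x := hc.trans_le hx
  have hy : 1 ≤ x / c := (one_le_div hc).2 hx
  have h1 := fe_upper_hi hy
  have hD : 0 < 6 * c * (x + c) := by positivity
  have h2 : x * Real.log c ≤ x * l := mul_le_mul_of_nonneg_left hl hx0.le
  have h3 : (x - c) ^ 2 * (x + 5 * c) = (6 * c * (x + c)) *
      (c * ((x / c - 1) ^ 2 * ((x / c + 5) / (6 * (x / c + 1))))) := by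
    have hq : 0 < x / c + 1 := by positivity
    have e : 6 * c * (x + c) = 6 * c ^ 2 * (x / c + 1) := by field_simp
    rw [e]
    have e2 : (x - c) ^ 2 * (x + 5 * c) = c ^ 3 * ((x / c - 1) ^ 2 * (x / c + 5)) := by
      field_simp
    rw [e2]
    generalize x / c = y at hq
    field_simp
  rw [h3, fe_scale hc hx0.le, ← mul_add]
  apply mul_le_mul_of_nonneg_left _ hD.le
  have h4 := mul_le_mul_of_nonneg_left h1 hc.le
  linarith

private theorem up_lo_gen {c x l : ℝ} (hl : Real.log c ≤ l) (hx0 : 0 < x) (hx : x ≤ c) :
    (6 * x * (x + 3 * c)) * fe x ≤ (6 * x * (x + 3 * c)) * (x * l + 1 - c) +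
      (x - c) ^ 2 * (11 * x + c) := by
  have hc : 0 < c := hx0.trans_le hx
  have hy0 : 0 < x / c := by positivity
  have hy : x / c ≤ 1 := (div_le_one hc).2 hx
  have h1 := fe_upper_lo hy0 hy
  have hD : 0 < 6 * x * (x + 3 * c) := by positivity
  have h2 : x * Real.log c ≤ x * l := mul_le_mul_of_nonneg_left hl hx0.le
  have h3 : (x - c) ^ 2 * (11 * x + c) = (6 * x * (x + 3 * c)) *
      (c * ((x / c - 1) ^ 2 * ((11 * (x / c) + 1) / (6 * (x / c) * (x / c + 3))))) := by
    have e : 6 * x * (x + 3 * c) = 6 * c ^ 2 * (x / c) * (x / c + 3) := by field_simp
    rw [e]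
    have e2 : (x - c) ^ 2 * (11 * x + c) = c ^ 3 * ((x / c - 1) ^ 2 * (11 * (x / c) + 1)) := by
      field_simp
    rw [e2]
    generalize x / c = y at hy0
    field_simp
  rw [h3, fe_scale hc hx0.le, ← mul_add]
  apply mul_le_mul_of_nonneg_left _ hD.le
  have h4 := mul_le_mul_of_nonneg_left h1 hc.le
  linarith

private theorem up_tan_gen {c x l : ℝ} (hc : 0 < c) (hl : Real.log c ≤ l) (hx0 : 0 ≤ x) :
    1 * fe x ≤ 1 + x * (l - 2) + x ^ 2 / c := by
  rcases hx0.eq_or_lt with h0 | hx
  · rw [← h0]
    norm_num [fe]
  · have h1 : Real.log (x / c) ≤ x / c - 1 := Real.log_le_sub_one_of_pos (by positivity)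
    rw [Real.log_div hx.ne' hc.ne'] at h1
    have h2 : Real.log x ≤ l + x / c - 1 := by linarith
    have h3 := mul_le_mul_of_nonneg_left h2 hx.le
    unfold fe
    have e : x * (l + x / c - 1) = x * l + x ^ 2 / c - x := by ring
    linarith

private theorem lowD_m1 {x : ℝ} (hx : 0 ≤ x) :
    0 < 3 * (x ^ 2 + 6 * (1 / 2) * x + 3 * (1 / 2) ^ 2) := by positivity

private theorem low_m1 {x : ℝ} (hx : 0 ≤ x) :
    (3 * (x ^ 2 + 6 * (1 / 2) * x + 3 * (1 / 2) ^ 2)) * (x * (-13863 / 20000) + 1 - (1 / 2)) +
      (x - (1 / 2)) ^ 2 * (7 * x + 8 * (1 / 2)) ≤
      (3 * (x ^ 2 + 6 * (1 / 2) * x + 3 * (1 / 2) ^ 2)) * fe x :=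
  low_gen (by norm_num) (by rw [show (1 / 2 : ℝ) = (2 ^ 1)⁻¹ by norm_num, Real.log_inv, Real.log_pow]; have := Real.log_two_lt_d9; norm_num; linarith) hx

private theorem lowD_0 {x : ℝ} (hx : 0 ≤ x) :
    0 < 3 * (x ^ 2 + 6 * 1 * x + 3 * 1 ^ 2) := by positivity

private theorem low_0 {x : ℝ} (hx : 0 ≤ x) :
    (3 * (x ^ 2 + 6 * 1 * x + 3 * 1 ^ 2)) * (x * 0 + 1 - 1) +
      (x - 1) ^ 2 * (7 * x + 8 * 1) ≤
      (3 * (x ^ 2 + 6 * 1 * x + 3 * 1 ^ 2)) * fe x :=
  low_gen (by norm_num) (by rw [Real.log_one]) hx

private theorem lowD_1 {x : ℝ} (hx : 0 ≤ x) :
    0 < 3 * (x ^ 2 + 6 * 2 * x + 3 * 2 ^ 2) := by positivity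

private theorem low_1 {x : ℝ} (hx : 0 ≤ x) :
    (3 * (x ^ 2 + 6 * 2 * x + 3 * 2 ^ 2)) * (x * (34657 / 50000) + 1 - 2) +
      (x - 2) ^ 2 * (7 * x + 8 * 2) ≤
      (3 * (x ^ 2 + 6 * 2 * x + 3 * 2 ^ 2)) * fe x :=
  low_gen (by norm_num) (by rw [show (2 : ℝ) = 2 ^ 1 by norm_num, Real.log_pow]; have := Real.log_two_gt_d9; norm_num; linarith) hx

private theorem lowD_2 {x : ℝ} (hx : 0 ≤ x) :
    0 < 3 * (x ^ 2 + 6 * 4 * x + 3 * 4 ^ 2) := by positivity

private theorem low_2 {x : ℝ} (hx : 0 ≤ x) :
    (3 * (x ^ 2 + 6 * 4 * x + 3 * 4 ^ 2)) * (x * (34657 / 25000) + 1 - 4) +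
      (x - 4) ^ 2 * (7 * x + 8 * 4) ≤
      (3 * (x ^ 2 + 6 * 4 * x + 3 * 4 ^ 2)) * fe x :=
  low_gen (by norm_num) (by rw [show (4 : ℝ) = 2 ^ 2 by norm_num, Real.log_pow]; have := Real.log_two_gt_d9; norm_num; linarith) hx

private theorem lowD_3 {x : ℝ} (hx : 0 ≤ x) :
    0 < 3 * (x ^ 2 + 6 * 8 * x + 3 * 8 ^ 2) := by positivity

private theorem low_3 {x : ℝ} (hx : 0 ≤ x) :
    (3 * (x ^ 2 + 6 * 8 * x + 3 * 8 ^ 2)) * (x * (103971 / 50000) + 1 - 8) +
      (x - 8) ^ 2 * (7 * x + 8 * 8) ≤
      (3 * (x ^ 2 + 6 * 8 * x + 3 * 8 ^ 2)) * fe x :=
  low_gen (by norm_num) (by rw [show (8 : ℝ) = 2 ^ 3 by norm_num, Real.log_pow]; have := Real.log_two_gt_d9; norm_num; linarith) hx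

private theorem upD_hi_m3 {x : ℝ} (hx : (1 / 8) ≤ x) :
    0 < 6 * (1 / 8) * (x + (1 / 8)) := by linarith

private theorem up_hi_m3 {x : ℝ} (hx : (1 / 8) ≤ x) :
    (6 * (1 / 8) * (x + (1 / 8))) * fe x ≤ (6 * (1 / 8) * (x + (1 / 8))) * (x * (-103971 / 50000) + 1 - (1 / 8)) +
      (x - (1 / 8)) ^ 2 * (x + 5 * (1 / 8)) :=
  up_hi_gen (by norm_num) (by rw [show (1 / 8 : ℝ) = (2 ^ 3)⁻¹ by norm_num, Real.log_inv, Real.log_pow]; have := Real.log_two_gt_d9; norm_num; linarith) hx

private theorem upD_hi_0 {x : ℝ} (hx : 1 ≤ x) :
    0 < 6 * 1 * (x + 1) := by linarith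

private theorem up_hi_0 {x : ℝ} (hx : 1 ≤ x) :
    (6 * 1 * (x + 1)) * fe x ≤ (6 * 1 * (x + 1)) * (x * 0 + 1 - 1) +
      (x - 1) ^ 2 * (x + 5 * 1) :=
  up_hi_gen (by norm_num) (by rw [Real.log_one]) hx

private theorem upD_hi_1 {x : ℝ} (hx : 2 ≤ x) :
    0 < 6 * 2 * (x + 2) := by linarith

private theorem up_hi_1 {x : ℝ} (hx : 2 ≤ x) :
    (6 * 2 * (x + 2)) * fe x ≤ (6 * 2 * (x + 2)) * (x * (13863 / 20000) + 1 - 2) +
      (x - 2) ^ 2 * (x + 5 * 2) :=
  up_hi_gen (by norm_num) (by rw [show (2 : ℝ) = 2 ^ 1 by norm_num, Real.log_pow]; have := Real.log_two_lt_d9; norm_num; linarith) hx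

private theorem upD_lo_1 {x : ℝ} (hx : 0 < x) :
    0 < 6 * x * (x + 3 * 2) := by positivity

private theorem up_lo_1 {x : ℝ} (hx0 : 0 < x) (hx : x ≤ 2) :
    (6 * x * (x + 3 * 2)) * fe x ≤ (6 * x * (x + 3 * 2)) * (x * (13863 / 20000) + 1 - 2) +
      (x - 2) ^ 2 * (11 * x + 2) :=
  up_lo_gen (by rw [show (2 : ℝ) = 2 ^ 1 by norm_num, Real.log_pow]; have := Real.log_two_lt_d9; norm_num; linarith) hx0 hx

private theorem up_tan_m4 {x : ℝ} (hx : 0 ≤ x) :
    1 * fe x ≤ 1 + x * ((-34657 / 12500) - 2) + x ^ 2 / (1 / 16) :=
  up_tan_gen (by norm_num) (by rw [show (1 / 16 : ℝ) = (2 ^ 4)⁻¹ by norm_num, Real.log_inv, Real.log_pow]; have := Real.log_two_gt_d9; norm_num; linarith) hx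

private theorem up_tan_m3 {x : ℝ} (hx : 0 ≤ x) :
    1 * fe x ≤ 1 + x * ((-103971 / 50000) - 2) + x ^ 2 / (1 / 8) :=
  up_tan_gen (by norm_num) (by rw [show (1 / 8 : ℝ) = (2 ^ 3)⁻¹ by norm_num, Real.log_inv, Real.log_pow]; have := Real.log_two_gt_d9; norm_num; linarith) hx


private noncomputable def B4 (k l c0 c1 c2 c3 c4 : ℝ) : ℝ :=
  c0 * l ^ 4 + c1 * (k * l ^ 3) + c2 * (k ^ 2 * l ^ 2) + c3 * (k ^ 3 * l) + c4 * k ^ 4

private theorem B4n {k l c0 c1 c2 c3 c4 : ℝ} (hk : 0 ≤ k) (hl : 0 ≤ l) (h0 : 0 ≤ c0) (h1 : 0 ≤ c1)
    (h2 : 0 ≤ c2) (h3 : 0 ≤ c3) (h4 : 0 ≤ c4) : 0 ≤ B4 k l c0 c1 c2 c3 c4 := by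
  unfold B4
  positivity

private noncomputable def O1 (a b c0 c1 : ℝ) : ℝ :=
  c0 * (b ^ 1) + c1 * (a ^ 1)

private theorem O1n {a b c0 c1 : ℝ} (ha : 0 ≤ a) (hb : 0 ≤ b)
    (h0 : 0 ≤ c0) (h1 : 0 ≤ c1) : 0 ≤ O1 a b c0 c1 := by
  unfold O1
  positivity

private noncomputable def O3 (a b c0 c1 c2 c3 : ℝ) : ℝ :=
  c0 * (b ^ 3) + c1 * (a ^ 1 * b ^ 2) + c2 * (a ^ 2 * b ^ 1) + c3 * (a ^ 3)

private theorem O3n {a b c0 c1 c2 c3 : ℝ} (ha : 0 ≤ a) (hb : 0 ≤ b)
    (h0 : 0 ≤ c0) (h1 : 0 ≤ c1) (h2 : 0 ≤ c2) (h3 : 0 ≤ c3) : 0 ≤ O3 a b c0 c1 c2 c3 := by
  unfold O3
  positivity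

private noncomputable def O4 (a b c0 c1 c2 c3 c4 : ℝ) : ℝ :=
  c0 * (b ^ 4) + c1 * (a ^ 1 * b ^ 3) + c2 * (a ^ 2 * b ^ 2) + c3 * (a ^ 3 * b ^ 1) + c4 * (a ^ 4)

private theorem O4n {a b c0 c1 c2 c3 c4 : ℝ} (ha : 0 ≤ a) (hb : 0 ≤ b)
    (h0 : 0 ≤ c0) (h1 : 0 ≤ c1) (h2 : 0 ≤ c2) (h3 : 0 ≤ c3) (h4 : 0 ≤ c4) : 0 ≤ O4 a b c0 c1 c2 c3 c4 := by
  unfold O4
  positivity

private noncomputable def O5 (a b c0 c1 c2 c3 c4 c5 : ℝ) : ℝ :=
  c0 * (b ^ 5) + c1 * (a ^ 1 * b ^ 4) + c2 * (a ^ 2 * b ^ 3) + c3 * (a ^ 3 * b ^ 2) + c4 * (a ^ 4 * b ^ 1) + c5 * (a ^ 5)

private theorem O5n {a b c0 c1 c2 c3 c4 c5 : ℝ} (ha : 0 ≤ a) (hb : 0 ≤ b)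
    (h0 : 0 ≤ c0) (h1 : 0 ≤ c1) (h2 : 0 ≤ c2) (h3 : 0 ≤ c3) (h4 : 0 ≤ c4) (h5 : 0 ≤ c5) : 0 ≤ O5 a b c0 c1 c2 c3 c4 c5 := by
  unfold O5
  positivity

private noncomputable def O6 (a b c0 c1 c2 c3 c4 c5 c6 : ℝ) : ℝ :=
  c0 * (b ^ 6) + c1 * (a ^ 1 * b ^ 5) + c2 * (a ^ 2 * b ^ 4) + c3 * (a ^ 3 * b ^ 3) + c4 * (a ^ 4 * b ^ 2) + c5 * (a ^ 5 * b ^ 1) + c6 * (a ^ 6)

private theorem O6n {a b c0 c1 c2 c3 c4 c5 c6 : ℝ} (ha : 0 ≤ a) (hb : 0 ≤ b)
    (h0 : 0 ≤ c0) (h1 : 0 ≤ c1) (h2 : 0 ≤ c2) (h3 : 0 ≤ c3) (h4 : 0 ≤ c4) (h5 : 0 ≤ c5) (h6 : 0 ≤ c6) : 0 ≤ O6 a b c0 c1 c2 c3 c4 c5 c6 := by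
  unfold O6
  positivity

private noncomputable def O7 (a b c0 c1 c2 c3 c4 c5 c6 c7 : ℝ) : ℝ :=
  c0 * (b ^ 7) + c1 * (a ^ 1 * b ^ 6) + c2 * (a ^ 2 * b ^ 5) + c3 * (a ^ 3 * b ^ 4) + c4 * (a ^ 4 * b ^ 3) + c5 * (a ^ 5 * b ^ 2) + c6 * (a ^ 6 * b ^ 1) + c7 * (a ^ 7)

private theorem O7n {a b c0 c1 c2 c3 c4 c5 c6 c7 : ℝ} (ha : 0 ≤ a) (hb : 0 ≤ b)
    (h0 : 0 ≤ c0) (h1 : 0 ≤ c1) (h2 : 0 ≤ c2) (h3 : 0 ≤ c3) (h4 : 0 ≤ c4) (h5 : 0 ≤ c5) (h6 : 0 ≤ c6) (h7 : 0 ≤ c7) : 0 ≤ O7 a b c0 c1 c2 c3 c4 c5 c6 c7 := by
  unfold O7
  positivity

private theorem bn1 {a b k l : ℝ} (ha : 0 ≤ a) (hb : 0 ≤ b) (hk : 0 ≤ k) (hl : 0 ≤ l) :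
    0 ≤ O5 a b
      (B4 k l (59329806647616 / 46411625) (1166250154831488 / 232058125) (1626261417311328 / 232058125) (965192274541728 / 232058125) (8268045975108 / 9282325))
      (B4 k l (1383648037768512 / 232058125) (26610216353416512 / 1160290625) (36409300983212544 / 1160290625) (21245401996088112 / 1160290625) (896540518986732 / 232058125))
      (B4 k l (13046796666506592 / 1160290625) (49123044728129952 / 1160290625) (65978305869438936 / 1160290625) (37872835415385264 / 1160290625) (7880820749811648 / 1160290625))
      (B4 k l (12354629355013824 / 1160290625) (45472154824701936 / 1160290625) (59802017256364392 / 1160290625) (33634859609097792 / 1160290625) (6861203271937152 / 1160290625))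
      (B4 k l (5777710470541332 / 1160290625) (20669128843451184 / 1160290625) (26365169897462592 / 1160290625) (2862836982920448 / 232058125) (559249453688832 / 232058125))
      (B4 k l (41401317787452 / 46411625) (3541653908837568 / 1160290625) (4264365725707392 / 1160290625) (426664167745536 / 232058125) (366818083577856 / 1160290625)) :=
  O5n ha hb
    (B4n hk hl (by norm_num) (by norm_num) (by norm_num) (by norm_num) (by norm_num))
    (B4n hk hl (by norm_num) (by norm_num) (by norm_num) (by norm_num) (by norm_num))
    (B4n hk hl (by norm_num) (by norm_num) (by norm_num) (by norm_num) (by norm_num))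
    (B4n hk hl (by norm_num) (by norm_num) (by norm_num) (by norm_num) (by norm_num))
    (B4n hk hl (by norm_num) (by norm_num) (by norm_num) (by norm_num) (by norm_num))
    (B4n hk hl (by norm_num) (by norm_num) (by norm_num) (by norm_num) (by norm_num))

private theorem cell1 {u v : ℝ} (h1 : 0 ≤ v) (h2 : v ≤ (1 / 6))
    (h3 : (13 / 4) * v + (-13 / 12) ≤ u) (h4 : u ≤ (13 / 4) * v + (-13 / 24)) (hu : 0 ≤ u) :
    pf u v ≤ fe u - fe v := by
  refine combine (lowD_0 hu) one_pos (low_0 hu) (up_tan_m4 (by linarith)) ?_
  refine (bn1 (sub_nonneg.2 h1) (sub_nonneg.2 h2) (sub_nonneg.2 h3) (sub_nonneg.2 h4)).trans_eq ?_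
  simp only [B4, O5, pf]
  ring

private theorem bn2 {a b k l : ℝ} (ha : 0 ≤ a) (hb : 0 ≤ b) (hk : 0 ≤ k) (hl : 0 ≤ l) :
    0 ≤ O6 a b
      (B4 k l (21502529454033 / 928232500) (1205314382751129 / 2320581250) (1173544826785452 / 1160290625) (782196508329048 / 1160290625) (172935844509888 / 1160290625))
      (B4 k l (1298444221324629 / 2320581250) (4949465250489543 / 1160290625) (16504318320383997 / 2320581250) (5097094946111016 / 1160290625) (1070161182648936 / 1160290625))
      (B4 k l (10787646355992423 / 4641162500) (14997570274102203 / 1160290625) (45119663103804183 / 2320581250) (26155524288913659 / 2320581250) (2616220676275884 / 1160290625))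
      (B4 k l (1882140325469721 / 464116250) (22210199136466209 / 1160290625) (6179985788524056 / 232058125) (16912848867557823 / 1160290625) (6457147882672239 / 2320581250))
      (B4 k l (163294024911552 / 46411625) (34614328082425569 / 2320581250) (45059628725309421 / 2320581250) (93315728666601 / 9282325) (8513357584459941 / 4641162500))
      (B4 k l (1743858560106648 / 1160290625) (6812934462927936 / 1160290625) (16672257532148103 / 2320581250) (4080815998555977 / 1160290625) (1431479357857467 / 2320581250))
      (B4 k l (22492596139776 / 89253125) (81973684546632 / 89253125) (94284766262592 / 89253125) (87197789542599 / 178506250) (29874315381939 / 357012500)) :=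
  O6n ha hb
    (B4n hk hl (by norm_num) (by norm_num) (by norm_num) (by norm_num) (by norm_num))
    (B4n hk hl (by norm_num) (by norm_num) (by norm_num) (by norm_num) (by norm_num))
    (B4n hk hl (by norm_num) (by norm_num) (by norm_num) (by norm_num) (by norm_num))
    (B4n hk hl (by norm_num) (by norm_num) (by norm_num) (by norm_num) (by norm_num))
    (B4n hk hl (by norm_num) (by norm_num) (by norm_num) (by norm_num) (by norm_num))
    (B4n hk hl (by norm_num) (by norm_num) (by norm_num) (by norm_num) (by norm_num))
    (B4n hk hl (by norm_num) (by norm_num) (by norm_num) (by norm_num) (by norm_num))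

private theorem cell2 {u v : ℝ} (h1 : (1 / 6) ≤ v) (h2 : v ≤ (1 / 3))
    (h3 : (13 / 4) * v + (-13 / 12) ≤ u) (h4 : u ≤ (13 / 4) * v + (-13 / 24)) (hu : 0 ≤ u) :
    pf u v ≤ fe u - fe v := by
  refine combine (lowD_m1 hu) (upD_hi_m3 (by linarith)) (low_m1 hu) (up_hi_m3 (by linarith)) ?_
  refine (bn2 (sub_nonneg.2 h1) (sub_nonneg.2 h2) (sub_nonneg.2 h3) (sub_nonneg.2 h4)).trans_eq ?_
  simp only [B4, O6, pf]
  ring

private theorem bn3 {a b k l : ℝ} (ha : 0 ≤ a) (hb : 0 ≤ b) (hk : 0 ≤ k) (hl : 0 ≤ l) :
    0 ≤ O5 a b
      (B4 k l (494765963532 / 9282325) (4379717978568 / 9282325) (179335082792448 / 232058125) (100380959455104 / 232058125) (16338847592448 / 232058125))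
      (B4 k l (107026388841852 / 232058125) (3027036710050632 / 1160290625) (4339118687166792 / 1160290625) (2218765749637248 / 1160290625) (326177245795968 / 1160290625))
      (B4 k l (1316882684538792 / 1160290625) (6125636585152008 / 1160290625) (8024219723327616 / 1160290625) (3829257478110456 / 1160290625) (523834797638016 / 1160290625))
      (B4 k l (1432879206823872 / 1160290625) (5914811508531336 / 1160290625) (7235507206742112 / 1160290625) (3277675785223224 / 1160290625) (434936329704216 / 1160290625))
      (B4 k l (719099589241728 / 1160290625) (2715211576624896 / 1160290625) (3110337479134584 / 1160290625) (1326622345902072 / 1160290625) (168210732545316 / 1160290625))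
      (B4 k l (129967053493248 / 1160290625) (447065431733376 / 1160290625) (457507834341696 / 1160290625) (161943827645016 / 1160290625) (12776377949748 / 1160290625)) :=
  O5n ha hb
    (B4n hk hl (by norm_num) (by norm_num) (by norm_num) (by norm_num) (by norm_num))
    (B4n hk hl (by norm_num) (by norm_num) (by norm_num) (by norm_num) (by norm_num))
    (B4n hk hl (by norm_num) (by norm_num) (by norm_num) (by norm_num) (by norm_num))
    (B4n hk hl (by norm_num) (by norm_num) (by norm_num) (by norm_num) (by norm_num))
    (B4n hk hl (by norm_num) (by norm_num) (by norm_num) (by norm_num) (by norm_num))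
    (B4n hk hl (by norm_num) (by norm_num) (by norm_num) (by norm_num) (by norm_num))

private theorem cell3 {u v : ℝ} (h1 : 0 ≤ v) (h2 : v ≤ (1 / 6))
    (h3 : (13 / 4) * v + (-13 / 24) ≤ u) (h4 : u ≤ (13 / 4) * v + 0) (hu : 0 ≤ u) :
    pf u v ≤ fe u - fe v := by
  refine combine (lowD_m1 hu) one_pos (low_m1 hu) (up_tan_m3 (by linarith)) ?_
  refine (bn3 (sub_nonneg.2 h1) (sub_nonneg.2 h2) (sub_nonneg.2 h3) (sub_nonneg.2 h4)).trans_eq ?_
  simp only [B4, O5, pf]
  ring

private theorem bn4 {a b k l : ℝ} (ha : 0 ≤ a) (hb : 0 ≤ b) (hk : 0 ≤ k) (hl : 0 ≤ l) :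
    0 ≤ O6 a b
      (B4 k l (172935844509888 / 1160290625) (601290247750056 / 1160290625) (630826045048476 / 1160290625) (478222080268167 / 2320581250) (100578126936177 / 4641162500))
      (B4 k l (1070161182648936 / 1160290625) (3464194515080472 / 1160290625) (6706915734200733 / 2320581250) (1139189881712211 / 1160290625) (209495207892141 / 2320581250))
      (B4 k l (2616220676275884 / 1160290625) (3140801306300097 / 464116250) (13765109831564661 / 2320581250) (2027671840852497 / 1160290625) (142824730529259 / 928232500))
      (B4 k l (6457147882672239 / 2320581250) (8915742663131133 / 1160290625) (1381722065868042 / 232058125) (1749696346076859 / 1160290625) (95624172855333 / 464116250))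
      (B4 k l (8513357584459941 / 4641162500) (5362249085594757 / 1160290625) (7246326738927213 / 2320581250) (1890722170368171 / 2320581250) (324981662220837 / 1160290625))
      (B4 k l (1431479357857467 / 2320581250) (1645101432873891 / 1160290625) (2057970138055587 / 2320581250) (465458344416018 / 1160290625) (267811572958902 / 1160290625))
      (B4 k l (29874315381939 / 357012500) (2484574768089 / 13731250) (11937289926429 / 89253125) (10973166303654 / 89253125) (1278079090848 / 17850625)) :=
  O6n ha hb
    (B4n hk hl (by norm_num) (by norm_num) (by norm_num) (by norm_num) (by norm_num))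
    (B4n hk hl (by norm_num) (by norm_num) (by norm_num) (by norm_num) (by norm_num))
    (B4n hk hl (by norm_num) (by norm_num) (by norm_num) (by norm_num) (by norm_num))
    (B4n hk hl (by norm_num) (by norm_num) (by norm_num) (by norm_num) (by norm_num))
    (B4n hk hl (by norm_num) (by norm_num) (by norm_num) (by norm_num) (by norm_num))
    (B4n hk hl (by norm_num) (by norm_num) (by norm_num) (by norm_num) (by norm_num))
    (B4n hk hl (by norm_num) (by norm_num) (by norm_num) (by norm_num) (by norm_num))

private theorem cell4 {u v : ℝ} (h1 : (1 / 6) ≤ v) (h2 : v ≤ (1 / 3))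
    (h3 : (13 / 4) * v + (-13 / 24) ≤ u) (h4 : u ≤ (13 / 4) * v + 0) (hu : 0 ≤ u) :
    pf u v ≤ fe u - fe v := by
  refine combine (lowD_m1 hu) (upD_hi_m3 (by linarith)) (low_m1 hu) (up_hi_m3 (by linarith)) ?_
  refine (bn4 (sub_nonneg.2 h1) (sub_nonneg.2 h2) (sub_nonneg.2 h3) (sub_nonneg.2 h4)).trans_eq ?_
  simp only [B4, O6, pf]
  ring

private theorem bn5 {a b k l : ℝ} (ha : 0 ≤ a) (hb : 0 ≤ b) (hk : 0 ≤ k) (hl : 0 ≤ l) :
    0 ≤ O4 a b
      (B4 k l (400426713612288 / 385598858125) (2193963581472768 / 385598858125) (786508880887296 / 77119771625) (95730411204672 / 15423954325) (1589128663944 / 3084790865))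
      (B4 k l (1691085585088512 / 385598858125) (9505459496853504 / 385598858125) (3542767015494528 / 77119771625) (469331428236816 / 15423954325) (989062829754 / 237291605))
      (B4 k l (525362352979968 / 77119771625) (15114333049012224 / 385598858125) (5828502795378048 / 77119771625) (824217961731696 / 15423954325) (28854176136642 / 3084790865))
      (B4 k l (1773239506599936 / 385598858125) (10423854622261248 / 385598858125) (4144256695372416 / 77119771625) (617436601208592 / 15423954325) (25081789484334 / 3084790865))
      (B4 k l (85955111337984 / 77119771625) (517624735291392 / 77119771625) (212199569379264 / 15423954325) (33038293969968 / 3084790865) (1481313920286 / 616958173)) :=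
  O4n ha hb
    (B4n hk hl (by norm_num) (by norm_num) (by norm_num) (by norm_num) (by norm_num))
    (B4n hk hl (by norm_num) (by norm_num) (by norm_num) (by norm_num) (by norm_num))
    (B4n hk hl (by norm_num) (by norm_num) (by norm_num) (by norm_num) (by norm_num))
    (B4n hk hl (by norm_num) (by norm_num) (by norm_num) (by norm_num) (by norm_num))
    (B4n hk hl (by norm_num) (by norm_num) (by norm_num) (by norm_num) (by norm_num))

private theorem cell5 {u v : ℝ} (h1 : 1 ≤ v) (h2 : v ≤ (3 / 2))
    (h3 : 0 * v + (14 / 5) ≤ u) (h4 : u ≤ 0 * v + (39 / 8)) (hu : 0 ≤ u) :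
    pf u v ≤ fe u - fe v := by
  refine combine (lowD_2 hu) (upD_hi_0 (by linarith)) (low_2 hu) (up_hi_0 (by linarith)) ?_
  refine (bn5 (sub_nonneg.2 h1) (sub_nonneg.2 h2) (sub_nonneg.2 h3) (sub_nonneg.2 h4)).trans_eq ?_
  simp only [B4, O4, pf]
  ring

private theorem bn6 {a b k l : ℝ} (ha : 0 ≤ a) (hb : 0 ≤ b) (hk : 0 ≤ k) (hl : 0 ≤ l) :
    0 ≤ O5 a b
      (B4 k l (26370947473600 / 15109399071) (396281733532000 / 15109399071) (46823068406900 / 387420489) (1815021284437600 / 15109399071) (98853883483450 / 15109399071))
      (B4 k l (127021001337344 / 15109399071) (1935944244725120 / 15109399071) (3101725420955968 / 5036466357) (9572293451185784 / 15109399071) (746923933662158 / 15109399071))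
      (B4 k l (239637710154688 / 15109399071) (18589759806874208 / 75546995355) (31337458877350276 / 25182331785) (100178768025634496 / 75546995355) (10003964635943054 / 75546995355))
      (B4 k l (5473045477127296 / 377734976775) (87180493425032128 / 377734976775) (156667052639682488 / 125911658925) (519624295726090792 / 377734976775) (62400094657943266 / 377734976775))
      (B4 k l (2369846499816704 / 377734976775) (7904448468199552 / 75546995355) (77321857205613808 / 125911658925) (266823586171987904 / 377734976775) (37045063497019928 / 377734976775))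
      (B4 k l (28547203405312 / 29056536675) (104569564518656 / 5811307335) (1155017909710496 / 9685512225) (4166025744941536 / 29056536675) (650934450497368 / 29056536675)) :=
  O5n ha hb
    (B4n hk hl (by norm_num) (by norm_num) (by norm_num) (by norm_num) (by norm_num))
    (B4n hk hl (by norm_num) (by norm_num) (by norm_num) (by norm_num) (by norm_num))
    (B4n hk hl (by norm_num) (by norm_num) (by norm_num) (by norm_num) (by norm_num))
    (B4n hk hl (by norm_num) (by norm_num) (by norm_num) (by norm_num) (by norm_num))
    (B4n hk hl (by norm_num) (by norm_num) (by norm_num) (by norm_num) (by norm_num))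
    (B4n hk hl (by norm_num) (by norm_num) (by norm_num) (by norm_num) (by norm_num))

private theorem cell6 {u v : ℝ} (h1 : (3 / 2) ≤ v) (h2 : v ≤ (9 / 5))
    (h3 : 0 * v + (9 / 5) ≤ u) (h4 : u ≤ 0 * v + (117 / 20)) (hu : 0 ≤ u) :
    pf u v ≤ fe u - fe v := by
  refine combine (lowD_2 hu) (upD_lo_1 (by linarith)) (low_2 hu) (up_lo_1 (by linarith) (by linarith)) ?_
  refine (bn6 (sub_nonneg.2 h1) (sub_nonneg.2 h2) (sub_nonneg.2 h3) (sub_nonneg.2 h4)).trans_eq ?_
  simp only [B4, O5, pf]
  ring

private theorem bn7 {a b k l : ℝ} (ha : 0 ≤ a) (hb : 0 ≤ b) (hk : 0 ≤ k) (hl : 0 ≤ l) :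
    0 ≤ O7 a b
      (B4 k l (101338922750025641992843689984 / 348458759418324182069) (192632539542673683643795243008 / 348458759418324182069) (168859599166183100786908594176 / 348458759418324182069) (169608329629842292389005230080 / 348458759418324182069) (89573828080929304580456448000 / 348458759418324182069))
      (B4 k l (4207581342399792083158859513856 / 4529963872438214366897) (6109162499268875837357376405504 / 4529963872438214366897) (11620075746299901856545433976832 / 4529963872438214366897) (21946300952093251117800266661888 / 4529963872438214366897) (12002029606145367463977465937920 / 4529963872438214366897))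
      (B4 k l (4477500209414496306289402970112 / 4529963872438214366897) (12384684551166333246178005614592 / 4529963872438214366897) (66707265582914681342200582766592 / 4529963872438214366897) (114176552056859788138875979825152 / 4529963872438214366897) (54695992337734998155624806612992 / 4529963872438214366897))
      (B4 k l (5548563811331174129761077166080 / 4529963872438214366897) (58004000186344891369277840424960 / 4529963872438214366897) (235281364946770763244841897820160 / 4529963872438214366897) (317743979884325396694456172806144 / 4529963872438214366897) (133779140680486397061103145189376 / 4529963872438214366897))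
      (B4 k l (15125519747669291645912450334720 / 4529963872438214366897) (141362855258993661443438668677120 / 4529963872438214366897) (427621127341312357482151941242880 / 4529963872438214366897) (489641162082462259151525866635264 / 4529963872438214366897) (187114153598221559280692071759872 / 4529963872438214366897))
      (B4 k l (21411478213811099075293130784768 / 4529963872438214366897) (160868449815103491277359956361216 / 4529963872438214366897) (410065940440066792846536738865152 / 4529963872438214366897) (421355397361362026759411334119424 / 4529963872438214366897) (150058203185579564259613341646848 / 4529963872438214366897))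
      (B4 k l (13280334037026784883124411039744 / 4529963872438214366897) (86880643980913533127052708806656 / 4529963872438214366897) (199233596985029000383809032552448 / 4529963872438214366897) (190138577607202216938107113046016 / 4529963872438214366897) (64275214422140889239129375637504 / 4529963872438214366897))
      (B4 k l (3033214363806113833747300220928 / 4529963872438214366897) (18151105270360118982952089550848 / 4529963872438214366897) (38790250014202599214830109851648 / 4529963872438214366897) (35115832799880631220806795395072 / 4529963872438214366897) (11410524392425471791025370431488 / 4529963872438214366897)) :=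
  O7n ha hb
    (B4n hk hl (by norm_num) (by norm_num) (by norm_num) (by norm_num) (by norm_num))
    (B4n hk hl (by norm_num) (by norm_num) (by norm_num) (by norm_num) (by norm_num))
    (B4n hk hl (by norm_num) (by norm_num) (by norm_num) (by norm_num) (by norm_num))
    (B4n hk hl (by norm_num) (by norm_num) (by norm_num) (by norm_num) (by norm_num))
    (B4n hk hl (by norm_num) (by norm_num) (by norm_num) (by norm_num) (by norm_num))
    (B4n hk hl (by norm_num) (by norm_num) (by norm_num) (by norm_num) (by norm_num))
    (B4n hk hl (by norm_num) (by norm_num) (by norm_num) (by norm_num) (by norm_num))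
    (B4n hk hl (by norm_num) (by norm_num) (by norm_num) (by norm_num) (by norm_num))

private theorem cell7 {u v : ℝ} (h1 : (9 / 5) ≤ v) (h2 : v ≤ (317 / 160))
    (h3 : (13 / 2) * v + (-169 / 16) ≤ u) (h4 : u ≤ (13 / 2) * v + (-6383 / 640)) (hu : 0 ≤ u) :
    pf u v ≤ fe u - fe v := by
  refine combine (lowD_1 hu) (upD_lo_1 (by linarith)) (low_1 hu) (up_lo_1 (by linarith) (by linarith)) ?_
  refine (bn7 (sub_nonneg.2 h1) (sub_nonneg.2 h2) (sub_nonneg.2 h3) (sub_nonneg.2 h4)).trans_eq ?_
  simp only [B4, O7, pf]
  ring

private theorem bn8 {a b k l : ℝ} (ha : 0 ≤ a) (hb : 0 ≤ b) (hk : 0 ≤ k) (hl : 0 ≤ l) :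
    0 ≤ O6 a b
      (B4 k l (8085203963671901213854531584 / 156205650773731529893) (48887406619534425780884865024 / 156205650773731529893) (104318809048366258778730921984 / 156205650773731529893) (93633566101741206441113419776 / 156205650773731529893) (30078134445946063988236222464 / 156205650773731529893))
      (B4 k l (69112003137908302983695695872 / 156205650773731529893) (395123474424460742547877134336 / 156205650773731529893) (804463174784450154315928043520 / 156205650773731529893) (695725246971396428034660630528 / 156205650773731529893) (217041994568892850914126200832 / 156205650773731529893))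
      (B4 k l (235616521544219953421101301760 / 156205650773731529893) (1281645495190625158866256527360 / 156205650773731529893) (2507319477055337121538809790464 / 156205650773731529893) (2101034636926961634194579521536 / 156205650773731529893) (639168996729500790238740480000 / 156205650773731529893))
      (B4 k l (408278766142937905546395648000 / 156205650773731529893) (2133987251613797649174201630720 / 156205650773731529893) (4042405567930288702070621995008 / 156205650773731529893) (3300564460748544509953085276160 / 156205650773731529893) (983105814915230298925877428224 / 156205650773731529893))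
      (B4 k l (380978478461874534174519459840 / 156205650773731529893) (1930132383979881638731028889600 / 156205650773731529893) (3563518129592986038859984797696 / 156205650773731529893) (2848609374407538198036816592896 / 156205650773731529893) (833678170845389573083043463168 / 156205650773731529893))
      (B4 k l (182601811816945467334361874432 / 156205650773731529893) (902853427370969080947856637952 / 156205650773731529893) (1633095387354144602095714566144 / 156205650773731529893) (1283112301295217045654787325952 / 156205650773731529893) (370043506431577584573289070592 / 156205650773731529893))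
      (B4 k l (35315057868965733286948110336 / 156205650773731529893) (171309590582948034219645861888 / 156205650773731529893) (304823798817836716696560205824 / 156205650773731529893) (236135154542678729897904439296 / 156205650773731529893) (67268694635804753335242719232 / 156205650773731529893)) :=
  O6n ha hb
    (B4n hk hl (by norm_num) (by norm_num) (by norm_num) (by norm_num) (by norm_num))
    (B4n hk hl (by norm_num) (by norm_num) (by norm_num) (by norm_num) (by norm_num))
    (B4n hk hl (by norm_num) (by norm_num) (by norm_num) (by norm_num) (by norm_num))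
    (B4n hk hl (by norm_num) (by norm_num) (by norm_num) (by norm_num) (by norm_num))
    (B4n hk hl (by norm_num) (by norm_num) (by norm_num) (by norm_num) (by norm_num))
    (B4n hk hl (by norm_num) (by norm_num) (by norm_num) (by norm_num) (by norm_num))
    (B4n hk hl (by norm_num) (by norm_num) (by norm_num) (by norm_num) (by norm_num))

private theorem cell8 {u v : ℝ} (h1 : (317 / 160) ≤ v) (h2 : v ≤ (173 / 80))
    (h3 : (13 / 2) * v + (-169 / 16) ≤ u) (h4 : u ≤ (13 / 2) * v + (-6383 / 640)) (hu : 0 ≤ u) :
    pf u v ≤ fe u - fe v := by
  refine combine (lowD_2 hu) (upD_hi_0 (by linarith)) (low_2 hu) (up_hi_0 (by linarith)) ?_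
  refine (bn8 (sub_nonneg.2 h1) (sub_nonneg.2 h2) (sub_nonneg.2 h3) (sub_nonneg.2 h4)).trans_eq ?_
  simp only [B4, O6, pf]
  ring

private theorem bn9 {a b k l : ℝ} (ha : 0 ≤ a) (hb : 0 ≤ b) (hk : 0 ≤ k) (hl : 0 ≤ l) :
    0 ≤ O6 a b
      (B4 k l (53258935005546795761664000 / 156205650773731529893) (336588951104077282557296640 / 156205650773731529893) (806238296454022155347165184 / 156205650773731529893) (805718193250638942588370944 / 156205650773731529893) (282184926124760790359605248 / 156205650773731529893))
      (B4 k l (53422658414407779117957120 / 12015819290287040761) (1958441481593007705686016 / 71099522427733969) (718202596934228640673038336 / 12015819290287040761) (652024833351648383613272064 / 12015819290287040761) (211090004846484740804444160 / 12015819290287040761))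
      (B4 k l (3884387201583669252417060864 / 156205650773731529893) (20928013067621311886592049152 / 156205650773731529893) (40690634754825883263101829120 / 156205650773731529893) (33951984984136812966250020864 / 156205650773731529893) (10295763265501489222118277120 / 156205650773731529893))
      (B4 k l (9085812839235403856863297536 / 156205650773731529893) (45087930362031492945948966912 / 156205650773731529893) (81974109041175057342041948160 / 156205650773731529893) (64764523222844363869821861888 / 156205650773731529893) (18780384510616251768741298176 / 156205650773731529893))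
      (B4 k l (10051688103169589791061311488 / 156205650773731529893) (47517539156322917014928621568 / 156205650773731529893) (82856527135274360931150200832 / 156205650773731529893) (63156546701742183816603107328 / 156205650773731529893) (17756876957765096225095286784 / 156205650773731529893))
      (B4 k l (5257419453880103892736278528 / 156205650773731529893) (24099766953941429393106665472 / 156205650773731529893) (40877534546170909558157869056 / 156205650773731529893) (30396461773358404511383683072 / 156205650773731529893) (8357729675546952009756180480 / 156205650773731529893))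
      (B4 k l (1051073353684449270863167488 / 156205650773731529893) (4718975039746239012250583040 / 156205650773731529893) (7850961606579350271171231744 / 156205650773731529893) (5733780914406346570617323520 / 156205650773731529893) (1550139840716605403352268800 / 156205650773731529893)) :=
  O6n ha hb
    (B4n hk hl (by norm_num) (by norm_num) (by norm_num) (by norm_num) (by norm_num))
    (B4n hk hl (by norm_num) (by norm_num) (by norm_num) (by norm_num) (by norm_num))
    (B4n hk hl (by norm_num) (by norm_num) (by norm_num) (by norm_num) (by norm_num))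
    (B4n hk hl (by norm_num) (by norm_num) (by norm_num) (by norm_num) (by norm_num))
    (B4n hk hl (by norm_num) (by norm_num) (by norm_num) (by norm_num) (by norm_num))
    (B4n hk hl (by norm_num) (by norm_num) (by norm_num) (by norm_num) (by norm_num))
    (B4n hk hl (by norm_num) (by norm_num) (by norm_num) (by norm_num) (by norm_num))

private theorem cell9 {u v : ℝ} (h1 : (9 / 5) ≤ v) (h2 : v ≤ (173 / 80))
    (h3 : (13 / 2) * v + (-6383 / 640) ≤ u) (h4 : u ≤ (13 / 2) * v + (-3003 / 320)) (hu : 0 ≤ u) :
    pf u v ≤ fe u - fe v := by
  refine combine (lowD_2 hu) (upD_hi_0 (by linarith)) (low_2 hu) (up_hi_0 (by linarith)) ?_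
  refine (bn9 (sub_nonneg.2 h1) (sub_nonneg.2 h2) (sub_nonneg.2 h3) (sub_nonneg.2 h4)).trans_eq ?_
  simp only [B4, O6, pf]
  ring

private theorem bn10 {a b k l : ℝ} (ha : 0 ≤ a) (hb : 0 ≤ b) (hk : 0 ≤ k) (hl : 0 ≤ l) :
    0 ≤ O6 a b
      (B4 k l (94448360178147375666167808 / 156205650773731529893) (533218454449279983100624896 / 156205650773731529893) (1061642101418858532597399552 / 156205650773731529893) (884066818303719903099617280 / 156205650773731529893) (259664977113810955950489600 / 156205650773731529893))
      (B4 k l (721499935476641062151258112 / 156205650773731529893) (3896390408814290573608353792 / 156205650773731529893) (7460874086681841956070359040 / 156205650773731529893) (6009246596102272533556887552 / 156205650773731529893) (1714279135266434079106007040 / 156205650773731529893))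
      (B4 k l (2168221114008028828485550080 / 156205650773731529893) (11284099282630403745078312960 / 156205650773731529893) (20920139617264523331064823808 / 156205650773731529893) (16376705695401763053974323200 / 156205650773731529893) (4550501118075287465620144128 / 156205650773731529893))
      (B4 k l (3265905057397907187459686400 / 156205650773731529893) (16538156245695550185862594560 / 156205650773731529893) (29902068784109402281274769408 / 156205650773731529893) (22863056082982179102120738816 / 156205650773731529893) (6204707766505910782372872192 / 156205650773731529893))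
      (B4 k l (2603981257670297519212462080 / 156205650773731529893) (12956364543473476715308646400 / 156205650773731529893) (23008762065670610457427181568 / 156205650773731529893) (17265648483216457677146161152 / 156205650773731529893) (4588445349177747579896463360 / 156205650773731529893))
      (B4 k l (1048271496119720763470118912 / 156205650773731529893) (5176554226605561416823865344 / 156205650773731529893) (9095277334442980227831300096 / 156205650773731529893) (6733139913162212371467337728 / 156205650773731529893) (1758056481323865457522900992 / 156205650773731529893))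
      (B4 k l (169360849755351068713156608 / 156205650773731529893) (838758971032464848792322048 / 156205650773731529893) (1469686976585566818064662528 / 156205650773731529893) (1080361965794946488909955072 / 156205650773731529893) (278767031346920096530956288 / 156205650773731529893)) :=
  O6n ha hb
    (B4n hk hl (by norm_num) (by norm_num) (by norm_num) (by norm_num) (by norm_num))
    (B4n hk hl (by norm_num) (by norm_num) (by norm_num) (by norm_num) (by norm_num))
    (B4n hk hl (by norm_num) (by norm_num) (by norm_num) (by norm_num) (by norm_num))
    (B4n hk hl (by norm_num) (by norm_num) (by norm_num) (by norm_num) (by norm_num))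
    (B4n hk hl (by norm_num) (by norm_num) (by norm_num) (by norm_num) (by norm_num))
    (B4n hk hl (by norm_num) (by norm_num) (by norm_num) (by norm_num) (by norm_num))
    (B4n hk hl (by norm_num) (by norm_num) (by norm_num) (by norm_num) (by norm_num))

private theorem cell10 {u v : ℝ} (h1 : (173 / 80) ≤ v) (h2 : v ≤ (101 / 40))
    (h3 : (13 / 2) * v + (-169 / 16) ≤ u) (h4 : u ≤ (13 / 2) * v + (-3003 / 320)) (hu : 0 ≤ u) :
    pf u v ≤ fe u - fe v := by
  refine combine (lowD_2 hu) (upD_hi_1 (by linarith)) (low_2 hu) (up_hi_1 (by linarith)) ?_
  refine (bn10 (sub_nonneg.2 h1) (sub_nonneg.2 h2) (sub_nonneg.2 h3) (sub_nonneg.2 h4)).trans_eq ?_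
  simp only [B4, O6, pf]
  ring

private theorem bn11 {a b k l : ℝ} (ha : 0 ≤ a) (hb : 0 ≤ b) (hk : 0 ≤ k) (hl : 0 ≤ l) :
    0 ≤ O6 a b
      (B4 k l (275571216918711709335552 / 156205650773731529893) (1733186256831886327283712 / 156205650773731529893) (3867198943400068685758464 / 156205650773731529893) (3539254972659742116151296 / 156205650773731529893) (1119905650885559240884224 / 156205650773731529893))
      (B4 k l (3706279852793006365974528 / 156205650773731529893) (20806732242033607019790336 / 156205650773731529893) (41167719305471571467894784 / 156205650773731529893) (34050752497260381771399168 / 156205650773731529893) (9925816025294024157560832 / 156205650773731529893))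
      (B4 k l (17552857738119484803993600 / 156205650773731529893) (87332565319167125979758592 / 156205650773731529893) (156458206985396259461234688 / 156205650773731529893) (119182307867644299373314048 / 156205650773731529893) (32362835650839252498186240 / 156205650773731529893))
      (B4 k l (33936100170407229880860672 / 156205650773731529893) (156654063679688117190918144 / 156205650773731529893) (262300544876160961443790848 / 156205650773731529893) (187544137891975507275153408 / 156205650773731529893) (47779052466877810631245824 / 156205650773731529893))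
      (B4 k l (29129388743430290750791680 / 156205650773731529893) (127749645924630825378054144 / 156205650773731529893) (202783065457381113637306368 / 156205650773731529893) (136576257376860739383066624 / 156205650773731529893) (32281559517721328494706688 / 156205650773731529893))
      (B4 k l (10715716844804737858854912 / 156205650773731529893) (45145244579052862386536448 / 156205650773731529893) (68008514570154254675017728 / 156205650773731529893) (42514131348994680670126080 / 156205650773731529893) (8884741540951241092104192 / 156205650773731529893))
      (B4 k l (1567825478314376339705856 / 156205650773731529893) (6460828235256306904694784 / 156205650773731529893) (9373585218276682791223296 / 156205650773731529893) (5481386756177346836692992 / 156205650773731529893) (992855522454825145270272 / 156205650773731529893)) :=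
  O6n ha hb
    (B4n hk hl (by norm_num) (by norm_num) (by norm_num) (by norm_num) (by norm_num))
    (B4n hk hl (by norm_num) (by norm_num) (by norm_num) (by norm_num) (by norm_num))
    (B4n hk hl (by norm_num) (by norm_num) (by norm_num) (by norm_num) (by norm_num))
    (B4n hk hl (by norm_num) (by norm_num) (by norm_num) (by norm_num) (by norm_num))
    (B4n hk hl (by norm_num) (by norm_num) (by norm_num) (by norm_num) (by norm_num))
    (B4n hk hl (by norm_num) (by norm_num) (by norm_num) (by norm_num) (by norm_num))
    (B4n hk hl (by norm_num) (by norm_num) (by norm_num) (by norm_num) (by norm_num))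

private theorem cell11 {u v : ℝ} (h1 : (9 / 5) ≤ v) (h2 : v ≤ (101 / 40))
    (h3 : (13 / 2) * v + (-3003 / 320) ≤ u) (h4 : u ≤ (13 / 2) * v + (-1313 / 160)) (hu : 0 ≤ u) :
    pf u v ≤ fe u - fe v := by
  refine combine (lowD_2 hu) (upD_hi_0 (by linarith)) (low_2 hu) (up_hi_0 (by linarith)) ?_
  refine (bn11 (sub_nonneg.2 h1) (sub_nonneg.2 h2) (sub_nonneg.2 h3) (sub_nonneg.2 h4)).trans_eq ?_
  simp only [B4, O6, pf]
  ring

private theorem bn12 {a b k l : ℝ} (ha : 0 ≤ a) (hb : 0 ≤ b) (hk : 0 ≤ k) (hl : 0 ≤ l) :
    0 ≤ O6 a b
      (B4 k l (376611673108165429297152 / 156205650773731529893) (2186863604303263030050816 / 156205650773731529893) (3968205389219904939491328 / 156205650773731529893) (2568303617846914000945152 / 156205650773731529893) (389942673266272999809024 / 156205650773731529893))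
      (B4 k l (2042535358592168094597120 / 156205650773731529893) (12024468348198778474856448 / 156205650773731529893) (21287449205141032199651328 / 156205650773731529893) (12872802602350467685416960 / 156205650773731529893) (1452727500098769301192704 / 156205650773731529893))
      (B4 k l (3769806595098416515645440 / 156205650773731529893) (25085327043776213251522560 / 156205650773731529893) (46055815733497276409905152 / 156205650773731529893) (27756059356269497553518592 / 156205650773731529893) (2750869320023486585880576 / 156205650773731529893))
      (B4 k l (3322047993012283991654400 / 156205650773731529893) (30855403564852205298647040 / 156205650773731529893) (65383433585391964982476800 / 156205650773731529893) (46496135312280236582240256 / 156205650773731529893) (8323917429078160132669440 / 156205650773731529893))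
      (B4 k l (3730473872724671348736000 / 156205650773731529893) (36584509641626993550950400 / 156205650773731529893) (84828234825337459209338880 / 156205650773731529893) (71640724592141663145492480 / 156205650773731529893) (19449997866480354865422336 / 156205650773731529893))
      (B4 k l (4976426952630280028160000 / 156205650773731529893) (35410896550372070326272000 / 156205650773731529893) (77372816482519051832524800 / 156205650773731529893) (67423680591994464139345920 / 156205650773731529893) (20409468486260214056632320 / 156205650773731529893))
      (B4 k l (2485061451900715008000000 / 156205650773731529893) (14517841328105529016320000 / 156205650773731529893) (29317103056580825579520000 / 156205650773731529893) (24911304094756038456115200 / 156205650773731529893) (7616246844264265226649600 / 156205650773731529893)) :=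
  O6n ha hb
    (B4n hk hl (by norm_num) (by norm_num) (by norm_num) (by norm_num) (by norm_num))
    (B4n hk hl (by norm_num) (by norm_num) (by norm_num) (by norm_num) (by norm_num))
    (B4n hk hl (by norm_num) (by norm_num) (by norm_num) (by norm_num) (by norm_num))
    (B4n hk hl (by norm_num) (by norm_num) (by norm_num) (by norm_num) (by norm_num))
    (B4n hk hl (by norm_num) (by norm_num) (by norm_num) (by norm_num) (by norm_num))
    (B4n hk hl (by norm_num) (by norm_num) (by norm_num) (by norm_num) (by norm_num))
    (B4n hk hl (by norm_num) (by norm_num) (by norm_num) (by norm_num) (by norm_num))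

private theorem cell12 {u v : ℝ} (h1 : (101 / 40) ≤ v) (h2 : v ≤ (13 / 4))
    (h3 : (13 / 2) * v + (-169 / 16) ≤ u) (h4 : u ≤ (13 / 2) * v + (-1313 / 160)) (hu : 0 ≤ u) :
    pf u v ≤ fe u - fe v := by
  refine combine (lowD_3 hu) (upD_hi_1 (by linarith)) (low_3 hu) (up_hi_1 (by linarith)) ?_
  refine (bn12 (sub_nonneg.2 h1) (sub_nonneg.2 h2) (sub_nonneg.2 h3) (sub_nonneg.2 h4)).trans_eq ?_
  simp only [B4, O6, pf]
  ring

private theorem bn13 {a b k l : ℝ} (ha : 0 ≤ a) (hb : 0 ≤ b) (hk : 0 ≤ k) (hl : 0 ≤ l) :
    0 ≤ O6 a b
      (B4 k l (71673961656675791416590336 / 156205650773731529893) (346879375003182835899039744 / 156205650773731529893) (608601902636482417284612096 / 156205650773731529893) (454497963084120238734704640 / 156205650773731529893) (120476487023758382255308800 / 156205650773731529893))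
      (B4 k l (40972922906110472868593664 / 12015819290287040761) (14745697914630097487265792 / 924293791560541597) (325265765664334983978811392 / 12015819290287040761) (235053321504672352045105152 / 12015819290287040761) (60222522278672637253386240 / 12015819290287040761))
      (B4 k l (1580648008649484190388060160 / 156205650773731529893) (7164785750094396083543212032 / 156205650773731529893) (11778038895598838285339197440 / 156205650773731529893) (8237638531937078935448715264 / 156205650773731529893) (2034524547936069428059766784 / 156205650773731529893))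
      (B4 k l (2391093346727089976138268672 / 156205650773731529893) (10524218823509908890662731776 / 156205650773731529893) (16776308977532998618120716288 / 156205650773731529893) (11339874143173323678126440448 / 156205650773731529893) (2684543448574000126405902336 / 156205650773731529893))
      (B4 k l (1943409903358455622265733120 / 156205650773731529893) (8315683755583032950507175936 / 156205650773731529893) (12844741329711095967471108096 / 156205650773731529893) (8356787778712519184555704320 / 156205650773731529893) (1875326639369946661101109248 / 156205650773731529893))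
      (B4 k l (805169749224335632402219008 / 156205650773731529893) (3348322826651724578599993344 / 156205650773731529893) (4996564775011777641106636800 / 156205650773731529893) (3103077620414742414703460352 / 156205650773731529893) (646120871128485275954577408 / 156205650773731529893))
      (B4 k l (133346766375024041259958272 / 156205650773731529893) (537885902288619632653762560 / 156205650773731529893) (770951856087381717845803008 / 156205650773731529893) (450390854650199868669689856 / 156205650773731529893) (83396981304233104736452608 / 156205650773731529893)) :=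
  O6n ha hb
    (B4n hk hl (by norm_num) (by norm_num) (by norm_num) (by norm_num) (by norm_num))
    (B4n hk hl (by norm_num) (by norm_num) (by norm_num) (by norm_num) (by norm_num))
    (B4n hk hl (by norm_num) (by norm_num) (by norm_num) (by norm_num) (by norm_num))
    (B4n hk hl (by norm_num) (by norm_num) (by norm_num) (by norm_num) (by norm_num))
    (B4n hk hl (by norm_num) (by norm_num) (by norm_num) (by norm_num) (by norm_num))
    (B4n hk hl (by norm_num) (by norm_num) (by norm_num) (by norm_num) (by norm_num))
    (B4n hk hl (by norm_num) (by norm_num) (by norm_num) (by norm_num) (by norm_num))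

private theorem cell13 {u v : ℝ} (h1 : (9 / 5) ≤ v) (h2 : v ≤ (173 / 80))
    (h3 : (13 / 2) * v + (-1313 / 160) ≤ u) (h4 : u ≤ (13 / 2) * v + (-2249 / 320)) (hu : 0 ≤ u) :
    pf u v ≤ fe u - fe v := by
  refine combine (lowD_2 hu) (upD_hi_0 (by linarith)) (low_2 hu) (up_hi_0 (by linarith)) ?_
  refine (bn13 (sub_nonneg.2 h1) (sub_nonneg.2 h2) (sub_nonneg.2 h3) (sub_nonneg.2 h4)).trans_eq ?_
  simp only [B4, O6, pf]
  ring

private theorem bn14 {a b k l : ℝ} (ha : 0 ≤ a) (hb : 0 ≤ b) (hk : 0 ≤ k) (hl : 0 ≤ l) :
    0 ≤ O6 a b
      (B4 k l (12996580558774011748033757184 / 156205650773731529893) (51897831234603038734106492928 / 156205650773731529893) (76706607695843787339328389120 / 156205650773731529893) (49596664576144604784419143680 / 156205650773731529893) (11789777722087661409177305088 / 156205650773731529893))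
      (B4 k l (76196052363403576098529738752 / 156205650773731529893) (299600288072985104354755215360 / 156205650773731529893) (434907041823813834993366466560 / 156205650773731529893) (275142888987868440333643677696 / 156205650773731529893) (63631099026144487586665070592 / 156205650773731529893))
      (B4 k l (178816621852568752900999741440 / 156205650773731529893) (690093373565039825207433363456 / 156205650773731529893) (979101898260572470597996511232 / 156205650773731529893) (601564093478313704998274334720 / 156205650773731529893) (133717003801527979532829327360 / 156205650773731529893))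
      (B4 k l (214036649914576612735850643456 / 156205650773731529893) (806550201821845519803239890944 / 156205650773731529893) (1109393259010141738389064384512 / 156205650773731529893) (653136477032800560423087636480 / 156205650773731529893) (136228239209263220064536494080 / 156205650773731529893))
      (B4 k l (137634683738066133164885016576 / 156205650773731529893) (502435169750456492486968737792 / 156205650773731529893) (660994388651315502228430651392 / 156205650773731529893) (363635607268954569497200558080 / 156205650773731529893) (67420880275858147754934927360 / 156205650773731529893))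
      (B4 k l (45598643148342433344468811776 / 156205650773731529893) (159678770903017286811235909632 / 156205650773731529893) (196979918244622948373870149632 / 156205650773731529893) (96695554804343825134214184960 / 156205650773731529893) (13787675486514522887644250112 / 156205650773731529893))
      (B4 k l (6388820758794616828871049216 / 156205650773731529893) (21424332175272124396483903488 / 156205650773731529893) (24509493362132116374187671552 / 156205650773731529893) (10200001429123516466812944384 / 156205650773731529893) (724713404329334305844625408 / 156205650773731529893)) :=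
  O6n ha hb
    (B4n hk hl (by norm_num) (by norm_num) (by norm_num) (by norm_num) (by norm_num))
    (B4n hk hl (by norm_num) (by norm_num) (by norm_num) (by norm_num) (by norm_num))
    (B4n hk hl (by norm_num) (by norm_num) (by norm_num) (by norm_num) (by norm_num))
    (B4n hk hl (by norm_num) (by norm_num) (by norm_num) (by norm_num) (by norm_num))
    (B4n hk hl (by norm_num) (by norm_num) (by norm_num) (by norm_num) (by norm_num))
    (B4n hk hl (by norm_num) (by norm_num) (by norm_num) (by norm_num) (by norm_num))
    (B4n hk hl (by norm_num) (by norm_num) (by norm_num) (by norm_num) (by norm_num))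

private theorem cell14 {u v : ℝ} (h1 : (173 / 80) ≤ v) (h2 : v ≤ (101 / 40))
    (h3 : (13 / 2) * v + (-1313 / 160) ≤ u) (h4 : u ≤ (13 / 2) * v + (-975 / 128)) (hu : 0 ≤ u) :
    pf u v ≤ fe u - fe v := by
  refine combine (lowD_3 hu) (upD_hi_1 (by linarith)) (low_3 hu) (up_hi_1 (by linarith)) ?_
  refine (bn14 (sub_nonneg.2 h1) (sub_nonneg.2 h2) (sub_nonneg.2 h3) (sub_nonneg.2 h4)).trans_eq ?_
  simp only [B4, O6, pf]
  ring

private theorem bn15 {a b k l : ℝ} (ha : 0 ≤ a) (hb : 0 ≤ b) (hk : 0 ≤ k) (hl : 0 ≤ l) :
    0 ≤ O6 a b
      (B4 k l (12072732387417765282997560410112 / 156205650773731529893) (47042902061520554048362760896512 / 156205650773731529893) (68348063616838671456033426112512 / 156205650773731529893) (43843566767362916904153076727808 / 156205650773731529893) (10465574915248334500077735247872 / 156205650773731529893))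
      (B4 k l (68797319863639273493365197373440 / 156205650773731529893) (266166862811983207285910598057984 / 156205650773731529893) (383565840558650440181922637283328 / 156205650773731529893) (243731830223436249973700312432640 / 156205650773731529893) (57534951401873911771786924523520 / 156205650773731529893))
      (B4 k l (160952106179472726682576449699840 / 156205650773731529893) (617395388173178762856062873763840 / 156205650773731529893) (880896931616729723799405160562688 / 156205650773731529893) (553195365065745982638803336036352 / 156205650773731529893) (128740278484693890172038791823360 / 156205650773731529893))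
      (B4 k l (197529958287177375007494478233600 / 156205650773731529893) (749803427652815809760742573342720 / 156205650773731529893) (1056549097135414844282207175966720 / 156205650773731529893) (653514460402569713340982128279552 / 156205650773731529893) (149236938725664008305859012591616 / 156205650773731529893))
      (B4 k l (133860177715556830857589161984000 / 156205650773731529893) (501471195645082042558052302848000 / 156205650773731529893) (695323262665587506149896770027520 / 156205650773731529893) (421454685625634918738687447531520 / 156205650773731529893) (93741037444477344391581784866816 / 156205650773731529893))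
      (B4 k l (47394442570732185699546562560000 / 156205650773731529893) (174559823316391205465028034560000 / 156205650773731529893) (236880877586188725243889267507200 / 156205650773731529893) (139572953526201366241794997616640 / 156205650773731529893) (29856902284762328905390070169600 / 156205650773731529893))
      (B4 k l (6836790222811605656666112000000 / 156205650773731529893) (24620971036249240166895452160000 / 156205650773731529893) (32428072083358673979221999616000 / 156205650773731529893) (18325969828303888392525761740800 / 156205650773731529893) (3681987351590774198760741273600 / 156205650773731529893)) :=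
  O6n ha hb
    (B4n hk hl (by norm_num) (by norm_num) (by norm_num) (by norm_num) (by norm_num))
    (B4n hk hl (by norm_num) (by norm_num) (by norm_num) (by norm_num) (by norm_num))
    (B4n hk hl (by norm_num) (by norm_num) (by norm_num) (by norm_num) (by norm_num))
    (B4n hk hl (by norm_num) (by norm_num) (by norm_num) (by norm_num) (by norm_num))
    (B4n hk hl (by norm_num) (by norm_num) (by norm_num) (by norm_num) (by norm_num))
    (B4n hk hl (by norm_num) (by norm_num) (by norm_num) (by norm_num) (by norm_num))
    (B4n hk hl (by norm_num) (by norm_num) (by norm_num) (by norm_num) (by norm_num))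

private theorem cell15 {u v : ℝ} (h1 : (173 / 80) ≤ v) (h2 : v ≤ (75 / 32))
    (h3 : (13 / 2) * v + (-975 / 128) ≤ u) (h4 : u ≤ (13 / 2) * v + (-9373 / 1280)) (hu : 0 ≤ u) :
    pf u v ≤ fe u - fe v := by
  refine combine (lowD_3 hu) (upD_hi_1 (by linarith)) (low_3 hu) (up_hi_1 (by linarith)) ?_
  refine (bn15 (sub_nonneg.2 h1) (sub_nonneg.2 h2) (sub_nonneg.2 h3) (sub_nonneg.2 h4)).trans_eq ?_
  simp only [B4, O6, pf]
  ring

private theorem bn16 {a b k l : ℝ} (ha : 0 ≤ a) (hb : 0 ≤ b) (hk : 0 ≤ k) (hl : 0 ≤ l) :
    0 ≤ O6 a b
      (B4 k l (669796794575893408004975055863808 / 156205650773731529893) (2552386083495920582174003536330752 / 156205650773731529893) (3613469502631756674110759148453888 / 156205650773731529893) (2247996703067253307418979248111616 / 156205650773731529893) (517110223155287025819193165479936 / 156205650773731529893))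
      (B4 k l (3850508828587645400712106752344064 / 156205650773731529893) (14586687242217523160941053289168896 / 156205650773731529893) (20504846679511488353935699885424640 / 156205650773731529893) (12645845520444919296802786916696064 / 156205650773731529893) (2877139857202411740120710482231296 / 156205650773731529893))
      (B4 k l (54286263595056896239729178050560 / 924293791560541597) (2655607699801768303000017841422336 / 12015819290287040761) (3702728373968319110034781636657152 / 12015819290287040761) (2260401236065383350621872330899456 / 12015819290287040761) (507551982356953742188003618455552 / 12015819290287040761))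
      (B4 k l (11590872519905163013707505040621568 / 156205650773731529893) (43283095693263908255929959274512384 / 156205650773731529893) (59779685694064429769957416378564608 / 156205650773731529893) (36054221896489844327219473384734720 / 156205650773731529893) (7966636079469157981380102473121792 / 156205650773731529893))
      (B4 k l (8184906649108387382241707390140416 / 156205650773731529893) (30294684948976594226358646625796096 / 156205650773731529893) (41375276129703447606161610494705664 / 156205650773731529893) (24591634035822086209832500315815936 / 156205650773731529893) (5326044255315275810637000116011008 / 156205650773731529893))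
      (B4 k l (3060958227580688338307373758152704 / 156205650773731529893) (11212610384706460655277490776834048 / 156205650773731529893) (15110024856871866602755451906949120 / 156205650773731529893) (8820266540218451109513195744657408 / 156205650773731529893) (1861857271758051313971180884459520 / 156205650773731529893))
      (B4 k l (473257670608310592245495060496384 / 156205650773731529893) (1712422533427229701733313423605760 / 156205650773731529893) (2270343251226692581600575526797312 / 156205650773731529893) (1295487492548732035317328364175360 / 156205650773731529893) (264303045102369644851176564326400 / 156205650773731529893)) :=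
  O6n ha hb
    (B4n hk hl (by norm_num) (by norm_num) (by norm_num) (by norm_num) (by norm_num))
    (B4n hk hl (by norm_num) (by norm_num) (by norm_num) (by norm_num) (by norm_num))
    (B4n hk hl (by norm_num) (by norm_num) (by norm_num) (by norm_num) (by norm_num))
    (B4n hk hl (by norm_num) (by norm_num) (by norm_num) (by norm_num) (by norm_num))
    (B4n hk hl (by norm_num) (by norm_num) (by norm_num) (by norm_num) (by norm_num))
    (B4n hk hl (by norm_num) (by norm_num) (by norm_num) (by norm_num) (by norm_num))
    (B4n hk hl (by norm_num) (by norm_num) (by norm_num) (by norm_num) (by norm_num))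

private theorem cell16 {u v : ℝ} (h1 : (173 / 80) ≤ v) (h2 : v ≤ (721 / 320))
    (h3 : (13 / 2) * v + (-9373 / 1280) ≤ u) (h4 : u ≤ (13 / 2) * v + (-2249 / 320)) (hu : 0 ≤ u) :
    pf u v ≤ fe u - fe v := by
  refine combine (lowD_3 hu) (upD_hi_1 (by linarith)) (low_3 hu) (up_hi_1 (by linarith)) ?_
  refine (bn16 (sub_nonneg.2 h1) (sub_nonneg.2 h2) (sub_nonneg.2 h3) (sub_nonneg.2 h4)).trans_eq ?_
  simp only [B4, O6, pf]
  ring

private theorem bn17 {a b k l : ℝ} (ha : 0 ≤ a) (hb : 0 ≤ b) (hk : 0 ≤ k) (hl : 0 ≤ l) :
    0 ≤ O6 a b
      (B4 k l (7572122729732969475927920967942144 / 156205650773731529893) (28843625726883776565722349324730368 / 156205650773731529893) (40988627500632980961093944642371584 / 156205650773731529893) (25732944555434097345400799861145600 / 156205650773731529893) (6015813992913334555747888939401216 / 156205650773731529893))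
      (B4 k l (41890141115504620298217071484862464 / 156205650773731529893) (158471962362371606720612305421205504 / 156205650773731529893) (223409108501694257139398668562989056 / 156205650773731529893) (138951374028400528876637464490409984 / 156205650773731529893) (32124050633824496649149974201761792 / 156205650773731529893))
      (B4 k l (95532553756802232542362775014342656 / 156205650773731529893) (358376572373970623305385904219095040 / 156205650773731529893) (500248518464097932043101185939341312 / 156205650773731529893) (307468802435144075302723634721718272 / 156205650773731529893) (70064212782370684381857870596014080 / 156205650773731529893))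
      (B4 k l (114740461873025556339366614941040640 / 156205650773731529893) (425941514615228485648091073365409792 / 156205650773731529893) (587107376173141594063924589991297024 / 156205650773731529893) (355313846326524861240910067684868096 / 156205650773731529893) (79407403888926634660331770450280448 / 156205650773731529893))
      (B4 k l (76353371940390554086385473233616896 / 156205650773731529893) (279661479555149714811362585100681216 / 156205650773731529893) (379139655641103555976618822814662656 / 156205650773731529893) (224679785032657719602990931410681856 / 156205650773731529893) (48848148309488955390401330729189376 / 156205650773731529893))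
      (B4 k l (26597799113885170738152713119334400 / 156205650773731529893) (95707428924328702100097189292277760 / 156205650773731529893) (126838653813080972932636046650245120 / 156205650773731529893) (72934822667305239213464091497594880 / 156205650773731529893) (15205763412134620676160319484067840 / 156205650773731529893))
      (B4 k l (3770355048028952779530999064166400 / 156205650773731529893) (13239233736082125820212804373708800 / 156205650773731529893) (16978345117318524205969964217139200 / 156205650773731529893) (9318516489152183113779332618649600 / 156205650773731529893) (1809044222652139166105742606336000 / 156205650773731529893)) :=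
  O6n ha hb
    (B4n hk hl (by norm_num) (by norm_num) (by norm_num) (by norm_num) (by norm_num))
    (B4n hk hl (by norm_num) (by norm_num) (by norm_num) (by norm_num) (by norm_num))
    (B4n hk hl (by norm_num) (by norm_num) (by norm_num) (by norm_num) (by norm_num))
    (B4n hk hl (by norm_num) (by norm_num) (by norm_num) (by norm_num) (by norm_num))
    (B4n hk hl (by norm_num) (by norm_num) (by norm_num) (by norm_num) (by norm_num))
    (B4n hk hl (by norm_num) (by norm_num) (by norm_num) (by norm_num) (by norm_num))
    (B4n hk hl (by norm_num) (by norm_num) (by norm_num) (by norm_num) (by norm_num))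

private theorem cell17 {u v : ℝ} (h1 : (721 / 320) ≤ v) (h2 : v ≤ (75 / 32))
    (h3 : (13 / 2) * v + (-9373 / 1280) ≤ u) (h4 : u ≤ (13 / 2) * v + (-18369 / 2560)) (hu : 0 ≤ u) :
    pf u v ≤ fe u - fe v := by
  refine combine (lowD_3 hu) (upD_hi_1 (by linarith)) (low_3 hu) (up_hi_1 (by linarith)) ?_
  refine (bn17 (sub_nonneg.2 h1) (sub_nonneg.2 h2) (sub_nonneg.2 h3) (sub_nonneg.2 h4)).trans_eq ?_
  simp only [B4, O6, pf]
  ring

private theorem bn18 {a b k l : ℝ} (ha : 0 ≤ a) (hb : 0 ≤ b) (hk : 0 ≤ k) (hl : 0 ≤ l) :
    0 ≤ O6 a b
      (B4 k l (7000873188159084192426098688000000 / 156205650773731529893) (26607683546877779350302668881920000 / 156205650773731529893) (37711801991417863275495687192576000 / 156205650773731529893) (23602200063361968573225032377958400 / 156205650773731529893) (5497202593428107673220484274585600 / 156205650773731529893))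
      (B4 k l (38741904097216878653667048161280000 / 156205650773731529893) (146249927960474107397341163028480000 / 156205650773731529893) (205655561543912071132420833175142400 / 156205650773731529893) (127517915838694121899963282662359040 / 156205650773731529893) (29370343363756143089203592634040320 / 156205650773731529893))
      (B4 k l (88553016123940047107664855957504000 / 156205650773731529893) (331589864029366351253859993649152000 / 156205650773731529893) (461828860986214823559230479694561280 / 156205650773731529893) (283072692931876543131955602621726720 / 156205650773731529893) (64280593445513857480968519964164096 / 156205650773731529893))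
      (B4 k l (106900360096239991926282920342323200 / 156205650773731529893) (396379355788483177401807832161976320 / 156205650773731529893) (545553213445831463216372160732856320 / 156205650773731529893) (329533271165085493435767807528665088 / 156205650773731529893) (73458938987338059315534691106291712 / 156205650773731529893))
      (B4 k l (71797293110614780921388485218140160 / 156205650773731529893) (263016557989212541054444461977763840 / 156205650773731529893) (356615807307489512619721460576944128 / 156205650773731529893) (211343828447221574778328256757104640 / 156205650773731529893) (45947200794986378096867363707158528 / 156205650773731529893))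
      (B4 k l (25401489294474609059910577343692800 / 156205650773731529893) (91651768620675250961057652676755456 / 156205650773731529893) (121881628345296888524634915700998144 / 156205650773731529893) (70403041760730733065022697493233664 / 156205650773731529893) (14771658893135927654046950542540800 / 156205650773731529893))
      (B4 k l (3692572437756928926851874718482432 / 156205650773731529893) (13066952294333310135482598297698304 / 156205650773731529893) (16933941285154392469804894553899008 / 156205650773731529893) (9435512812207707951127970866790400 / 156205650773731529893) (1875945782841148316199635071795200 / 156205650773731529893)) :=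
  O6n ha hb
    (B4n hk hl (by norm_num) (by norm_num) (by norm_num) (by norm_num) (by norm_num))
    (B4n hk hl (by norm_num) (by norm_num) (by norm_num) (by norm_num) (by norm_num))
    (B4n hk hl (by norm_num) (by norm_num) (by norm_num) (by norm_num) (by norm_num))
    (B4n hk hl (by norm_num) (by norm_num) (by norm_num) (by norm_num) (by norm_num))
    (B4n hk hl (by norm_num) (by norm_num) (by norm_num) (by norm_num) (by norm_num))
    (B4n hk hl (by norm_num) (by norm_num) (by norm_num) (by norm_num) (by norm_num))
    (B4n hk hl (by norm_num) (by norm_num) (by norm_num) (by norm_num) (by norm_num))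

private theorem cell18 {u v : ℝ} (h1 : (75 / 32) ≤ v) (h2 : v ≤ (779 / 320))
    (h3 : (13 / 2) * v + (-975 / 128) ≤ u) (h4 : u ≤ (13 / 2) * v + (-19123 / 2560)) (hu : 0 ≤ u) :
    pf u v ≤ fe u - fe v := by
  refine combine (lowD_3 hu) (upD_hi_1 (by linarith)) (low_3 hu) (up_hi_1 (by linarith)) ?_
  refine (bn18 (sub_nonneg.2 h1) (sub_nonneg.2 h2) (sub_nonneg.2 h3) (sub_nonneg.2 h4)).trans_eq ?_
  simp only [B4, O6, pf]
  ring

private theorem bn19 {a b k l : ℝ} (ha : 0 ≤ a) (hb : 0 ≤ b) (hk : 0 ≤ k) (hl : 0 ≤ l) :
    0 ≤ O6 a b
      (B4 k l (4638218431352242758588825600 / 156205650773731529893) (18940464121207767644189491200 / 156205650773731529893) (28676064540714800161524547584 / 156205650773731529893) (19039702387951259603806715904 / 156205650773731529893) (4665258550321597844205600768 / 156205650773731529893))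
      (B4 k l (2275408567273444137133670400 / 12015819290287040761) (9144218080738303764326252544 / 12015819290287040761) (13605743244733628435342032896 / 12015819290287040761) (8859866733879457843714719744 / 12015819290287040761) (2122646819064943510286499840 / 12015819290287040761))
      (B4 k l (75380506932711451214446854144 / 156205650773731529893) (297508044898426523108750917632 / 156205650773731529893) (433664300868138422678881566720 / 156205650773731529893) (275647970475649056576143622144 / 156205650773731529893) (64101994743378622676361216000 / 156205650773731529893))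
      (B4 k l (97569544813331086731814895616 / 156205650773731529893) (376639274465033618701431078912 / 156205650773731529893) (534570645837282657525521448960 / 156205650773731529893) (328587576885453931269385617408 / 156205650773731529893) (73074513506024661865356066816 / 156205650773731529893))
      (B4 k l (66964036583947380164476796928 / 156205650773731529893) (250806483337535906516909948928 / 156205650773731529893) (342367977750669724448034127872 / 156205650773731529893) (199482234767974547655452786688 / 156205650773731529893) (40947710109037295675626881024 / 156205650773731529893))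
      (B4 k l (22738201691198371586006581248 / 156205650773731529893) (81274823263696644023739482112 / 156205650773731529893) (103787081428267446391585898496 / 156205650773731529893) (54425318003122694359615537152 / 156205650773731529893) (9171313095651651961922519040 / 156205650773731529893))
      (B4 k l (2907976672013604195016900608 / 156205650773731529893) (9544663384919799319442227200 / 156205650773731529893) (10540130733207003679934644224 / 156205650773731529893) (4031977761196498689770127360 / 156205650773731529893) (127952587723509496779571200 / 156205650773731529893)) :=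
  O6n ha hb
    (B4n hk hl (by norm_num) (by norm_num) (by norm_num) (by norm_num) (by norm_num))
    (B4n hk hl (by norm_num) (by norm_num) (by norm_num) (by norm_num) (by norm_num))
    (B4n hk hl (by norm_num) (by norm_num) (by norm_num) (by norm_num) (by norm_num))
    (B4n hk hl (by norm_num) (by norm_num) (by norm_num) (by norm_num) (by norm_num))
    (B4n hk hl (by norm_num) (by norm_num) (by norm_num) (by norm_num) (by norm_num))
    (B4n hk hl (by norm_num) (by norm_num) (by norm_num) (by norm_num) (by norm_num))
    (B4n hk hl (by norm_num) (by norm_num) (by norm_num) (by norm_num) (by norm_num))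

private theorem cell19 {u v : ℝ} (h1 : (9 / 5) ≤ v) (h2 : v ≤ (173 / 80))
    (h3 : (13 / 2) * v + (-2249 / 320) ≤ u) (h4 : u ≤ (13 / 2) * v + (-4121 / 640)) (hu : 0 ≤ u) :
    pf u v ≤ fe u - fe v := by
  refine combine (lowD_3 hu) (upD_hi_0 (by linarith)) (low_3 hu) (up_hi_0 (by linarith)) ?_
  refine (bn19 (sub_nonneg.2 h1) (sub_nonneg.2 h2) (sub_nonneg.2 h3) (sub_nonneg.2 h4)).trans_eq ?_
  simp only [B4, O6, pf]
  ring

private theorem bn20 {a b k l : ℝ} (ha : 0 ≤ a) (hb : 0 ≤ b) (hk : 0 ≤ k) (hl : 0 ≤ l) :
    0 ≤ O7 a b
      (B4 k l (18481592395860533544908438372352 / 348458759418324182069) (72434764947127808046598465781760 / 348458759418324182069) (104631519274527957106553455116288 / 348458759418324182069) (65701814941278924554852678762496 / 348458759418324182069) (15020999698842864021316659314688 / 348458759418324182069))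
      (B4 k l (1686689234107465577850324891205632 / 4529963872438214366897) (6545010828559311508004310003744768 / 4529963872438214366897) (9341374634622435085161688480088064 / 4529963872438214366897) (5777543889561867897101848424742912 / 4529963872438214366897) (1294265072634761676542669173555200 / 4529963872438214366897))
      (B4 k l (5024188219477813462971866249428992 / 4529963872438214366897) (19277926843062680943117273032294400 / 4529963872438214366897) (27134150961993659435196764274032640 / 4529963872438214366897) (16479757228422953787149023130419200 / 4529963872438214366897) (3598664411536199886516726446161920 / 4529963872438214366897))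
      (B4 k l (8222466381196418431756046296940544 / 4529963872438214366897) (31144175110599675123225139460702208 / 4529963872438214366897) (43116849774808382520617114567442432 / 4529963872438214366897) (25604003988540005565016017601560576 / 4529963872438214366897) (5407724032502797782239968304824320 / 4529963872438214366897))
      (B4 k l (7973657412259617371345709453803520 / 4529963872438214366897) (29744192365626515704460633727565824 / 4529963872438214366897) (40353052320894791824405586182668288 / 4529963872438214366897) (23279988811141194664602822185582592 / 4529963872438214366897) (4696328226959048461125952204701696 / 4529963872438214366897))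
      (B4 k l (4573381420615759032925533398630400 / 4529963872438214366897) (16747093368712551262851869158932480 / 4529963872438214366897) (22144529241782128733834433936752640 / 4529963872438214366897) (12287749999991196577357085320151040 / 4529963872438214366897) (2316244480968852011593659064516608 / 4529963872438214366897))
      (B4 k l (1433032644315646652571260320481280 / 4529963872438214366897) (5127205864138501577153748683194368 / 4529963872438214366897) (6553368574849580685944351449153536 / 4529963872438214366897) (3439190535581008355923621400543232 / 4529963872438214366897) (579765104410363519002661311479808 / 4529963872438214366897))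
      (B4 k l (188602019021108653381468271149056 / 4529963872438214366897) (654698020234770927019025416323072 / 4529963872438214366897) (798028423542872685963022650310656 / 4529963872438214366897) (383762602254661879176508735488000 / 4529963872438214366897) (51797230625644901486887125909504 / 4529963872438214366897)) :=
  O7n ha hb
    (B4n hk hl (by norm_num) (by norm_num) (by norm_num) (by norm_num) (by norm_num))
    (B4n hk hl (by norm_num) (by norm_num) (by norm_num) (by norm_num) (by norm_num))
    (B4n hk hl (by norm_num) (by norm_num) (by norm_num) (by norm_num) (by norm_num))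
    (B4n hk hl (by norm_num) (by norm_num) (by norm_num) (by norm_num) (by norm_num))
    (B4n hk hl (by norm_num) (by norm_num) (by norm_num) (by norm_num) (by norm_num))
    (B4n hk hl (by norm_num) (by norm_num) (by norm_num) (by norm_num) (by norm_num))
    (B4n hk hl (by norm_num) (by norm_num) (by norm_num) (by norm_num) (by norm_num))
    (B4n hk hl (by norm_num) (by norm_num) (by norm_num) (by norm_num) (by norm_num))

private theorem cell20 {u v : ℝ} (h1 : (9 / 5) ≤ v) (h2 : v ≤ (317 / 160))
    (h3 : (13 / 2) * v + (-4121 / 640) ≤ u) (h4 : u ≤ (13 / 2) * v + (-117 / 20)) (hu : 0 ≤ u) :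
    pf u v ≤ fe u - fe v := by
  refine combine (lowD_3 hu) (upD_lo_1 (by linarith)) (low_3 hu) (up_lo_1 (by linarith) (by linarith)) ?_
  refine (bn20 (sub_nonneg.2 h1) (sub_nonneg.2 h2) (sub_nonneg.2 h3) (sub_nonneg.2 h4)).trans_eq ?_
  simp only [B4, O7, pf]
  ring

private theorem bn21 {a b k l : ℝ} (ha : 0 ≤ a) (hb : 0 ≤ b) (hk : 0 ≤ k) (hl : 0 ≤ l) :
    0 ≤ O6 a b
      (B4 k l (224955546869741163677671785234432 / 156205650773731529893) (839580040733695140723328240582656 / 156205650773731529893) (1158613401575115633089909719302144 / 156205650773731529893) (697915473183796878379742467719168 / 156205650773731529893) (153924080655784572208053900804096 / 156205650773731529893))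
      (B4 k l (1274354190144889663014135536812032 / 156205650773731529893) (4709465439996057295151236342874112 / 156205650773731529893) (6418510421888294561632641638989824 / 156205650773731529893) (3803676467043545522199427402432512 / 156205650773731529893) (820262430990919254725779450232832 / 156205650773731529893))
      (B4 k l (2979889851465253431206709735456768 / 156205650773731529893) (10882489586857353614088471551410176 / 156205650773731529893) (14605286850748248137732662153445376 / 156205650773731529893) (8476742326397048101767546069319680 / 156205650773731529893) (1774018166876725277103465368125440 / 156205650773731529893))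
      (B4 k l (3675367932275472021493884622209024 / 156205650773731529893) (13228053164135015658524149630894080 / 156205650773731529893) (17410324834974634307558004593000448 / 156205650773731529893) (9830054121088559815773148214722560 / 156205650773731529893) (1972365285134750043225052309094400 / 156205650773731529893))
      (B4 k l (2516116963654881377938033889771520 / 156205650773731529893) (8890759149921481843391316765966336 / 156205650773731529893) (11406045378851928122468673660125184 / 156205650773731529893) (6198342683637093463257696939540480 / 156205650773731529893) (1166902689618424091190777725583360 / 156205650773731529893))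
      (B4 k l (903656986107623059875843740270592 / 156205650773731529893) (3117490771241225580949540089888768 / 156205650773731529893) (3861422956022613138019849674424320 / 156205650773731529893) (1982623575183671866678592988512256 / 156205650773731529893) (335019734463828435563654091374592 / 156205650773731529893))
      (B4 k l (132416789429963818701160011792384 / 156205650773731529893) (442180769427188124980655597551616 / 156205650773731529893) (520312839061380396757519511322624 / 156205650773731529893) (243353851665258949805029220941824 / 156205650773731529893) (32802556330418840151900379152384 / 156205650773731529893)) :=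
  O6n ha hb
    (B4n hk hl (by norm_num) (by norm_num) (by norm_num) (by norm_num) (by norm_num))
    (B4n hk hl (by norm_num) (by norm_num) (by norm_num) (by norm_num) (by norm_num))
    (B4n hk hl (by norm_num) (by norm_num) (by norm_num) (by norm_num) (by norm_num))
    (B4n hk hl (by norm_num) (by norm_num) (by norm_num) (by norm_num) (by norm_num))
    (B4n hk hl (by norm_num) (by norm_num) (by norm_num) (by norm_num) (by norm_num))
    (B4n hk hl (by norm_num) (by norm_num) (by norm_num) (by norm_num) (by norm_num))
    (B4n hk hl (by norm_num) (by norm_num) (by norm_num) (by norm_num) (by norm_num))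

private theorem cell21 {u v : ℝ} (h1 : (317 / 160) ≤ v) (h2 : v ≤ (663 / 320))
    (h3 : (13 / 2) * v + (-4121 / 640) ≤ u) (h4 : u ≤ (13 / 2) * v + (-1573 / 256)) (hu : 0 ≤ u) :
    pf u v ≤ fe u - fe v := by
  refine combine (lowD_3 hu) (upD_hi_0 (by linarith)) (low_3 hu) (up_hi_0 (by linarith)) ?_
  refine (bn21 (sub_nonneg.2 h1) (sub_nonneg.2 h2) (sub_nonneg.2 h3) (sub_nonneg.2 h4)).trans_eq ?_
  simp only [B4, O6, pf]
  ring

private theorem bn22 {a b k l : ℝ} (ha : 0 ≤ a) (hb : 0 ≤ b) (hk : 0 ≤ k) (hl : 0 ≤ l) :
    0 ≤ O6 a b
      (B4 k l (8273763570484592413107090647678976 / 156205650773731529893) (31658607798369528019290709901180928 / 156205650773731529893) (45221804901647905206305507405463552 / 156205650773731529893) (28560848100499557901301947054424064 / 156205650773731529893) (6723881160536351519522003487817728 / 156205650773731529893))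
      (B4 k l (46034237715238587841931367715700736 / 156205650773731529893) (175038662127872172677165910960635904 / 156205650773731529893) (248231157137749794596915934702600192 / 156205650773731529893) (155471336721398107764069262707130368 / 156205650773731529893) (36244566598921001039412548163600384 / 156205650773731529893))
      (B4 k l (8120831717711259875008057895288832 / 12015819290287040761) (30641780417744492445073368724537344 / 12015819290287040761) (43067697186621484130360504220647424 / 12015819290287040761) (26691086529587600093445019674869760 / 12015819290287040761) (6144330890193209382867200680919040 / 12015819290287040761))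
      (B4 k l (127466177271506527702081639569948672 / 156205650773731529893) (476363288457120411594734050341814272 / 156205650773731529893) (661960147667961447278030757858115584 / 156205650773731529893) (404655447697131871035879649412382720 / 156205650773731529893) (91592287918469305832396893559193600 / 156205650773731529893))
      (B4 k l (85216708085044412970192001856176128 / 156205650773731529893) (314567176223689788142492008610529280 / 156205650773731529893) (430627838377318261968268455667826688 / 156205650773731529893) (258391264872195102587859040689192960 / 156205650773731529893) (57113802682850646154739762834964480 / 156205650773731529893))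
      (B4 k l (29789716348128821023538894151352320 / 156205650773731529893) (108176165767025317265127798950854656 / 156205650773731529893) (145071674679362310286321831863386112 / 156205650773731529893) (84761855040992201826572942161477632 / 156205650773731529893) (18076593211812082272083335125663744 / 156205650773731529893))
      (B4 k l (4228848721637914317618825029222400 / 156205650773731529893) (15009192389437629623174323261931520 / 156205650773731529893) (19533281015264260342832618891378688 / 156205650773731529893) (10952407092346164956458685703389184 / 156205650773731529893) (2199463685843031000828170408558592 / 156205650773731529893)) :=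
  O6n ha hb
    (B4n hk hl (by norm_num) (by norm_num) (by norm_num) (by norm_num) (by norm_num))
    (B4n hk hl (by norm_num) (by norm_num) (by norm_num) (by norm_num) (by norm_num))
    (B4n hk hl (by norm_num) (by norm_num) (by norm_num) (by norm_num) (by norm_num))
    (B4n hk hl (by norm_num) (by norm_num) (by norm_num) (by norm_num) (by norm_num))
    (B4n hk hl (by norm_num) (by norm_num) (by norm_num) (by norm_num) (by norm_num))
    (B4n hk hl (by norm_num) (by norm_num) (by norm_num) (by norm_num) (by norm_num))
    (B4n hk hl (by norm_num) (by norm_num) (by norm_num) (by norm_num) (by norm_num))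

private theorem cell22 {u v : ℝ} (h1 : (173 / 80) ≤ v) (h2 : v ≤ (721 / 320))
    (h3 : (13 / 2) * v + (-2249 / 320) ≤ u) (h4 : u ≤ (13 / 2) * v + (-3523 / 512)) (hu : 0 ≤ u) :
    pf u v ≤ fe u - fe v := by
  refine combine (lowD_3 hu) (upD_hi_1 (by linarith)) (low_3 hu) (up_hi_1 (by linarith)) ?_
  refine (bn22 (sub_nonneg.2 h1) (sub_nonneg.2 h2) (sub_nonneg.2 h3) (sub_nonneg.2 h4)).trans_eq ?_
  simp only [B4, O6, pf]
  ring

private theorem bn23 {a b k l : ℝ} (ha : 0 ≤ a) (hb : 0 ≤ b) (hk : 0 ≤ k) (hl : 0 ≤ l) :
    0 ≤ O6 a b
      (B4 k l (6542152457005687632763954397184 / 156205650773731529893) (24053562987750702956527667380224 / 156205650773731529893) (32541546096823344777437613391872 / 156205650773731529893) (19078050267440971484175896936448 / 156205650773731529893) (4047831112297709335820812419072 / 156205650773731529893))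
      (B4 k l (35532866821099862822507557945344 / 156205650773731529893) (128911290954681249440336550297600 / 156205650773731529893) (171324079371412738661016504631296 / 156205650773731529893) (97968930704824019153196674973696 / 156205650773731529893) (20022782007900471492741445976064 / 156205650773731529893))
      (B4 k l (80933334771251943653233787928576 / 156205650773731529893) (289807591125471437238468480073728 / 156205650773731529893) (378276326538996887554537738469376 / 156205650773731529893) (210673779880854382748422801195008 / 156205650773731529893) (41270496694160259633727143936000 / 156205650773731529893))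
      (B4 k l (100309104811582857194360713248768 / 156205650773731529893) (355544406650943234461070929166336 / 156205650773731529893) (457396094465950062756549567184896 / 156205650773731529893) (249146608276020607964615245037568 / 156205650773731529893) (46984226451387308172258935046144 / 156205650773731529893))
      (B4 k l (72674769047036983888248349655040 / 156205650773731529893) (256707495624763389983499365646336 / 156205650773731529893) (328572546879112157608872568160256 / 156205650773731529893) (177538193939409268145205924593664 / 156205650773731529893) (32997203300445082843929756303360 / 156205650773731529893))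
      (B4 k l (29750725312430355559398531661824 / 156205650773731529893) (105803481552884426515884734939136 / 156205650773731529893) (136730772454474705433998097645568 / 156205650773731529893) (74981943005811883299531109957632 / 156205650773731529893) (14303467464169689490941894721536 / 156205650773731529893))
      (B4 k l (5442526453528554681443756802048 / 156205650773731529893) (19690872555363757356488885010432 / 156205650773731529893) (26061041479165682587254525001728 / 156205650773731529893) (14807801033792265157230590951424 / 156205650773731529893) (2995030600264511621887609012224 / 156205650773731529893)) :=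
  O6n ha hb
    (B4n hk hl (by norm_num) (by norm_num) (by norm_num) (by norm_num) (by norm_num))
    (B4n hk hl (by norm_num) (by norm_num) (by norm_num) (by norm_num) (by norm_num))
    (B4n hk hl (by norm_num) (by norm_num) (by norm_num) (by norm_num) (by norm_num))
    (B4n hk hl (by norm_num) (by norm_num) (by norm_num) (by norm_num) (by norm_num))
    (B4n hk hl (by norm_num) (by norm_num) (by norm_num) (by norm_num) (by norm_num))
    (B4n hk hl (by norm_num) (by norm_num) (by norm_num) (by norm_num) (by norm_num))
    (B4n hk hl (by norm_num) (by norm_num) (by norm_num) (by norm_num) (by norm_num))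

private theorem cell23 {u v : ℝ} (h1 : (101 / 40) ≤ v) (h2 : v ≤ (433 / 160))
    (h3 : (13 / 2) * v + (-1313 / 160) ≤ u) (h4 : u ≤ (13 / 2) * v + (-10127 / 1280)) (hu : 0 ≤ u) :
    pf u v ≤ fe u - fe v := by
  refine combine (lowD_3 hu) (upD_hi_1 (by linarith)) (low_3 hu) (up_hi_1 (by linarith)) ?_
  refine (bn23 (sub_nonneg.2 h1) (sub_nonneg.2 h2) (sub_nonneg.2 h3) (sub_nonneg.2 h4)).trans_eq ?_
  simp only [B4, O6, pf]
  ring

private theorem regA {u v : ℝ} (h1 : 0 ≤ v) (h2 : v ≤ (1 / 3))
    (h3 : (13 / 4) * v + (-13 / 12) ≤ u) (h4 : u ≤ (13 / 4) * v + 0) (hu : 0 ≤ u)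
    (_hM : 2 * (13 / 4) * v - (13 / 4) ^ 2 ≤ u) (_hM2 : u ≤ 13 / 4 * v) :
    pf u v ≤ fe u - fe v := by
  rcases le_total u ((13 / 4) * v + (-13 / 24)) with h | h
  · replace h4 := h
    rcases le_total v (1 / 6) with h | h
    · replace h2 := h
      exact cell1 h1 h2 h3 h4 hu
    · replace h1 := h
      exact cell2 h1 h2 h3 h4 hu
  · replace h3 := h
    rcases le_total v (1 / 6) with h | h
    · replace h2 := h
      exact cell3 h1 h2 h3 h4 hu
    · replace h1 := h
      exact cell4 h1 h2 h3 h4 hu

private theorem regB {u v : ℝ} (h1 : 1 ≤ v) (h2 : v ≤ (3 / 2))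
    (h3 : 0 * v + (14 / 5) ≤ u) (h4 : u ≤ 0 * v + (39 / 8)) (hu : 0 ≤ u)
    (_hM : 2 * (13 / 4) * v - (13 / 4) ^ 2 ≤ u) (_hM2 : u ≤ 13 / 4 * v) :
    pf u v ≤ fe u - fe v := by
  exact cell5 h1 h2 h3 h4 hu

private theorem regC {u v : ℝ} (h1 : (3 / 2) ≤ v) (h2 : v ≤ (9 / 5))
    (h3 : 0 * v + (9 / 5) ≤ u) (h4 : u ≤ 0 * v + (117 / 20)) (hu : 0 ≤ u)
    (_hM : 2 * (13 / 4) * v - (13 / 4) ^ 2 ≤ u) (_hM2 : u ≤ 13 / 4 * v) :
    pf u v ≤ fe u - fe v := by
  exact cell6 h1 h2 h3 h4 hu

private theorem regD {u v : ℝ} (h1 : (9 / 5) ≤ v) (h2 : v ≤ (13 / 4))
    (h3 : (13 / 2) * v + (-169 / 16) ≤ u) (h4 : u ≤ (13 / 2) * v + (-117 / 20)) (hu : 0 ≤ u)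
    (_hM : 2 * (13 / 4) * v - (13 / 4) ^ 2 ≤ u) (_hM2 : u ≤ 13 / 4 * v) :
    pf u v ≤ fe u - fe v := by
  rcases le_total u ((13 / 2) * v + (-1313 / 160)) with h | h
  · replace h4 := h
    rcases le_total v (101 / 40) with h | h
    · replace h2 := h
      rcases le_total u ((13 / 2) * v + (-3003 / 320)) with h | h
      · replace h4 := h
        rcases le_total v (173 / 80) with h | h
        · replace h2 := h
          rcases le_total u ((13 / 2) * v + (-6383 / 640)) with h | h
          · replace h4 := h
            rcases le_total v (317 / 160) with h | h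
            · replace h2 := h
              exact cell7 h1 h2 h3 h4 hu
            · replace h1 := h
              exact cell8 h1 h2 h3 h4 hu
          · replace h3 := h
            exact cell9 h1 h2 h3 h4 hu
        · replace h1 := h
          exact cell10 h1 h2 h3 h4 hu
      · replace h3 := h
        exact cell11 h1 h2 h3 h4 hu
    · replace h1 := h
      exact cell12 h1 h2 h3 h4 hu
  · replace h3 := h
    rcases le_total v (101 / 40) with h | h
    · replace h2 := h
      rcases le_total u ((13 / 2) * v + (-2249 / 320)) with h | h
      · replace h4 := h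
        rcases le_total v (173 / 80) with h | h
        · replace h2 := h
          exact cell13 h1 h2 h3 h4 hu
        · replace h1 := h
          rcases le_total u ((13 / 2) * v + (-975 / 128)) with h | h
          · replace h4 := h
            exact cell14 h1 h2 h3 h4 hu
          · replace h3 := h
            rcases le_total v (75 / 32) with h | h
            · replace h2 := h
              rcases le_total u ((13 / 2) * v + (-9373 / 1280)) with h | h
              · replace h4 := h
                exact cell15 h1 h2 h3 h4 hu
              · replace h3 := h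
                rcases le_total v (721 / 320) with h | h
                · replace h2 := h
                  exact cell16 h1 h2 h3 h4 hu
                · replace h1 := h
                  rcases le_total u ((13 / 2) * v + (-18369 / 2560)) with h | h
                  · replace h4 := h
                    exact cell17 h1 h2 h3 h4 hu
                  · replace h3 := h
                    linarith
            · replace h1 := h
              rcases le_total u ((13 / 2) * v + (-9373 / 1280)) with h | h
              · replace h4 := h
                rcases le_total v (779 / 320) with h | h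
                · replace h2 := h
                  rcases le_total u ((13 / 2) * v + (-19123 / 2560)) with h | h
                  · replace h4 := h
                    exact cell18 h1 h2 h3 h4 hu
                  · replace h3 := h
                    linarith
                · replace h1 := h
                  linarith
              · replace h3 := h
                linarith
      · replace h3 := h
        rcases le_total v (173 / 80) with h | h
        · replace h2 := h
          rcases le_total u ((13 / 2) * v + (-4121 / 640)) with h | h
          · replace h4 := h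
            exact cell19 h1 h2 h3 h4 hu
          · replace h3 := h
            rcases le_total v (317 / 160) with h | h
            · replace h2 := h
              exact cell20 h1 h2 h3 h4 hu
            · replace h1 := h
              rcases le_total u ((13 / 2) * v + (-1573 / 256)) with h | h
              · replace h4 := h
                rcases le_total v (663 / 320) with h | h
                · replace h2 := h
                  exact cell21 h1 h2 h3 h4 hu
                · replace h1 := h
                  linarith
              · replace h3 := h
                linarith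
        · replace h1 := h
          rcases le_total u ((13 / 2) * v + (-4121 / 640)) with h | h
          · replace h4 := h
            rcases le_total v (75 / 32) with h | h
            · replace h2 := h
              rcases le_total u ((13 / 2) * v + (-8619 / 1280)) with h | h
              · replace h4 := h
                rcases le_total v (721 / 320) with h | h
                · replace h2 := h
                  rcases le_total u ((13 / 2) * v + (-3523 / 512)) with h | h
                  · replace h4 := h
                    exact cell22 h1 h2 h3 h4 hu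
                  · replace h3 := h
                    linarith
                · replace h1 := h
                  linarith
              · replace h3 := h
                linarith
            · replace h1 := h
              linarith
          · replace h3 := h
            linarith
    · replace h1 := h
      rcases le_total u ((13 / 2) * v + (-2249 / 320)) with h | h
      · replace h4 := h
        rcases le_total v (231 / 80) with h | h
        · replace h2 := h
          rcases le_total u ((13 / 2) * v + (-975 / 128)) with h | h
          · replace h4 := h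
            rcases le_total v (433 / 160) with h | h
            · replace h2 := h
              rcases le_total u ((13 / 2) * v + (-10127 / 1280)) with h | h
              · replace h4 := h
                exact cell23 h1 h2 h3 h4 hu
              · replace h3 := h
                linarith
            · replace h1 := h
              linarith
          · replace h3 := h
            linarith
        · replace h1 := h
          linarith
      · replace h3 := h
        linarith

/-- positivity of a binary quadratic form -/
private theorem quad_nonneg {P r q : ℝ} (hq : 0 < q) (hdet : 0 ≤ P * q - r ^ 2) (b k : ℝ) :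
    0 ≤ P * b ^ 2 + 2 * r * b * k + q * k ^ 2 := by
  have h : 0 ≤ q * (P * b ^ 2 + 2 * r * b * k + q * k ^ 2) := by
    have : q * (P * b ^ 2 + 2 * r * b * k + q * k ^ 2) =
        (q * k + r * b) ^ 2 + (P * q - r ^ 2) * b ^ 2 := by ring
    rw [this]
    positivity
  exact nonneg_of_mul_nonneg_right h hq

private theorem quad_step {u v A U An Ad Un Ud : ℝ} (hAd : 0 < Ad) (hUd : 0 < Ud)
    (hAe : A * Ad = An) (hUe : U * Ud = Un) (hA : (u - 1) ^ 2 * A ≤ fe u)
    (hU : fe v ≤ (v - 1) ^ 2 * U) (hq : 0 < An - Ad * (1691 / 5000 + (-1427 / 16250) * v))
    (hT : 0 ≤ An * ((8 * (829 / 2500 + (-1811 / 32500) * v) + 4 * (1043 / 32500) - 4 * (1691 / 5000 + (-1427 / 16250) * v) - 2 * (813 / 2500 + 1043 / 32500 * v)) * Ud - Un) +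
      Ad * ((1691 / 5000 + (-1427 / 16250) * v) * (Un + 2 * (813 / 2500 + 1043 / 32500 * v) * Ud) - ((1043 / 32500) + 2 * (829 / 2500 + (-1811 / 32500) * v)) ^ 2 * Ud)) :
    pf u v ≤ fe u - fe v := by
  have hq' : 0 < A - (1691 / 5000 + (-1427 / 16250) * v) := by
    have : 0 < (A - (1691 / 5000 + (-1427 / 16250) * v)) * Ad := by rw [sub_mul, hAe, mul_comm _ Ad]; exact hq
    exact pos_of_mul_pos_left this hAd.le
  have hdet : 0 ≤ (4 * A - U - 2 * (813 / 2500 + 1043 / 32500 * v)) * (A - (1691 / 5000 + (-1427 / 16250) * v)) -
      (2 * A - (1043 / 32500) - 2 * (829 / 2500 + (-1811 / 32500) * v)) ^ 2 := by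
    have e : ((4 * A - U - 2 * (813 / 2500 + 1043 / 32500 * v)) * (A - (1691 / 5000 + (-1427 / 16250) * v)) -
      (2 * A - (1043 / 32500) - 2 * (829 / 2500 + (-1811 / 32500) * v)) ^ 2) * (Ad * Ud) =
      An * ((8 * (829 / 2500 + (-1811 / 32500) * v) + 4 * (1043 / 32500) - 4 * (1691 / 5000 + (-1427 / 16250) * v) - 2 * (813 / 2500 + 1043 / 32500 * v)) * Ud - Un) +
      Ad * ((1691 / 5000 + (-1427 / 16250) * v) * (Un + 2 * (813 / 2500 + 1043 / 32500 * v) * Ud) - ((1043 / 32500) + 2 * (829 / 2500 + (-1811 / 32500) * v)) ^ 2 * Ud) := by
      rw [← hAe, ← hUe]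
      ring
    rw [← e] at hT
    exact (mul_nonneg_iff_of_pos_right (mul_pos hAd hUd)).1 hT
  have h := quad_nonneg hq' hdet (v - 1) (u - 2 * v + 1)
  have e : (4 * A - U - 2 * (813 / 2500 + 1043 / 32500 * v)) * (v - 1) ^ 2 +
      2 * (2 * A - (1043 / 32500) - 2 * (829 / 2500 + (-1811 / 32500) * v)) * (v - 1) * (u - 2 * v + 1) +
      (A - (1691 / 5000 + (-1427 / 16250) * v)) * (u - 2 * v + 1) ^ 2 =
      (u - 1) ^ 2 * A - (v - 1) ^ 2 * U - pf u v := by
    unfold pf
    ring
  rw [e] at h
  linarith

private theorem low_near {u x : ℝ} (hu : 0 ≤ u) (hx : u ≤ x) :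
    (u - 1) ^ 2 * ((7 * x + 8) / (3 * (x ^ 2 + 6 * x + 3))) ≤ fe u :=
  (mul_le_mul_of_nonneg_left (lfun_anti hu hx) (sq_nonneg _)).trans (fe_lower hu)

private theorem near1 {u v : ℝ} (h1 : (1 / 3) ≤ v) (h2 : v ≤ 1) (hu : 0 ≤ u) (hx : u ≤ 13 / 4 * v) :
    pf u v ≤ fe u - fe v := by
  have hv : 0 < v := by linarith
  have hx0 : 0 ≤ 13 / 4 * v := hu.trans hx
  have hD : 0 < 3 * ((13 / 4 * v) ^ 2 + 6 * (13 / 4 * v) + 3) := by positivity
  have hU : 0 < 6 * v * (v + 3) := by positivity
  refine quad_step hD hU (div_mul_cancel₀ _ hD.ne') (div_mul_cancel₀ _ hU.ne') (low_near hu hx)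
    (fe_upper_lo hv h2) ?_ ?_
  · have h : 0 < O3 (v - (1 / 3)) (1 - v) (159808749 / 8320000) (497463219 / 8320000) (480595347 / 8320000) (6643701 / 332800) := by
      unfold O3
      rcases h1.eq_or_lt with h | h
      · have hb : 0 < 1 - v := by rw [← h]; norm_num
        have ha : 0 ≤ v - (1 / 3) := sub_nonneg.2 h1
        positivity
      · have hb : 0 ≤ 1 - v := sub_nonneg.2 h2
        have ha : 0 < v - (1 / 3) := sub_pos.2 h
        positivity
    refine h.trans_eq ?_
    simp only [O3]
    ring
  · have h : 0 ≤ O6 (v - (1 / 3)) (1 - v) (186213485781 / 27040000000) (25309088226351 / 135200000000) (55401963852429 / 67600000000) (6050510614791 / 4225000000) (152793223406883 / 135200000000) (46837901194641 / 135200000000) (15419327589 / 2704000000) := 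
      O6n (sub_nonneg.2 h1) (sub_nonneg.2 h2) (by norm_num) (by norm_num) (by norm_num) (by norm_num) (by norm_num) (by norm_num) (by norm_num)
    refine h.trans_eq ?_
    simp only [O6]
    ring

private theorem near2 {u v : ℝ} (h1 : 1 ≤ v) (h2 : v ≤ (3 / 2)) (hu : 0 ≤ u) (hx : u ≤ (14 / 5 : ℝ)) :
    pf u v ≤ fe u - fe v := by
  have hv : 0 < v := by linarith
  have hx0 : 0 ≤ (14 / 5 : ℝ) := hu.trans hx
  have hD : 0 < 3 * (((14 / 5 : ℝ)) ^ 2 + 6 * ((14 / 5 : ℝ)) + 3) := by positivity
  have hU : 0 < 6 * (v + 1) := by positivity
  refine quad_step hD hU (div_mul_cancel₀ _ hD.ne') (div_mul_cancel₀ _ hU.ne') (low_near hu hx)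
    (fe_upper_hi h1) ?_ ?_
  · have h : 0 < O1 (v - 1) ((3 / 2) - v) (444477 / 32500) (17028267 / 812500) := by
      unfold O1
      rcases h1.eq_or_lt with h | h
      · have hb : 0 < (3 / 2) - v := by rw [← h]; norm_num
        have ha : 0 ≤ v - 1 := sub_nonneg.2 h1
        positivity
      · have hb : 0 ≤ (3 / 2) - v := sub_nonneg.2 h2
        have ha : 0 < v - 1 := sub_pos.2 h
        positivity
    refine h.trans_eq ?_
    simp only [O1]
    ring
  · have h : 0 ≤ O3 (v - 1) ((3 / 2) - v) (1541457756 / 66015625) (128296790751 / 1650390625) (86353091199 / 1320312500) (41288199 / 20312500) := 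
      O3n (sub_nonneg.2 h1) (sub_nonneg.2 h2) (by norm_num) (by norm_num) (by norm_num) (by norm_num)
    refine h.trans_eq ?_
    simp only [O3]
    ring

private theorem near3 {u v : ℝ} (h1 : (3 / 2) ≤ v) (h2 : v ≤ (9 / 5)) (hu : 0 ≤ u) (hx : u ≤ (9 / 5 : ℝ)) :
    pf u v ≤ fe u - fe v := by
  have hv : 0 < v := by linarith
  have hx0 : 0 ≤ (9 / 5 : ℝ) := hu.trans hx
  have hD : 0 < 3 * (((9 / 5 : ℝ)) ^ 2 + 6 * ((9 / 5 : ℝ)) + 3) := by positivity
  have hU : 0 < 6 * (v + 1) := by positivity
  refine quad_step hD hU (div_mul_cancel₀ _ hD.ne') (div_mul_cancel₀ _ hU.ne') (low_near hu hx)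
    (fe_upper_hi (by linarith)) ?_ ?_
  · have h : 0 < O1 (v - (3 / 2)) ((9 / 5) - v) (8161481 / 243750) (46278523 / 1218750) := by
      unfold O1
      rcases h1.eq_or_lt with h | h
      · have hb : 0 < (9 / 5) - v := by rw [← h]; norm_num
        have ha : 0 ≤ v - (3 / 2) := sub_nonneg.2 h1
        positivity
      · have hb : 0 ≤ (9 / 5) - v := sub_nonneg.2 h2
        have ha : 0 < v - (3 / 2) := sub_pos.2 h
        positivity
    refine h.trans_eq ?_
    simp only [O1]
    ring
  · have h : 0 ≤ O3 (v - (3 / 2)) ((9 / 5) - v) (478329557 / 2193750) (14442706787 / 26406250) (1129217442278 / 2970703125) (2035471901432 / 44560546875) := 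
      O3n (sub_nonneg.2 h1) (sub_nonneg.2 h2) (by norm_num) (by norm_num) (by norm_num) (by norm_num)
    refine h.trans_eq ?_
    simp only [O3]
    ring

/-- **The pointwise inequality**, `M = 13/4`. -/
theorem pointwise {u v : ℝ} (hv0 : 0 ≤ v) (hvM : v ≤ 13 / 4) (hu0 : 0 ≤ u)
    (hul : 2 * (13 / 4) * v - (13 / 4) ^ 2 ≤ u) (hu : u ≤ 13 / 4 * v) :
    2 * (((13 / 4 - v) * (813 / 2500) + v * (859 / 2000)) / (13 / 4)) * (v - 1) ^ 2 +
      (2 * (((859 / 2000) - (813 / 2500)) / (13 / 4)) +
        4 * (((13 / 4 - v) * (829 / 2500) + v * (301 / 2000)) / (13 / 4))) * (v - 1) * (u - 2 * v + 1) +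
      (((13 / 4 - v) * (1691 / 5000) + v * (33 / 625)) / (13 / 4)) * (u - 2 * v + 1) ^ 2 ≤
      (u * Real.log u - u + 1) - (v * Real.log v - v + 1) := by
  have main : pf u v ≤ fe u - fe v := by
    rcases le_total v (1 / 3) with ha | ha
    · exact regA hv0 ha (by linarith) (by linarith) hu0 hul hu
    rcases le_total v 1 with hb | hb
    · exact near1 ha hb hu0 hu
    rcases le_total v (3 / 2) with hc | hc
    · rcases le_total u (14 / 5) with h | h
      · exact near2 hb hc hu0 h
      · exact regB hb hc (by linarith) (by linarith) hu0 hul hu
    rcases le_total v (9 / 5) with hd | hd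
    · rcases le_total u (9 / 5) with h | h
      · exact near3 hc hd hu0 h
      · exact regC hc hd (by linarith) (by linarith) hu0 hul hu
    · exact regD hd hvM (by linarith) (by linarith) hu0 hul hu
  have e : pf u v = 2 * (((13 / 4 - v) * (813 / 2500) + v * (859 / 2000)) / (13 / 4)) * (v - 1) ^ 2 +
      (2 * (((859 / 2000) - (813 / 2500)) / (13 / 4)) +
        4 * (((13 / 4 - v) * (829 / 2500) + v * (301 / 2000)) / (13 / 4))) * (v - 1) * (u - 2 * v + 1) +
      (((13 / 4 - v) * (1691 / 5000) + v * (33 / 625)) / (13 / 4)) * (u - 2 * v + 1) ^ 2 := by
    unfold pf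
    ring
  rw [← e]
  exact main

end Pool.Agent.Lib.MP_ec2ab1_pr_h25b.PW3
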